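import Pool.Agent.H37.LN.Defs
import Pool.Agent.H48.LN.ReL
import Pool.Agent.H37.GH.MdN

/-!
# Module MdL: moments and `L¹` norms of nearly homogeneous densities

Copies of `md_nh`, `l1_x`, `mdT_t` in H37/GH/MdN.lean. `md_nhL`: there for the definitions of H37/LT and H37/GH with the same formulas (copy the proof, or import it and use `exact`: `NH`, `md`, `mdT` unfold to the same terms). `l1_xy`: `∫ |F x - μ| ≤ ∫ |F y - μ| + ∫ |F x - F y|`, `∫ Wp (d+10) = C`.
`mdT_tL`: conservation of mass, momentum, energy: `landau_inv` (H48/LN/ReL) instead of `boltz_HasInvariants`; the rest of the proof of `mdT_t` unchanged.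
-/

set_option autoImplicit false

open MeasureTheory Set Filter Topology Pool.Agent.H25.Kin Pool.Agent.H48.PR
open Pool.Agent.H15.AV (Slice)
open Pool.Agent.H48.NE (mx)

namespace Pool.Agent.H37.LN

variable {d : ℕ} {γ : ℝ}

private lemma mdl_W (p : ℕ) (v : Vec d) : Wp (p + 2) v * (1 + nsq v) ^ 2 = Wp p v := by
  have h := sq_nonneg' v
  have h1 : (1 + nsq v) ≠ 0 := by positivity
  unfold Wp
  rw [pow_add, mul_inv, mul_assoc, inv_mul_cancel₀ (pow_ne_zero _ h1), mul_one]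

private lemma mdl_Wint {q : ℕ} (hq : d + 1 ≤ 2 * q) : Integrable (Wp q : Vec d → ℝ) := by
  refine Integrable.mono' ((integrable_wt (d := d)).const_mul ((2 : ℝ) ^ q))
    (Wp_cont q).aestronglyMeasurable (Eventually.of_forall fun v => ?_)
  have hn := norm_nonneg v
  have h1 : (1 + ‖v‖) ^ 2 ≤ 2 * (1 + nsq v) := by
    have := norm_sq_le_sq v
    nlinarith [sq_nonneg (1 - ‖v‖)]
  have h2 : (1 + ‖v‖) ^ (d + 1) ≤ 2 ^ q * (1 + nsq v) ^ q := by
    calc (1 + ‖v‖) ^ (d + 1) ≤ (1 + ‖v‖) ^ (2 * q) := pow_le_pow_right₀ (by linarith) hq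
      _ = ((1 + ‖v‖) ^ 2) ^ q := pow_mul _ _ _
      _ ≤ (2 * (1 + nsq v)) ^ q := pow_le_pow_left₀ (by positivity) h1 q
      _ = 2 ^ q * (1 + nsq v) ^ q := mul_pow _ _ _
  have h3 : 0 < (1 + nsq v) ^ q := by
    have := sq_nonneg' v
    positivity
  rw [Real.norm_of_nonneg (Wp_pos q v).le, Wp, wt, ← div_eq_mul_inv, ← one_div,
    div_le_div_iff₀ h3 (by positivity), one_mul]
  exact h2

private lemma mdl_cx {F : Vec d → Vec d → ℝ} (hF : Slice F) (x : Vec d) : Continuous (F x) :=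
  hF.cont.comp (by fun_prop : Continuous fun v : Vec d => (x, v))

private lemma mdl_intx {a k : ℝ} (ha : 0 < a) (hk : 0 < k) (u : Vec d) {F : Vec d → Vec d → ℝ}
    (hF : Slice F) (x : Vec d) : Integrable fun v => |F x v - mx a k u v| := by
  obtain ⟨C, hC⟩ := hF.decay (d + 1)
  obtain ⟨Cl, hCl⟩ := Pool.Agent.H48.NE.mx_FB ha hk u
  have hmc : Continuous (mx a k u) := hCl.nice.cont
  refine (integrable_wt.const_mul (C + Cl (d + 1))).mono'
    ((mdl_cx hF x).sub hmc).abs.aestronglyMeasurable (Eventually.of_forall fun v => ?_)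
  rw [Real.norm_eq_abs, abs_abs]
  have h1 := hC x v
  have h2 := hCl.le (d + 1) v
  have hp : 0 < (1 + ‖v‖) ^ (d + 1) := pow_pos (w_pos v) _
  have h3 : |F x v - mx a k u v| ≤ F x v + mx a k u v := by
    have hf := hF.nonneg x v
    have hg := hCl.nonneg v
    rw [abs_le]
    constructor <;> linarith
  unfold wt
  rw [← div_eq_mul_inv, le_div_iff₀ hp]
  have h4 := mul_le_mul_of_nonneg_right h3 hp.le
  linarith [h1, h2, h4]

theorem md_nhL {a k : ℝ} (ha : 0 < a) (hk : 0 < k) (u : Vec d) : ∃ C : ℝ, 0 ≤ C ∧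
    ∀ (κ : ℝ) (F : Vec d → Vec d → ℝ), 0 ≤ κ → Slice F → NH κ F →
      ∀ x, md (F x) (mx a k u) ≤ mdT F (mx a k u) + κ * C := by
  exact Pool.Agent.H37.GH.md_nh ha hk u

theorem l1_xy {a k : ℝ} (ha : 0 < a) (hk : 0 < k) (u : Vec d) : ∃ C : ℝ, 0 ≤ C ∧
    ∀ (κ : ℝ) (F : Vec d → Vec d → ℝ), 0 ≤ κ → Slice F → NH κ F →
      ∀ x y, ∫ v, |F x v - mx a k u v| ≤ (∫ v, |F y v - mx a k u v|) + κ * C := by
  refine ⟨∫ v : Vec d, Wp (d + 10) v, integral_nonneg fun v => (Wp_pos _ v).le, ?_⟩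
  intro κ F _ hF hN x y
  have iW : Integrable (Wp (d + 10) : Vec d → ℝ) := mdl_Wint (by omega)
  have ix := mdl_intx ha hk u hF x
  have iy := mdl_intx ha hk u hF y
  rw [← integral_const_mul, ← integral_add iy (iW.const_mul κ)]
  refine integral_mono ix (iy.add (iW.const_mul κ)) fun v => ?_
  have h1 := hN x y v
  have e : F x v - mx a k u v = (F y v - mx a k u v) + (F x v - F y v) := by ring
  simp only
  rw [e]
  exact (abs_add_le _ _).trans (by linarith)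

theorem mdT_tL (hd : 2 ≤ d) (h1 : -2 < γ) (h2 : γ ≤ 0) {T : ℝ} {f : ℝ → Vec d → Vec d → ℝ}
    (hf : IsLandauSol γ T f) {t : ℝ} (ht : t ∈ Ico 0 T) (μ : Vec d → ℝ) :
    mdT (f t) μ = mdT (f 0) μ := by
  have hI := Pool.Agent.H48.LN.landau_inv hd h1 h2 hf
  have key : ∀ p : Vec d → ℝ, PG p → Continuous p →
      (∀ t ∈ Ioo 0 T, ∀ x, ∫ v, landauQ γ (f t x) v * p v = 0) →
      ∫ q, f t q.2 q.1 * p q.1 ∂(nu d) = ∫ q, f 0 q.2 q.1 * p q.1 ∂(nu d) := by
    intro p hp hpc hQ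
    have h := mom_const hp hpc hf hQ ht
    unfold mom at h
    have e : ∀ r : ℝ, ∫ q, f r q.2 q.1 * p q.1 ∂(nu d) =
        ∫ q, (fun _ : Vec d => (1 : ℝ)) q.2 * p q.1 * f r q.2 q.1 ∂(nu d) := by
      intro r
      refine integral_congr_ae (Eventually.of_forall fun q => ?_)
      simp only
      ring
    rw [e t, e 0]
    exact h
  have k1 : ∫ q, f t q.2 q.1 ∂(nu d) = ∫ q, f 0 q.2 q.1 ∂(nu d) := by
    have h := key (fun _ => 1) PG.one continuous_const fun t ht x => by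
      simpa using (hI t ht x).1
    simpa using h
  have k2 : ∀ i : Fin d, ∫ q, f t q.2 q.1 * q.1 i ∂(nu d) = ∫ q, f 0 q.2 q.1 * q.1 i ∂(nu d) :=
    fun i => key (fun v => v i) (PG.coord i) (continuous_apply i) fun t ht x => (hI t ht x).2.1 i
  have k3 : ∫ q, f t q.2 q.1 * nsq q.1 ∂(nu d) = ∫ q, f 0 q.2 q.1 * nsq q.1 ∂(nu d) :=
    key nsq PG.nsq continuous_sq fun t ht x => (hI t ht x).2.2
  unfold mdT
  rw [k1, k3]
  simp only [k2]

end Pool.Agent.H37.LN
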