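import Pool.Agent.H37.LN.Defs

/-!
# Module DatL: initial values

`|G x v - G y w| ≤ |G x v - F v| + |F v - F w| + |F w - G y w|`. Case `len (v-w) ≤ 1` (then `‖v-w‖ ≤ 1`, `‖v‖ ≤ ‖w‖ + 1`): `|F v - F w| ≤ C L_N ‖v-w‖ Wp (d+12) v` with `N = 2(d+12)` (`(1+‖v‖)^(2p) ≥ c (1+nsq v)^p`), `‖v-w‖ ≤ len (v-w)`; the two other terms: interpolation of `≤ ε` and `≤ (B_(2N) + C_(2N)) (1+‖v‖)^(-2N)` as in
`dat_dif`, `dat_eps` of H37/GH/Dat.lean: `≤ (δ/2) Wp (d+12) v` if `ε` is small (for `G y w`, use `(1+‖v‖) ≤ 2 (1+‖w‖)`). Case `len (v-w) > 1`: `G x v - G y w ≤ G x v ≤ C(B) Wp (d+12) v`. `Γ₀` = the sum of the constants.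
-/

set_option autoImplicit false

open MeasureTheory Set Filter Topology Pool.Agent.H25.Kin Pool.Agent.H48.PR
open Pool.Agent.H15.AV (Slice)

namespace Pool.Agent.H37.LN

variable {d : ℕ}

private lemma datL_sqrt {E ε C m : ℝ} {n : ℕ} (hE : 0 ≤ E) (h1 : E ≤ ε) (hm : 0 < m)
    (h2 : m ^ (2 * n) * E ≤ C) : E ≤ Real.sqrt (ε * C) * (m ^ n)⁻¹ := by
  have h3 : (E * m ^ n) ^ 2 ≤ ε * C := by
    have e : (E * m ^ n) ^ 2 = E * (m ^ (2 * n) * E) := by ring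
    rw [e]
    exact mul_le_mul h1 h2 (by positivity) (hE.trans h1)
  have h4 : E * m ^ n ≤ Real.sqrt (ε * C) := Real.le_sqrt_of_sq_le h3
  rw [← div_eq_mul_inv, le_div_iff₀ (by positivity)]
  exact h4

private lemma datL_eps {C K : ℝ} (hC : 0 ≤ C) (hK : 0 ≤ K) {δ : ℝ} (hδ : 0 < δ) :
    ∃ ε > 0, Real.sqrt (ε * C) * K ≤ δ := by
  refine ⟨(δ / (K + 1)) ^ 2 / (C + 1), by positivity, ?_⟩
  have h1 : (δ / (K + 1)) ^ 2 / (C + 1) * C ≤ (δ / (K + 1)) ^ 2 := by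
    rw [div_mul_eq_mul_div, div_le_iff₀ (by positivity)]
    exact mul_le_mul_of_nonneg_left (by linarith) (by positivity)
  have h2 : Real.sqrt ((δ / (K + 1)) ^ 2 / (C + 1) * C) ≤ δ / (K + 1) := by
    refine (Real.sqrt_le_sqrt h1).trans ?_
    rw [Real.sqrt_sq (by positivity)]
  calc Real.sqrt ((δ / (K + 1)) ^ 2 / (C + 1) * C) * K ≤ δ / (K + 1) * K :=
        mul_le_mul_of_nonneg_right h2 hK
    _ ≤ δ := by
        rw [div_mul_eq_mul_div, div_le_iff₀ (by positivity)]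
        exact mul_le_mul_of_nonneg_left (by linarith) hδ.le

/-- the difference of a function near `F` and `F`, with weight -/
private lemma datL_dif {F : Vec d → ℝ} (hF : Slice (fun _ : Vec d => F)) (B : ℕ → ℝ) (n : ℕ) :
    ∃ C : ℝ, 0 ≤ C ∧ ∀ ε : ℝ, ∀ G : Vec d → Vec d → ℝ, Slice G → DC B G →
      (∀ x v, |G x v - F v| ≤ ε) →
      ∀ x v, |G x v - F v| ≤ Real.sqrt (ε * C) * ((1 + ‖v‖) ^ n)⁻¹ := by
  obtain ⟨C, hC⟩ := hF.decay (2 * n)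
  refine ⟨|B (2 * n)| + |C|, by positivity, fun ε G hG hD hε x v => ?_⟩
  refine datL_sqrt (abs_nonneg _) (hε x v) (w_pos v) ?_
  have h1 := hD (2 * n) x v
  have h2 := hC x v
  have hw : 0 ≤ (1 + ‖v‖) ^ (2 * n) := pow_nonneg (w_pos v).le _
  have h3 : |G x v - F v| ≤ G x v + F v := by
    have a := hG.nonneg x v
    have b := hF.nonneg x v
    rw [abs_le]
    constructor <;> linarith
  calc (1 + ‖v‖) ^ (2 * n) * |G x v - F v| ≤ (1 + ‖v‖) ^ (2 * n) * (G x v + F v) :=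
        mul_le_mul_of_nonneg_left h3 hw
    _ = (1 + ‖v‖) ^ (2 * n) * G x v + (1 + ‖v‖) ^ (2 * n) * F v := mul_add _ _ _
    _ ≤ |B (2 * n)| + |C| := add_le_add (h1.trans (le_abs_self _)) (h2.trans (le_abs_self _))

private lemma datL_wp (p : ℕ) (v : Vec d) :
    ((1 + ‖v‖) ^ (2 * p))⁻¹ ≤ ((d : ℝ) + 1) ^ p * Wp p v := by
  have h1 : 1 + nsq v ≤ ((d : ℝ) + 1) * (1 + ‖v‖) ^ 2 := by
    have h2 := sq_le v
    have h3 : 0 ≤ ‖v‖ := norm_nonneg v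
    have h4 : (0 : ℝ) ≤ d := Nat.cast_nonneg d
    nlinarith [mul_nonneg h4 h3, mul_nonneg h3 h3]
  have h5 : 0 < 1 + nsq v := by linarith [sq_nonneg' v]
  have h6 : 0 < 1 + ‖v‖ := by linarith [norm_nonneg v]
  unfold Wp
  rw [← div_eq_mul_inv, le_div_iff₀ (pow_pos h5 p), inv_mul_le_iff₀ (by positivity)]
  calc (1 + nsq v) ^ p ≤ (((d : ℝ) + 1) * (1 + ‖v‖) ^ 2) ^ p := pow_le_pow_left₀ h5.le h1 p
    _ = (1 + ‖v‖) ^ (2 * p) * ((d : ℝ) + 1) ^ p := by rw [mul_pow, ← pow_mul]; ring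

private lemma datL_near (p : ℕ) {v w : Vec d} (h : len (v - w) ≤ 1) :
    ((1 + ‖w‖) ^ (2 * p))⁻¹ ≤ 2 ^ (2 * p) * (((d : ℝ) + 1) ^ p * Wp p v) := by
  have h1 : ‖v‖ ≤ ‖w‖ + 1 := by
    have a := norm_le_len (v - w)
    have b := norm_add_le (v - w) w
    rw [sub_add_cancel] at b
    linarith
  have h2 : (1 + ‖v‖) ^ (2 * p) ≤ 2 ^ (2 * p) * (1 + ‖w‖) ^ (2 * p) := by
    rw [← mul_pow]
    exact pow_le_pow_left₀ (w_pos v).le (by linarith [norm_nonneg w]) _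
  have h3 : ((1 + ‖w‖) ^ (2 * p))⁻¹ ≤ 2 ^ (2 * p) * ((1 + ‖v‖) ^ (2 * p))⁻¹ := by
    have a := pow_pos (w_pos v) (2 * p)
    have b := pow_pos (w_pos w) (2 * p)
    rw [← div_eq_mul_inv, le_div_iff₀ a, inv_mul_le_iff₀ b]
    linarith
  exact h3.trans (mul_le_mul_of_nonneg_left (datL_wp p v) (by positivity))

theorem dat_q (q : ℕ) {F : Vec d → ℝ} (hF : Slice (fun _ : Vec d => F))
    (hL : ∀ N : ℕ, ∃ L : ℝ, ∀ v w : Vec d, ‖v - w‖ ≤ 1 → (1 + ‖v‖) ^ N * |F v - F w| ≤ L * ‖v - w‖)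
    (B : ℕ → ℝ) : ∃ Γ₀ : ℝ, 0 ≤ Γ₀ ∧ ∀ δ > 0, ∃ ε > 0, ∀ G : Vec d → Vec d → ℝ, Slice G → DC B G →
      (∀ x v, |G x v - F v| ≤ ε) →
      ∀ x y v w : Vec d, G x v - G y w ≤ (δ + Γ₀ * min 1 (len (v - w))) * Wp q v := by
  obtain ⟨L, hL0⟩ := hL (2 * q)
  refine ⟨(|L| + |B (2 * q)|) * ((d : ℝ) + 1) ^ q, by positivity, fun δ hδ => ?_⟩
  obtain ⟨C, hC, hdif⟩ := datL_dif hF B (2 * q)
  obtain ⟨ε, hε, hε2⟩ := datL_eps hC
    (K := 2 ^ (2 * q) * ((d : ℝ) + 1) ^ q) (by positivity) (half_pos hδ)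
  refine ⟨ε, hε, fun G hG hD hGF x y v w => ?_⟩
  have hW := Wp_pos q v
  have hs := Real.sqrt_nonneg (ε * C)
  by_cases hl : 1 ≤ len (v - w)
  · rw [min_eq_left hl, mul_one]
    have a1 := hG.nonneg y w
    have a2 := hD (2 * q) x v
    have a3 : G x v ≤ |B (2 * q)| * ((1 + ‖v‖) ^ (2 * q))⁻¹ := by
      rw [← div_eq_mul_inv, le_div_iff₀ (pow_pos (w_pos v) _), mul_comm]
      exact a2.trans (le_abs_self _)
    have a4 : |B (2 * q)| * ((1 + ‖v‖) ^ (2 * q))⁻¹ ≤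
        |B (2 * q)| * (((d : ℝ) + 1) ^ q * Wp q v) :=
      mul_le_mul_of_nonneg_left (datL_wp q v) (abs_nonneg _)
    have a5 : 0 ≤ (δ + |L| * ((d : ℝ) + 1) ^ q) * Wp q v := by positivity
    have e : (δ + (|L| + |B (2 * q)|) * ((d : ℝ) + 1) ^ q) * Wp q v =
        (δ + |L| * ((d : ℝ) + 1) ^ q) * Wp q v +
          |B (2 * q)| * (((d : ℝ) + 1) ^ q * Wp q v) := by ring
    rw [e]
    linarith
  · push Not at hl
    rw [min_eq_right hl.le]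
    have hα : 0 ≤ len (v - w) := len_nonneg _
    have b1 : G x v - F v ≤ δ / 2 * Wp q v := by
      have c1 := (le_abs_self _).trans (hdif ε G hG hD hGF x v)
      have c2 : ((1 + ‖v‖) ^ (2 * q))⁻¹ ≤
          2 ^ (2 * q) * (((d : ℝ) + 1) ^ q * Wp q v) := by
        refine (datL_wp q v).trans ?_
        have : (1 : ℝ) ≤ 2 ^ (2 * q) := one_le_pow₀ (by norm_num)
        exact le_mul_of_one_le_left (by positivity) this
      have c3 := mul_le_mul_of_nonneg_left c2 hs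
      have c4 := mul_le_mul_of_nonneg_right hε2 hW.le
      calc G x v - F v ≤ _ := c1.trans c3
        _ = Real.sqrt (ε * C) * (2 ^ (2 * q) * ((d : ℝ) + 1) ^ q) *
              Wp q v := by ring
        _ ≤ _ := c4
    have b2 : F w - G y w ≤ δ / 2 * Wp q v := by
      have c1 := hdif ε G hG hD hGF y w
      rw [abs_sub_comm] at c1
      have c2 := datL_near q hl.le
      have c3 := mul_le_mul_of_nonneg_left c2 hs
      have c4 := mul_le_mul_of_nonneg_right hε2 hW.le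
      calc F w - G y w ≤ _ := ((le_abs_self _).trans c1).trans c3
        _ = Real.sqrt (ε * C) * (2 ^ (2 * q) * ((d : ℝ) + 1) ^ q) *
              Wp q v := by ring
        _ ≤ _ := c4
    have b3 : F v - F w ≤ |L| * len (v - w) * (((d : ℝ) + 1) ^ q * Wp q v) := by
      have hη : ‖v - w‖ ≤ 1 := (norm_le_len (v - w)).trans hl.le
      have c1 := hL0 v w hη
      have c2 : L * ‖v - w‖ ≤ |L| * len (v - w) :=
        mul_le_mul (le_abs_self L) (norm_le_len (v - w)) (norm_nonneg _) (abs_nonneg L)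
      have c3 : F v - F w ≤ |L| * len (v - w) * ((1 + ‖v‖) ^ (2 * q))⁻¹ := by
        rw [← div_eq_mul_inv, le_div_iff₀ (pow_pos (w_pos v) _), mul_comm]
        refine le_trans ?_ (c1.trans c2)
        exact mul_le_mul_of_nonneg_left (le_abs_self _) (pow_nonneg (w_pos v).le _)
      exact c3.trans (mul_le_mul_of_nonneg_left (datL_wp q v) (by positivity))
    have b4 : 0 ≤ |B (2 * q)| * ((d : ℝ) + 1) ^ q * len (v - w) *
        Wp q v := by positivity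
    have e : (δ + (|L| + |B (2 * q)|) * ((d : ℝ) + 1) ^ q *
        len (v - w)) * Wp q v = δ / 2 * Wp q v + δ / 2 * Wp q v +
          |L| * len (v - w) * (((d : ℝ) + 1) ^ q * Wp q v) +
          |B (2 * q)| * ((d : ℝ) + 1) ^ q * len (v - w) *
            Wp q v := by ring
    rw [e]
    linarith

theorem dat_L {F : Vec d → ℝ} (hF : Slice (fun _ : Vec d => F))
    (hL : ∀ N : ℕ, ∃ L : ℝ, ∀ v w : Vec d, ‖v - w‖ ≤ 1 → (1 + ‖v‖) ^ N * |F v - F w| ≤ L * ‖v - w‖)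
    (B : ℕ → ℝ) : ∃ Γ₀ : ℝ, 0 ≤ Γ₀ ∧ ∀ δ > 0, ∃ ε > 0, ∀ G : Vec d → Vec d → ℝ, Slice G → DC B G →
      (∀ x v, |G x v - F v| ≤ ε) →
      ∀ x y v w : Vec d, G x v - G y w ≤
        δ * Wp (d + 12) v + Γ₀ * min 1 (len (v - w)) * Wp (d + 15) v := by
  obtain ⟨Γ₀, h0, h1⟩ := dat_q (d + 15) hF hL B
  refine ⟨Γ₀, h0, fun δ hδ => ?_⟩
  obtain ⟨ε, hε, h2⟩ := h1 δ hδ
  refine ⟨ε, hε, fun G hG hD hGF x y v w => ?_⟩
  have h3 := h2 G hG hD hGF x y v w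
  have h4 : Wp (d + 15) v ≤ Wp (d + 12) v := by
    unfold Wp
    have h5 : 1 ≤ 1 + nsq v := by linarith [sq_nonneg' v]
    exact inv_anti₀ (pow_pos (by linarith) _) (pow_le_pow_right₀ h5 (by omega))
  have h6 := mul_le_mul_of_nonneg_left h4 hδ.le
  linarith [add_mul δ (Γ₀ * min 1 (len (v - w))) (Wp (d + 15) v)]

end Pool.Agent.H37.LN
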