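import Pool.Agent.H37.LN.Defs
import Pool.Agent.H48.LN.Drf
import Pool.Agent.H48.LN.Nd
import Pool.Agent.H48.LN.Sec
import Pool.Agent.H48.LN.HsW
import Pool.Agent.H82.BK.Touch
import Pool.Agent.H25.Kin.Slice

/-!
# Module DecS: all decay constants from one bound

`drift` (H48/LN/Drf) with `p ≥ d+10`, `q = d+10`, `A = S`: there is `R_p` with `ctr g (Wp p) + cb g Wp p < 0` for `R_p ≤ len v`. Claim: `f t x v ≤ K_p Wp p v` on `[0,T)`, where `K_p > max (C(B)) (S (1+R_p²)^p)`, `f 0 ≤ C(B) Wp p` from `DC B` (`1 + nsq ≤ (d+1)(1+‖v‖)²`). First touching time of `f` with `K_p Wp p`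
(see `decL` of helper48, module H48/LN/DcL, or `prop0` in H15/NE0, or the generic `first_touch` lemma used there: continuity in time, decay at infinity, periodicity): at a touching point `(t₀,x₀,v₀)`, `t₀ > 0`, `len v₀ ≥ R_p` (for `len v₀ < R_p`, `f ≤ S Wp (d+10) ≤ S < K_p Wp p`), the spatial gradient vanishes,
`transport f ≥ 0`, but `landauQ (f t₀ x₀) v₀ = ctr f f + cb f f ≤ K_p (ctr f (Wp p) + cb f Wp p)(v₀) < 0` (`landau_nd`; `f t₀ x₀ - K_p Wp p` has a maximum `0` at `v₀`: `ctr_nonpos`, `ctr_sub`, `ctr_smul`). Contradiction. From `f ≤ K_p Wp p` for all `p` the constants `Cl N`: `(1+‖v‖)^N ≤ 2^N (1+nsq v)^N`.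
-/

set_option autoImplicit false

open MeasureTheory Set Filter Topology Pool.Agent.H25.Kin Pool.Agent.H48.PR

namespace Pool.Agent.H37.LN

variable {d : ℕ} {γ : ℝ}

private lemma DecS_len {v : Vec d} {R : ℝ} (h : len v < R) : nsq v ≤ R ^ 2 := by
  have h0 : 0 ≤ len v := Real.sqrt_nonneg _
  have h1 : len v ^ 2 = nsq v := Real.sq_sqrt (sq_nonneg' v)
  rw [← h1]
  exact pow_le_pow_left₀ h0 h.le 2

private lemma DecS_up (p : ℕ) (v : Vec d) : (1 + nsq v) ^ p ≤ ((d : ℝ) + 1) ^ p * (1 + ‖v‖) ^ (2 * p) := by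
  have hn := norm_nonneg v
  have h2 : 1 + nsq v ≤ ((d : ℝ) + 1) * (1 + ‖v‖) ^ 2 := by
    have h3 := sq_le v
    have h4 : (0 : ℝ) ≤ d := Nat.cast_nonneg _
    nlinarith [mul_nonneg h4 hn]
  rw [pow_mul, ← mul_pow]
  exact pow_le_pow_left₀ (by have := sq_nonneg' v; linarith) h2 p

private lemma DecS_dn (N p : ℕ) (h : N ≤ 2 * p) (v : Vec d) : (1 + ‖v‖) ^ N ≤ 2 ^ p * (1 + nsq v) ^ p := by
  have hn := norm_nonneg v
  have h1 : (1 + ‖v‖) ^ 2 ≤ 2 * (1 + nsq v) := by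
    have := norm_sq_le_sq v
    nlinarith [sq_nonneg (1 - ‖v‖)]
  calc (1 + ‖v‖) ^ N ≤ (1 + ‖v‖) ^ (2 * p) := pow_le_pow_right₀ (by linarith) h
    _ = ((1 + ‖v‖) ^ 2) ^ p := pow_mul _ _ _
    _ ≤ (2 * (1 + nsq v)) ^ p := pow_le_pow_left₀ (by positivity) h1 p
    _ = 2 ^ p * (1 + nsq v) ^ p := mul_pow _ _ _

/-- a derivative at a left maximum is nonnegative -/
private lemma DecS_left {h : ℝ → ℝ} {a δ : ℝ} (hδ : 0 < δ) (hd : HasDerivAt h a 0)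
    (hl : ∀ τ, -δ < τ → τ < 0 → h τ ≤ h 0) : 0 ≤ a := by
  have h1 := (hasDerivAt_iff_tendsto_slope.1 hd).mono_left
    (nhdsWithin_mono (0 : ℝ) (fun τ (hτ : τ < 0) => ne_of_lt hτ) : 𝓝[<] (0 : ℝ) ≤ 𝓝[≠] 0)
  refine ge_of_tendsto h1 ?_
  have h2 : Ioo (-δ) (0 : ℝ) ∈ 𝓝[<] (0 : ℝ) := Ioo_mem_nhdsLT (by linarith)
  filter_upwards [h2] with τ hτ
  rw [slope_def_field]
  have h3 := hl τ hτ.1 hτ.2
  have h4 : τ - 0 < 0 := by linarith [hτ.2]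
  exact div_nonneg_of_nonpos (by linarith) h4.le

private lemma DecS_key (hd : 2 ≤ d) (h1 : -2 < γ) (h2 : γ ≤ 0) {m : ℝ} (hm : 0 < m) (S : ℝ) (B : ℕ → ℝ)
    (p : ℕ) (hp : d ≤ p) :
    ∃ K : ℝ, ∀ (T : ℝ) (f : ℝ → Vec d → Vec d → ℝ), IsLandauSol γ T f → DC B (f 0) →
      (∀ t ∈ Ico 0 T, ∀ x, m ≤ ∫ v, f t x v) →
      (∀ t ∈ Ico 0 T, ∀ x v, f t x v ≤ S * Wp (d + 10) v) →
      ∀ t ∈ Ico 0 T, ∀ x v, f t x v * (1 + nsq v) ^ p < K := by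
  obtain ⟨c, hc, R, hdr⟩ := Pool.Agent.H48.LN.drift (d := d) (γ := γ) hd h1 h2 (p := p) (q := d + 10) hp
    (by omega) (|S|) hm
  have hS0 : 0 ≤ |S| := abs_nonneg S
  set C₀ : ℝ := ((d : ℝ) + 1) ^ p * |B (2 * p)| with hC₀
  have hC₀0 : 0 ≤ C₀ := by positivity
  set K : ℝ := 1 + C₀ + |S| * (1 + R ^ 2) ^ p with hK
  have hR0 : 0 ≤ |S| * (1 + R ^ 2) ^ p := by positivity
  have hK1 : 0 < K := by rw [hK]; linarith
  refine ⟨K, fun T f hf hB hmass hsup t ht x v => ?_⟩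
  have hf' : IsClassicalSol T (fun t x => landauQ γ (f t x)) f := hf
  by_contra hcon
  push Not at hcon
  have hT0 : 0 < T := ht.1.trans_lt ht.2
  have h0 : ∀ x v, f 0 x v * (1 + nsq v) ^ p < K := by
    intro x v
    have hf0 : 0 ≤ f 0 x v := hf'.nonneg 0 ⟨le_rfl, hT0⟩ x v
    have e1 : f 0 x v * (1 + nsq v) ^ p ≤ C₀ := by
      calc f 0 x v * (1 + nsq v) ^ p ≤ f 0 x v * (((d : ℝ) + 1) ^ p * (1 + ‖v‖) ^ (2 * p)) :=
            mul_le_mul_of_nonneg_left (DecS_up p v) hf0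
        _ = ((d : ℝ) + 1) ^ p * ((1 + ‖v‖) ^ (2 * p) * f 0 x v) := by ring
        _ ≤ ((d : ℝ) + 1) ^ p * |B (2 * p)| := by
            refine mul_le_mul_of_nonneg_left ((hB (2 * p) x v).trans (le_abs_self _)) (by positivity)
    rw [hK]
    linarith
  obtain ⟨t₀, ht₀, x₀, v₀, heq, hbelow, hle⟩ := Pool.Agent.H82.BK.first_touch hf' p ht.1 ht.2
    (B := fun _ => K) continuousOn_const (fun _ _ => hK1) h0 ⟨t, ⟨ht.1, le_rfl⟩, x, v, hcon⟩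
  have ht₀T : t₀ ∈ Ioo 0 T := ⟨ht₀.1, ht₀.2.trans_lt ht.2⟩
  have ht₀T' : t₀ ∈ Ico 0 T := ⟨ht₀T.1.le, ht₀T.2⟩
  have hg0 : ∀ v, 0 ≤ f t₀ x₀ v := fun v => hf'.nonneg t₀ ht₀T' x₀ v
  have hsupA : ∀ v, f t₀ x₀ v ≤ |S| * Wp (d + 10) v := fun v =>
    (hsup t₀ ht₀T' x₀ v).trans (mul_le_mul_of_nonneg_right (le_abs_self S) (Wp_pos _ v).le)
  have hnv : 0 ≤ nsq v₀ := sq_nonneg' v₀
  rcases lt_or_ge (len v₀) R with hlt | hge
  · have e1 := DecS_len hlt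
    have e2 : f t₀ x₀ v₀ ≤ |S| := by
      calc f t₀ x₀ v₀ ≤ |S| * Wp (d + 10) v₀ := hsupA v₀
        _ ≤ |S| * 1 := mul_le_mul_of_nonneg_left (Wp_le_one _ _) hS0
        _ = |S| := mul_one _
    have e3 : f t₀ x₀ v₀ * (1 + nsq v₀) ^ p ≤ |S| * (1 + R ^ 2) ^ p :=
      mul_le_mul e2 (pow_le_pow_left₀ (by linarith) (by linarith) p) (by positivity) hS0
    have e4 : f t₀ x₀ v₀ * (1 + nsq v₀) ^ p = K := heq
    rw [hK] at e4
    linarith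
  · have hnice : Nice (f t₀ x₀) := IsClassicalSol.nice hf' ht₀T x₀
    have hCW : Pool.Agent.H48.LN.CW (d + 10) (|S|) (f t₀ x₀) := by
      refine ⟨hnice.cont, fun v => ?_⟩
      rw [abs_of_nonneg (hg0 v)]
      exact hsupA v
    have hdrift := hdr (f t₀ x₀) hCW hg0 (hmass t₀ ht₀T' x₀) v₀ hge
    have hWp : 0 < Wp p v₀ := Wp_pos p v₀
    have hneg : Pool.Agent.H48.LN.ctr γ (f t₀ x₀) (Wp p) v₀ +
        Pool.Agent.H48.LN.cb γ (f t₀ x₀) v₀ * Wp p v₀ < 0 := by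
      refine lt_of_le_of_lt hdrift ?_
      have e1 : 0 < (1 + nsq v₀) ^ (γ / 2) := Real.rpow_pos_of_pos (by linarith) _
      have e2 : 0 < c * (1 + nsq v₀) ^ (γ / 2) * Wp p v₀ := by positivity
      linarith
    have hval : f t₀ x₀ v₀ = K * Wp p v₀ := by
      have e1 : f t₀ x₀ v₀ * (1 + nsq v₀) ^ p = K := heq
      have e2 := Wp_mul p v₀
      calc f t₀ x₀ v₀ = f t₀ x₀ v₀ * (Wp p v₀ * (1 + nsq v₀) ^ p) := by rw [e2, mul_one]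
        _ = (f t₀ x₀ v₀ * (1 + nsq v₀) ^ p) * Wp p v₀ := by ring
        _ = K * Wp p v₀ := by rw [e1]
    have hmax : ∀ w, f t₀ x₀ w - K * Wp p w ≤ f t₀ x₀ v₀ - K * Wp p v₀ := by
      intro w
      rw [hval, sub_self, sub_nonpos]
      have e1 : f t₀ x₀ w * (1 + nsq w) ^ p ≤ K := hle x₀ w
      have e2 := Wp_mul p w
      calc f t₀ x₀ w = f t₀ x₀ w * (Wp p w * (1 + nsq w) ^ p) := by rw [e2, mul_one]
        _ = (f t₀ x₀ w * (1 + nsq w) ^ p) * Wp p w := by ring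
        _ ≤ K * Wp p w := mul_le_mul_of_nonneg_right e1 (Wp_pos p w).le
    have hWs : ContDiff ℝ 2 (Wp p : Vec d → ℝ) := Pool.Agent.H48.LN.wp_smooth p
    have hKs : ContDiff ℝ 2 (fun w : Vec d => K * Wp p w) := contDiff_const.mul hWs
    have hsec := Pool.Agent.H48.LN.ctr_nonpos (γ := γ) h1 h2 hnice hg0
      (φ := fun w => f t₀ x₀ w - K * Wp p w) (hnice.smooth.sub hKs) (v := v₀) hmax
    rw [Pool.Agent.H48.LN.ctr_sub (γ := γ) (f t₀ x₀) hnice.smooth hKs v₀,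
      Pool.Agent.H48.LN.ctr_smul (γ := γ) (f t₀ x₀) hWs K v₀] at hsec
    have hQ : landauQ γ (f t₀ x₀) v₀ < 0 := by
      rw [Pool.Agent.H48.LN.landau_nd hd h1 h2 hnice v₀, hval]
      have e1 : K * (Pool.Agent.H48.LN.ctr γ (f t₀ x₀) (Wp p) v₀ +
        Pool.Agent.H48.LN.cb γ (f t₀ x₀) v₀ * Wp p v₀) < 0 := mul_neg_of_pos_of_neg hK1 hneg
      have e2 : Pool.Agent.H48.LN.ctr γ (f t₀ x₀) (f t₀ x₀) v₀ ≤
        K * Pool.Agent.H48.LN.ctr γ (f t₀ x₀) (Wp p) v₀ := by linarith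
      nlinarith
    have hder := Pool.Agent.H82.BK.char_deriv hf' ht₀T x₀ v₀
    have hnn := DecS_left (δ := t₀) ht₀T.1 hder (by
      intro τ h3 h4
      have e1 : f (t₀ + τ) (x₀ + τ • v₀) v₀ * (1 + nsq v₀) ^ p < K :=
        hbelow (t₀ + τ) ⟨by linarith, by linarith⟩ _ _
      have e3 := Wp_mul p v₀
      show f (t₀ + τ) (x₀ + τ • v₀) v₀ ≤ f (t₀ + 0) (x₀ + (0 : ℝ) • v₀) v₀
      rw [add_zero, zero_smul, add_zero, hval]
      calc f (t₀ + τ) (x₀ + τ • v₀) v₀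
          = f (t₀ + τ) (x₀ + τ • v₀) v₀ * (Wp p v₀ * (1 + nsq v₀) ^ p) := by rw [e3, mul_one]
        _ = (f (t₀ + τ) (x₀ + τ • v₀) v₀ * (1 + nsq v₀) ^ p) * Wp p v₀ := by ring
        _ ≤ K * Wp p v₀ := mul_le_mul_of_nonneg_right e1.le hWp.le)
    exact absurd hQ (not_lt.2 hnn)

theorem dec_S (hd : 2 ≤ d) (h1 : -2 < γ) (h2 : γ ≤ 0) {m : ℝ} (hm : 0 < m) (S : ℝ) (B : ℕ → ℝ) :
    ∃ Cl : ℕ → ℝ, ∀ (T : ℝ) (f : ℝ → Vec d → Vec d → ℝ), IsLandauSol γ T f → DC B (f 0) →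
      (∀ t ∈ Ico 0 T, ∀ x, m ≤ ∫ v, f t x v) →
      (∀ t ∈ Ico 0 T, ∀ x v, f t x v ≤ S * Wp (d + 10) v) → ∀ t ∈ Ico 0 T, DC Cl (f t) := by
  choose K hK using fun N : ℕ => DecS_key (d := d) (γ := γ) hd h1 h2 hm S B (N + d) (by omega)
  refine ⟨fun N => 2 ^ (N + d) * K N, fun T f hf hB hmass hsup t ht N x v => ?_⟩
  have hf' : IsClassicalSol T (fun t x => landauQ γ (f t x)) f := hf
  have e0 : 0 ≤ f t x v := hf'.nonneg t ht x v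
  have e1 := hK N T f hf hB hmass hsup t ht x v
  calc (1 + ‖v‖) ^ N * f t x v ≤ (2 ^ (N + d) * (1 + nsq v) ^ (N + d)) * f t x v :=
        mul_le_mul_of_nonneg_right (DecS_dn N (N + d) (by omega) v) e0
    _ = 2 ^ (N + d) * (f t x v * (1 + nsq v) ^ (N + d)) := by ring
    _ ≤ 2 ^ (N + d) * K N := mul_le_mul_of_nonneg_left e1.le (by positivity)

end Pool.Agent.H37.LN
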