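import Pool.Agent.H48.LN.Defs
import Pool.Agent.H48.LN.KMd
import Pool.Agent.H48.NE.Defs
import Pool.Agent.H15.AV.Defs

/-!
# Nearly homogeneous solutions of the Landau equation (MP_c15324_an, Q2): definitions

Master paper: team-store h37_landau.md. STATEMENT (`g_homL`, module Fin). `-2 < γ < 0`, `F(v) ≥ 0` rapidly decaying, weighted Lipschitz, not `0`, `B : ℕ → ℝ`. There are `ε > 0`, decay constants `U`, `m₁ > 0`: every classical solution `f`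
(no symmetry) on `[0,T)`, any `T`, with `(1+|v|)^N f(0) ≤ B_N` and `|f(0) - F| ≤ ε` satisfies `(1+|v|)^N f ≤ U_N` and has mass density `≥ m₁` on `[0,T)`.

PROOF. (1) Moments grow at most linearly in time, and their time averages are bounded uniformly (MoQ, MoT). (2) SUP: as long as the solution is nearly independent of `x`, `f ≤ S (1+1/t)^d Wp q`, `S` depends only on the
hydrodynamic bounds and on a bound of a high total moment (SupK, SupM; kinetic modulus). (3) On `[0,T₀]` (any `T₀`): decay constants (NsupL); the quasi Lipschitz propagation QH keeps the solution nearly independent of `x` on `[0,T₀]`.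
(4) On one of the windows `[3n,3n+3]`, `n < J`, the moments are bounded uniformly (independently of `J`) and the entropy dissipation is `≤ C/J`: there the solution is close to the Maxwellian (LateL). (5) `near_eqL` of helper48.
-/

set_option autoImplicit false

open MeasureTheory Set Filter Topology Pool.Agent.H25.Kin Pool.Agent.H48.PR

namespace Pool.Agent.H37.LN

variable {d : ℕ}

/-- nearly independent of `x` -/
def NH (κ : ℝ) (F : Vec d → Vec d → ℝ) : Prop := ∀ x y v : Vec d, |F x v - F y v| ≤ κ * Wp (d + 10) v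

/-- decay constants -/
def DC (Cl : ℕ → ℝ) (F : Vec d → Vec d → ℝ) : Prop :=
  ∀ (N : ℕ) (x v : Vec d), (1 + ‖v‖) ^ N * F x v ≤ Cl N

/-- `∫ g (1+|v|²)^j` -/
noncomputable def JM (j : ℕ) (g : Vec d → ℝ) : ℝ := ∫ v, g v * (1 + nsq v) ^ j

/-- the total moment `∫∫ F (1+|v|²)^j` -/
noncomputable def mo (j : ℕ) (F : Vec d → Vec d → ℝ) : ℝ := ∫ q, F q.2 q.1 * (1 + nsq q.1) ^ j ∂(nu d)

/-- the kernel of the weak form with `φ = (1+|v|²)^(i+2)`: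
`2(i+2) |z|^γ ((d-1)|z|² A(v) + 2(i+1)(1+|v|²)^i (|v|²|w|² - (v·w)²) - (d-1) z·(A(v) v - A(w) w))`, `A(v) = (1+|v|²)^(i+1)`, `z = v - w` -/
noncomputable def Ph (γ : ℝ) (i : ℕ) (v w : Vec d) : ℝ :=
  2 * ((i : ℝ) + 2) * nsq (v - w) ^ (γ / 2) *
    (((d : ℝ) - 1) * nsq (v - w) * (1 + nsq v) ^ (i + 1) +
      2 * ((i : ℝ) + 1) * (1 + nsq v) ^ i * (nsq v * nsq w - dot v w ^ 2) -
      ((d : ℝ) - 1) * (dot (v - w) v * (1 + nsq v) ^ (i + 1) - dot (v - w) w * (1 + nsq w) ^ (i + 1)))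

/-- the entropy dissipation `-∫ Q(G) log G` of `G = g + δ gau` -/
noncomputable def DL (γ δ : ℝ) (g : Vec d → ℝ) : ℝ :=
  -∫ v, landauQ γ (fun v => g v + δ * Pool.Agent.H15.AV.gau v) v *
    Real.log (g v + δ * Pool.Agent.H15.AV.gau v)

/-- differences of the moments of `g` and of the Maxwellian `μ` -/
noncomputable def md (g μ : Vec d → ℝ) : ℝ :=
  |(∫ v, g v) - ∫ v, μ v| + (∑ i, |(∫ v, g v * v i) - ∫ v, μ v * v i|) +
    |(∫ v, g v * nsq v) - ∫ v, μ v * nsq v|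

/-- differences of the total mass, momentum, energy of `F` and of `μ` -/
noncomputable def mdT (F : Vec d → Vec d → ℝ) (μ : Vec d → ℝ) : ℝ :=
  |(∫ q, F q.2 q.1 ∂(nu d)) - ∫ v, μ v| +
    (∑ i, |(∫ q, F q.2 q.1 * q.1 i ∂(nu d)) - ∫ v, μ v * v i|) +
    |(∫ q, F q.2 q.1 * nsq q.1 ∂(nu d)) - ∫ v, μ v * nsq v|

/-- INTERFACE (short time decay): decay constants on a short time interval -/
def PrpL (d : ℕ) (γ : ℝ) : Prop := ∀ B : ℕ → ℝ, ∃ θ > 0, ∃ U : ℕ → ℝ,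
  ∀ (T : ℝ) (f : ℝ → Vec d → Vec d → ℝ), IsLandauSol γ T f → DC B (f 0) →
    ∀ t ∈ Ico 0 T, t < θ → DC U (f t)

/-- INTERFACE (entropy production of one slice) -/
def SliceL (d : ℕ) (γ : ℝ) : Prop := ∀ (a k : ℝ), 0 < a → 0 < k → ∀ (u : Vec d) (S m ε : ℝ), 0 < m → 0 < ε →
  ∃ ε₁ > 0, ∃ ι > 0, ∃ δ₀ > 0, ∀ δ ∈ Ioc (0 : ℝ) δ₀, ∀ g : Vec d → ℝ, Nice g → (∀ v, 0 ≤ g v) →
    (∀ v, g v ≤ S * Wp (d + 10) v) → m ≤ ∫ v, g v → md g (Pool.Agent.H48.NE.mx a k u) ≤ ι → DL γ δ g ≤ ε₁ →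
    ∫ v, |g v - Pool.Agent.H48.NE.mx a k u v| ≤ ε

/-- INTERFACE (entropy inequality with dissipation along a solution) -/
def EntL (d : ℕ) (γ : ℝ) : Prop := ∀ (a k : ℝ), 0 < a → 0 < k → ∀ (u : Vec d) (T : ℝ)
  (f : ℝ → Vec d → Vec d → ℝ), IsLandauSol γ T f → ∀ t₁ t₂ : ℝ, 0 < t₁ → t₁ < t₂ → t₂ < T → ∀ η > 0,
  ∃ δ₁ > 0, ∀ δ ∈ Ioc (0 : ℝ) δ₁, (∀ t ∈ Icc t₁ t₂, ∀ x, 0 ≤ DL γ δ (f t x)) ∧
    (∀ t ∈ Icc t₁ t₂, Integrable (fun x => DL γ δ (f t x)) (muD d)) ∧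
    IntervalIntegrable (fun t => ∫ x, DL γ δ (f t x) ∂(muD d)) volume t₁ t₂ ∧
    ∫ t in t₁..t₂, ∫ x, DL γ δ (f t x) ∂(muD d) ≤
      Pool.Agent.H48.NE.RE a k u (f t₁) - Pool.Agent.H48.NE.RE a k u (f t₂) + η

/-- INTERFACE (quasi Lipschitz propagation) -/
def QHL (d : ℕ) (γ : ℝ) : Prop :=
  ∀ (Cl : ℕ → ℝ) (m N : ℝ), 0 < m → ∀ T₀ Γ₀ : ℝ, ∃ K : ℝ, 0 ≤ K ∧
    ∀ δ ∈ Ioc (0 : ℝ) 1, ∀ T ≤ T₀, ∀ f : ℝ → Vec d → Vec d → ℝ, IsLandauSol γ T f →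
      (∀ t ∈ Ico 0 T, DC Cl (f t)) → (∀ t ∈ Ico 0 T, ∀ x, Pool.Agent.H15.AV.Good m N (f t x)) →
      (∀ x y v w : Vec d, f 0 x v - f 0 y w ≤
        δ * Wp (d + 12) v + Γ₀ * min 1 (len (v - w)) * Wp (d + 15) v) →
      ∀ t ∈ Ico 0 T, ∀ x y v : Vec d, |f t x v - f t y v| ≤ K * δ * Wp (d + 12) v

end Pool.Agent.H37.LN
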