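import Pool.Agent.H37.LN.MainL
import Pool.Agent.H48.LV.Defs
import Pool.Agent.H15.KM.KMd

/-!
# Module FinL: the theorem on nearly homogeneous solutions of the Landau equation in the form `GHomL`
-/

set_option autoImplicit false

open MeasureTheory Set Filter Topology Pool.Agent.H25.Kin Pool.Agent.H48.PR
open Pool.Agent.H15.AV (Slice)
open Pool.Agent.H48.LV (HDat GHomL)

namespace Pool.Agent.H37.LN

variable {d : ℕ} {γ : ℝ}

private lemma finL_slice {F : Vec d → ℝ} (hF : HDat F) : Slice (fun _ : Vec d => F) := by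
  refine ⟨fun _ v => hF.nn v, fun _ _ _ => rfl, ?_, fun N => ?_⟩
  · have hc : Continuous F := by
      obtain ⟨C, hC⟩ := hF.lip 0
      rw [continuous_iff_continuousAt]
      intro v
      rw [Metric.continuousAt_iff]
      intro e he
      refine ⟨min 1 (e / (|C| + 1)), by positivity, fun w hw => ?_⟩
      have h1 : ‖w - v‖ < 1 := by
        rw [← dist_eq_norm]
        exact hw.trans_le (min_le_left _ _)
      have h2 : ‖w - v‖ < e / (|C| + 1) := by
        rw [← dist_eq_norm]
        exact hw.trans_le (min_le_right _ _)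
      have h3 := hC w v h1.le
      rw [pow_zero, one_mul] at h3
      have h4 := le_abs_self C
      have h5 := norm_nonneg (w - v)
      rw [lt_div_iff₀ (by positivity)] at h2
      rw [Real.dist_eq]
      nlinarith
    exact hc.comp continuous_snd
  · obtain ⟨C, hC⟩ := hF.dec N
    exact ⟨C, fun _ v => hC v⟩

theorem g_homL (hP : PrpL d γ) (hSl : SliceL d γ) (hE : EntL d γ) (hQ : QHL d γ)
    (hd : 2 ≤ d) (h1 : -2 < γ) (h2 : γ < 0) : GHomL d γ := fun F hF B =>
  g_coreL (Pool.Agent.H15.KM.kmod_all d) hP hSl hE hQ hd h1 h2 (finL_slice hF) hF.pos hF.lip B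

end Pool.Agent.H37.LN
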