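import Pool.Agent.H37.LN.Defs

/-!
# Module GoodX: hydrodynamic bounds at every position

`muD d` is a probability measure (`muD_univ`), `nu d = volume.prod (muD d)`. For a slice `F` with `NH κ F`: `|∫ F x v φ(v) dv - ∫∫ F φ| ≤ κ ∫ Wp (d+10) φ` for `φ = 1`, `φ = nsq` (finite; integrability of `Wp (d+10) * nsq`: compare with `wt`, see `MdN_key` in H37/GH/MdN.lean). Entropy: `β(s) = s log s`. For
`0 ≤ b ≤ a ≤ K'` (`K' = max K 1`): `|β(a) - β(b)| ≤ (1 + log K') (a-b) + 2 √(a-b) ≤ C_K √(a-b)`, because `β' = 1 + log s` and `|log s| ≤ s^(-1/2)` for `s ≤ 1` (`|log s| ≤ log K'` for `1 ≤ s ≤ K'`), `∫_b^a s^(-1/2) ds = 2(√a - √b) ≤ 2√(a-b)`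
(alternatively: `β(a) - β(b)` by concavity/monotonicity, or compare the functions `s ↦ 2√s ± β(s) + ...` by the sign of the derivative). So `|∫ β(F x) - ∫ β(F y)| ≤ C_K √κ ∫ √(Wp (d+10) v) dv`, finite since `√(Wp (d+10)) = (1+nsq)^(-(d+10)/2) ≤ C wt`-like. Average over `y`. Choose `κ₀` so that the mass
changes by less than `m/2` and `1`, the energy and the entropy by less than `1`.
-/

set_option autoImplicit false

open MeasureTheory Set Filter Topology Pool.Agent.H25.Kin Pool.Agent.H48.PR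
open Pool.Agent.H15.AV (Good Slice)

namespace Pool.Agent.H37.LN

variable {d : ℕ}

private lemma GoodX_wt {q : ℕ} (hq : d + 1 ≤ 2 * q) (z : Vec d) : Wp q z ≤ 2 ^ q * wt d z := by
  have h := sq_nonneg' z
  have h1 := one_le_w z
  have h2 : (1 + ‖z‖) ^ (d + 1) ≤ 2 ^ q * (1 + nsq z) ^ q := by
    calc (1 + ‖z‖) ^ (d + 1) ≤ (1 + ‖z‖) ^ (2 * q) := pow_le_pow_right₀ h1 hq
      _ = ((1 + ‖z‖) ^ 2) ^ q := pow_mul _ _ _
      _ ≤ (2 * (1 + nsq z)) ^ q := pow_le_pow_left₀ (by positivity) (Pool.Agent.H82.BK.norm_le_nsq z) q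
      _ = 2 ^ q * (1 + nsq z) ^ q := mul_pow _ _ _
  unfold Wp wt
  have h3 : 0 < (1 + nsq z) ^ q := by positivity
  have h4 : 0 < (1 + ‖z‖) ^ (d + 1) := by positivity
  rw [← div_eq_mul_inv, inv_eq_one_div, div_le_div_iff₀ h3 h4, one_mul]
  exact h2

private lemma GoodX_sqrt (v : Vec d) : √(Wp (d + 10) v) ≤ 2 ^ (d + 1) * wt d v := by
  have hwt := wt_nonneg v
  rw [Real.sqrt_le_left (by positivity)]
  have h := sq_nonneg' v
  have h1 : (1 : ℝ) ≤ 1 + nsq v := by linarith
  have h3 : 0 < (1 + nsq v) ^ (d + 1) := by positivity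
  have h4 : 0 < (1 + ‖v‖) ^ (d + 1) := pow_pos (w_pos v) _
  have h5 : Wp (d + 10) v ≤ ((1 + nsq v) ^ (d + 1))⁻¹ := by
    unfold Wp
    exact inv_anti₀ h3 (pow_le_pow_right₀ h1 (by omega))
  have h6 : ((1 + ‖v‖) ^ (d + 1)) ^ 2 ≤ 2 ^ (d + 1) * (1 + nsq v) ^ (d + 1) := by
    rw [← pow_mul, mul_comm (d + 1) 2, pow_mul, ← mul_pow]
    exact pow_le_pow_left₀ (by positivity) (Pool.Agent.H82.BK.norm_le_nsq v) _
  have h7 : (1 : ℝ) ≤ 2 ^ (d + 1) := one_le_pow₀ (by norm_num)
  refine h5.trans ?_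
  unfold wt
  rw [mul_pow, inv_pow, ← div_eq_mul_inv, inv_eq_one_div, div_le_div_iff₀ h3 (by positivity), one_mul]
  refine h6.trans (mul_le_mul_of_nonneg_right ?_ h3.le)
  nlinarith

private lemma GoodX_mul_log {F : ℝ} (hF : 0 ≤ F) : |F * Real.log F| ≤ 2 * √F + F ^ 2 := by
  rcases hF.eq_or_lt with h | h
  · rw [← h]; simp
  · have hs : 0 < √F := Real.sqrt_pos.2 h
    have e4 : √F ^ 2 = F := Real.sq_sqrt h.le
    rcases le_or_gt 1 F with h1 | h1
    · have l1 : Real.log F ≤ F - 1 := Real.log_le_sub_one_of_pos h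
      have l2 : 0 ≤ Real.log F := Real.log_nonneg h1
      rw [abs_of_nonneg (mul_nonneg hF l2)]
      nlinarith
    · have l1 : Real.log F ≤ 0 := Real.log_nonpos hF h1.le
      have e1 : Real.log F = 2 * Real.log √F := by
        rw [Real.log_sqrt h.le]; ring
      have l2 : Real.log (1 / √F) ≤ 1 / √F - 1 := Real.log_le_sub_one_of_pos (by positivity)
      rw [one_div, Real.log_inv, ← one_div] at l2
      have l3 : F * (1 / √F) = √F := by
        have : F * (1 / √F) = √F ^ 2 * (1 / √F) := by rw [e4]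
        rw [this]
        field_simp
      have l4 := mul_le_mul_of_nonneg_left l2 h.le
      rw [mul_sub, l3, mul_one] at l4
      rw [abs_of_nonpos (mul_nonpos_of_nonneg_of_nonpos hF l1), e1]
      nlinarith [sq_nonneg F]

private lemma GoodX_up {M a b : ℝ} (hM : 1 ≤ M) (hb : 0 ≤ b) (haM : a ≤ M) (h : b ≤ a) :
    a * Real.log a - b * Real.log b ≤ (1 + M) * (a - b) := by
  rcases (hb.trans h).eq_or_lt with h0 | h0
  · have : b = 0 := le_antisymm (h.trans h0.symm.le) hb
    rw [← h0, this]; simp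
  have hl : Real.log a ≤ M := by
    have := Real.log_le_sub_one_of_pos h0
    linarith
  have h2 : a * Real.log a - b * Real.log b ≤ (1 + Real.log a) * (a - b) := by
    rcases hb.eq_or_lt with h1 | h1
    · rw [← h1]
      simp only [zero_mul, sub_zero]
      nlinarith
    · have e1 : Real.log (a / b) ≤ a / b - 1 := Real.log_le_sub_one_of_pos (div_pos h0 h1)
      rw [Real.log_div h0.ne' h1.ne'] at e1
      have e2 : b * (Real.log a - Real.log b) ≤ b * (a / b - 1) := mul_le_mul_of_nonneg_left e1 hb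
      have e3 : b * (a / b - 1) = a - b := by field_simp
      nlinarith
  refine h2.trans (mul_le_mul_of_nonneg_right (by linarith) (by linarith))

private lemma GoodX_low {a b : ℝ} (hb : 0 ≤ b) (h : b ≤ a) :
    (a - b) * Real.log (a - b) ≤ a * Real.log a - b * Real.log b := by
  rcases hb.eq_or_lt with h1 | h1
  · rw [← h1]; simp
  rcases h.eq_or_lt with h2 | h2
  · rw [h2]; simp
  have e1 : Real.log b ≤ Real.log a := Real.log_le_log h1 h
  have e2 : Real.log (a - b) ≤ Real.log a := Real.log_le_log (by linarith) (by linarith)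
  have e3 := mul_le_mul_of_nonneg_left e1 hb
  have e4 := mul_le_mul_of_nonneg_left e2 (sub_nonneg.2 h)
  nlinarith

private lemma GoodX_bet {M a b : ℝ} (hM : 1 ≤ M) (hb : 0 ≤ b) (haM : a ≤ M) (h : b ≤ a) :
    |a * Real.log a - b * Real.log b| ≤ ((1 + M) * M + 2 + M ^ 2) * √(a - b) := by
  have hd : 0 ≤ a - b := by linarith
  have h1 := GoodX_up hM hb haM h
  have h2 := GoodX_low hb h
  have h3 := GoodX_mul_log hd
  generalize hδ : a - b = δ at *
  have hs := Real.sqrt_nonneg δ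
  have e : √δ ^ 2 = δ := Real.sq_sqrt hd
  have hδM : δ ≤ M := by linarith
  have hsM : √δ ≤ M := by
    rw [Real.sqrt_le_left (by linarith)]
    nlinarith
  generalize √δ = s at *
  have k1 : δ ≤ M * s := by rw [← e]; nlinarith
  have k2 : δ ^ 2 ≤ M ^ 2 * s := by
    have : δ ^ 2 ≤ M * δ := by nlinarith
    nlinarith
  have k3 : (1 + M) * δ ≤ (1 + M) * M * s := by nlinarith
  have k4 : 0 ≤ (1 + M) * M * s := by positivity
  have k5 : 0 ≤ M ^ 2 * s := by positivity
  rw [abs_le] at h3 ⊢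
  constructor <;> nlinarith

/-- the function `s log s` on `[0,M]` -/
private lemma GoodX_beta {M a b : ℝ} (hM : 1 ≤ M) (ha : 0 ≤ a) (hb : 0 ≤ b) (haM : a ≤ M)
    (hbM : b ≤ M) :
    |a * Real.log a - b * Real.log b| ≤ ((1 + M) * M + 2 + M ^ 2) * √|a - b| := by
  rcases le_total b a with h | h
  · rw [abs_of_nonneg (sub_nonneg.2 h)]
    exact GoodX_bet hM hb haM h
  · rw [abs_sub_comm, abs_sub_comm a b, abs_of_nonneg (sub_nonneg.2 h)]
    exact GoodX_bet hM ha hbM h

private lemma GoodX_muD : (muD d).real univ = 1 := by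
  unfold muD Measure.real
  rw [Measure.restrict_apply_univ, Real.volume_Icc_pi]
  simp

private lemma GoodX_cmp {h : Vec d × Vec d → ℝ} {g : Vec d → ℝ} {E : ℝ} (hi : Integrable h (nu d))
    (gi : Integrable g) (hE : ∀ q, |g q.1 - h q| ≤ E * wt d q.1) :
    |(∫ v, g v) - ∫ q, h q ∂(nu d)| ≤ E * ∫ v, wt d v := by
  have e1 : ∫ q, g q.1 ∂(nu d) = ∫ v, g v := by
    unfold nu
    rw [integral_fun_fst, GoodX_muD, one_smul]
  have e2 : ∫ q, E * wt d q.1 ∂(nu d) = E * ∫ v, wt d v := by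
    rw [integral_const_mul]
    congr 1
    unfold nu
    rw [integral_fun_fst, GoodX_muD, one_smul]
  have i1 : Integrable (fun q : Vec d × Vec d => g q.1) (nu d) := gi.comp_fst (muD d)
  have i2 : Integrable (fun q : Vec d × Vec d => E * wt d q.1) (nu d) :=
    ((integrable_wt (d := d)).comp_fst (muD d)).const_mul E
  rw [← e1, ← e2, ← integral_sub i1 hi, ← Real.norm_eq_abs]
  exact norm_integral_le_of_norm_le i2 (Eventually.of_forall hE)

theorem good_x {m : ℝ} (hm : 0 < m) (N K : ℝ) : ∃ κ₀ > 0, ∀ F : Vec d → Vec d → ℝ, Slice F → NH κ₀ F →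
    (∀ x v, F x v ≤ K * Wp (d + 10) v) → m ≤ ∫ q, F q.2 q.1 ∂(nu d) → ∫ q, F q.2 q.1 ∂(nu d) ≤ N →
    ∫ q, F q.2 q.1 * nsq q.1 ∂(nu d) ≤ N → ∫ q, F q.2 q.1 * Real.log (F q.2 q.1) ∂(nu d) ≤ N →
    ∀ x, Good (m / 2) (N + 1) (F x) := by
  set M := max K 1 with hMdef
  have hM1 : 1 ≤ M := le_max_right _ _
  have hKM : K ≤ M := le_max_left _ _
  obtain ⟨W, hW, hWd⟩ : ∃ W : ℝ, 0 ≤ W ∧ ∫ v, wt d v = W := ⟨_, integral_nonneg fun v => wt_nonneg v, rfl⟩
  set CK := (1 + M) * M + 2 + M ^ 2 with hCK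
  have hCK0 : 0 < CK := by positivity
  set E := 2 ^ (d + 10) + CK * 2 ^ (d + 1) with hE
  have hE0 : 0 < E := by positivity
  set τ := min 1 (min (m / 2) 1 / (E * (W + 1))) with hτ
  have hτ0 : 0 < τ := lt_min one_pos (div_pos (lt_min (by linarith) one_pos) (by positivity))
  have hτ1 : τ ≤ 1 := min_le_left _ _
  have hτ2 : τ * E * W ≤ min (m / 2) 1 := by
    have h1 : τ * (E * (W + 1)) ≤ min (m / 2) 1 := by
      rw [← le_div_iff₀ (by positivity)]
      exact min_le_right _ _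
    have h2 : 0 ≤ τ * E := by positivity
    nlinarith
  refine ⟨τ ^ 2, by positivity, fun F hF hN hK hm1 hN1 hN2 hN3 x => ?_⟩
  have hWp1 : ∀ v : Vec d, Wp (d + 10) v ≤ 1 := Wp_le_one _
  have hFM : ∀ y v, F y v ≤ M := by
    intro y v
    have h1 := hK y v
    have h2 := Wp_pos (d + 10) v
    have h3 : K * Wp (d + 10) v ≤ M * Wp (d + 10) v := mul_le_mul_of_nonneg_right hKM h2.le
    have h4 : M * Wp (d + 10) v ≤ M * 1 := mul_le_mul_of_nonneg_left (hWp1 v) (by linarith)
    linarith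
  have hFw : ∀ y v, F y v ≤ M * (2 ^ (d + 10) * wt d v) := by
    intro y v
    have h1 := hK y v
    have h2 := Wp_pos (d + 10) v
    have h3 : K * Wp (d + 10) v ≤ M * Wp (d + 10) v := mul_le_mul_of_nonneg_right hKM h2.le
    have h4 := mul_le_mul_of_nonneg_left (GoodX_wt (q := d + 10) (by omega) v)
      (by linarith : (0 : ℝ) ≤ M)
    linarith
  have hnw : ∀ v : Vec d, nsq v * Wp (d + 10) v ≤ 2 ^ (d + 9) * wt d v := by
    intro v
    have h0 := sq_nonneg' v
    have h1 : nsq v * Wp (d + 10) v ≤ Wp (d + 9) v := by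
      have h2 : Wp (d + 9) v = (1 + nsq v) * Wp (d + 10) v := by
        unfold Wp
        have h3 : (1 + nsq v) ≠ 0 := by positivity
        rw [show d + 10 = (d + 9) + 1 from rfl, pow_succ (1 + nsq v) (d + 9)]
        field_simp
      rw [h2]
      exact mul_le_mul_of_nonneg_right (by linarith) (Wp_pos _ _).le
    exact h1.trans (GoodX_wt (by omega) v)
  have hc : Continuous fun q : Vec d × Vec d => F q.2 q.1 :=
    hF.cont.comp (continuous_snd.prodMk continuous_fst)
  have hcx : Continuous (F x) := hF.cont.comp (by fun_prop : Continuous fun v : Vec d => (x, v))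
  have hnc : Continuous (nsq : Vec d → ℝ) := by
    unfold nsq
    fun_prop
  have h2p : (2 : ℝ) ^ (d + 9) ≤ 2 ^ (d + 10) := pow_le_pow_right₀ (by norm_num) (by omega)
  have hττ : τ ^ 2 ≤ τ := by nlinarith
  -- mass
  have a1 : |(∫ v, F x v) - ∫ q, F q.2 q.1 ∂(nu d)| ≤ τ * E * W := by
    rw [← hWd]
    refine GoodX_cmp (integrable_nu (C := M * 2 ^ (d + 10)) hc.aestronglyMeasurable fun q => ?_)
      ((integrable_wt.const_mul (M * 2 ^ (d + 10))).mono' hcx.aestronglyMeasurable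
        (Eventually.of_forall fun v => ?_)) fun q => ?_
    · rw [abs_of_nonneg (hF.nonneg _ _), mul_assoc]
      exact hFw _ _
    · rw [Real.norm_eq_abs, abs_of_nonneg (hF.nonneg _ _), mul_assoc]
      exact hFw _ _
    · have h1 := hN x q.2 q.1
      have h2 := GoodX_wt (q := d + 10) (by omega) q.1
      have h3 := wt_nonneg q.1
      have h4 : τ ^ 2 * Wp (d + 10) q.1 ≤ τ * (2 ^ (d + 10) * wt d q.1) :=
        mul_le_mul hττ h2 (Wp_pos _ _).le hτ0.le
      have h5 : τ * (2 ^ (d + 10) * wt d q.1) ≤ τ * E * wt d q.1 := by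
        rw [← mul_assoc]
        refine mul_le_mul_of_nonneg_right (mul_le_mul_of_nonneg_left ?_ hτ0.le) h3
        rw [hE]
        have : 0 ≤ CK * 2 ^ (d + 1) := by positivity
        linarith
      exact (h1.trans h4).trans h5
  -- energy
  have a2 : |(∫ v, F x v * nsq v) - ∫ q, F q.2 q.1 * nsq q.1 ∂(nu d)| ≤ τ * E * W := by
    have hb : ∀ y v, F y v * nsq v ≤ M * 2 ^ (d + 9) * wt d v := by
      intro y v
      have h0 := sq_nonneg' v
      have h1 := hK y v
      have h3 : K * Wp (d + 10) v ≤ M * Wp (d + 10) v :=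
        mul_le_mul_of_nonneg_right hKM (Wp_pos _ _).le
      have h4 : F y v * nsq v ≤ M * Wp (d + 10) v * nsq v :=
        mul_le_mul_of_nonneg_right (h1.trans h3) h0
      have h5 := mul_le_mul_of_nonneg_left (hnw v) (by linarith : (0 : ℝ) ≤ M)
      nlinarith
    rw [← hWd]
    refine GoodX_cmp (integrable_nu (C := M * 2 ^ (d + 9))
      (hc.mul (hnc.comp continuous_fst)).aestronglyMeasurable fun q => ?_)
      ((integrable_wt.const_mul (M * 2 ^ (d + 9))).mono' (hcx.mul hnc).aestronglyMeasurable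
        (Eventually.of_forall fun v => ?_)) fun q => ?_
    · rw [abs_of_nonneg (mul_nonneg (hF.nonneg _ _) (sq_nonneg' _))]
      exact hb _ _
    · rw [Real.norm_eq_abs, abs_of_nonneg (mul_nonneg (hF.nonneg _ _) (sq_nonneg' _))]
      exact hb _ _
    · have h1 := hN x q.2 q.1
      have h0 := sq_nonneg' q.1
      have h3 := wt_nonneg q.1
      rw [← sub_mul, abs_mul, abs_of_nonneg h0]
      have h4 : |F x q.1 - F q.2 q.1| * nsq q.1 ≤ τ ^ 2 * Wp (d + 10) q.1 * nsq q.1 :=
        mul_le_mul_of_nonneg_right h1 h0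
      have h5 : τ ^ 2 * (nsq q.1 * Wp (d + 10) q.1) ≤ τ * (2 ^ (d + 9) * wt d q.1) :=
        mul_le_mul hττ (hnw _) (mul_nonneg h0 (Wp_pos _ _).le) hτ0.le
      have h6 : τ * (2 ^ (d + 9) * wt d q.1) ≤ τ * E * wt d q.1 := by
        rw [← mul_assoc]
        refine mul_le_mul_of_nonneg_right (mul_le_mul_of_nonneg_left ?_ hτ0.le) h3
        rw [hE]
        have : 0 ≤ CK * 2 ^ (d + 1) := by positivity
        linarith
      have h7 : τ ^ 2 * Wp (d + 10) q.1 * nsq q.1 = τ ^ 2 * (nsq q.1 * Wp (d + 10) q.1) := by ring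
      linarith
  -- entropy
  have a3 : |(∫ v, F x v * Real.log (F x v)) -
      ∫ q, F q.2 q.1 * Real.log (F q.2 q.1) ∂(nu d)| ≤ τ * E * W := by
    have hb : ∀ y v, |F y v * Real.log (F y v)| ≤ CK * M * 2 ^ (d + 1) * wt d v := by
      intro y v
      have h1 := GoodX_beta hM1 (hF.nonneg y v) le_rfl (hFM y v) (by linarith)
      simp only [zero_mul, sub_zero] at h1
      rw [abs_of_nonneg (hF.nonneg y v)] at h1
      have h2 : √(F y v) ≤ M * √(Wp (d + 10) v) := by
        have h3 : F y v ≤ M ^ 2 * Wp (d + 10) v := by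
          have h4 := hK y v
          have h5 : K ≤ M ^ 2 := by nlinarith
          have h6 := mul_le_mul_of_nonneg_right h5 (Wp_pos (d + 10) v).le
          linarith
        calc √(F y v) ≤ √(M ^ 2 * Wp (d + 10) v) := Real.sqrt_le_sqrt h3
          _ = M * √(Wp (d + 10) v) := by
              rw [Real.sqrt_mul (by positivity), Real.sqrt_sq (by linarith)]
      have h3 := GoodX_sqrt v
      have h4 : M * √(Wp (d + 10) v) ≤ M * (2 ^ (d + 1) * wt d v) :=
        mul_le_mul_of_nonneg_left h3 (by linarith)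
      have h5 := mul_le_mul_of_nonneg_left (h2.trans h4) hCK0.le
      have h6 : CK * (M * (2 ^ (d + 1) * wt d v)) = CK * M * 2 ^ (d + 1) * wt d v := by ring
      linarith
    have hbc := Real.continuous_mul_log
    rw [← hWd]
    refine GoodX_cmp (integrable_nu (C := CK * M * 2 ^ (d + 1))
      (hbc.comp hc).aestronglyMeasurable fun q => hb _ _)
      ((integrable_wt.const_mul (CK * M * 2 ^ (d + 1))).mono' (hbc.comp hcx).aestronglyMeasurable
        (Eventually.of_forall fun v => ?_)) fun q => ?_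
    · rw [Real.norm_eq_abs]
      exact hb _ _
    · have h1 := GoodX_beta hM1 (hF.nonneg x q.1) (hF.nonneg q.2 q.1) (hFM x q.1) (hFM q.2 q.1)
      have h2 : √|F x q.1 - F q.2 q.1| ≤ τ * √(Wp (d + 10) q.1) := by
        calc √|F x q.1 - F q.2 q.1| ≤ √(τ ^ 2 * Wp (d + 10) q.1) :=
              Real.sqrt_le_sqrt (hN x q.2 q.1)
          _ = τ * √(Wp (d + 10) q.1) := by
              rw [Real.sqrt_mul (by positivity), Real.sqrt_sq hτ0.le]
      have h3 := GoodX_sqrt q.1
      have h4 : τ * √(Wp (d + 10) q.1) ≤ τ * (2 ^ (d + 1) * wt d q.1) :=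
        mul_le_mul_of_nonneg_left h3 hτ0.le
      have h5 := mul_le_mul_of_nonneg_left (h2.trans h4) hCK0.le
      have h6 : CK * (τ * (2 ^ (d + 1) * wt d q.1)) ≤ τ * E * wt d q.1 := by
        have h7 : CK * (τ * (2 ^ (d + 1) * wt d q.1)) = τ * (CK * 2 ^ (d + 1)) * wt d q.1 := by ring
        rw [h7]
        refine mul_le_mul_of_nonneg_right (mul_le_mul_of_nonneg_left ?_ hτ0.le) (wt_nonneg _)
        rw [hE]
        have : (0 : ℝ) ≤ 2 ^ (d + 10) := by positivity
        linarith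
      exact (h1.trans h5).trans h6
  have m1 : τ * E * W ≤ m / 2 := hτ2.trans (min_le_left _ _)
  have m2 : τ * E * W ≤ 1 := hτ2.trans (min_le_right _ _)
  rw [abs_le] at a1 a2 a3
  exact ⟨by linarith, by linarith, by linarith, by linarith⟩

end Pool.Agent.H37.LN
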