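import Pool.Agent.H37.LN.Defs
import Pool.Agent.H48.NE.ReB

/-!
# Module IniB: bounds of the initial value

`F` a slice with `DC B F`. (1) `F x v (1+nsq v)^k ≤ (d+1)^k (1+‖v‖)^(2k) F ≤ (d+1)^k B (2k+d+1) wt d v`-like: `mo k F ≤ C`. (2) mass, energy: the same. (3) `s log s ≤ s²` for `s ≥ 0` (`log s ≤ s`), so the entropy is `≤ ∫∫ F² ≤ C`. (4) `RE a k u F ≤ C`: `log (mx) = log a - k nsq (v-u)`, so `RE = ∫∫ (F log F - F log mx - F + mx) ≤ ∫∫ (F² + F (|log a| + k nsq (v-u)) + mx)`.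
(5) `F x v ≤ C Wp P v` (`1+nsq v ≤ (d+1)(1+‖v‖)²`). Integrability as in `re_formula`, `int_all` (H48/NE/ReA, ReB).
-/

set_option autoImplicit false

open MeasureTheory Set Filter Topology Pool.Agent.H25.Kin Pool.Agent.H48.PR
open Pool.Agent.H15.AV (Slice)
open Pool.Agent.H48.NE (mx RE)
open Pool.Agent.H48.NE (nsq_nn mx_nice mx_pos)

namespace Pool.Agent.H37.LN

variable {d : ℕ}

private noncomputable def iniB_ee (F m : ℝ) : ℝ := F * (Real.log F - Real.log m) - F + m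

private lemma iniB_mul_log_abs {F : ℝ} (hF : 0 ≤ F) : |F * Real.log F| ≤ 2 * √F + F ^ 2 := by
  rcases hF.eq_or_lt with h | h
  · rw [← h]; simp
  · have hs : 0 < √F := Real.sqrt_pos.2 h
    have e4 : √F ^ 2 = F := Real.sq_sqrt h.le
    rcases le_or_gt 1 F with h1 | h1
    · have l1 : Real.log F ≤ F - 1 := Real.log_le_sub_one_of_pos h
      have l2 : 0 ≤ Real.log F := Real.log_nonneg h1
      rw [abs_of_nonneg (mul_nonneg hF l2)]
      nlinarith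
    · have l1 : Real.log F ≤ 0 := Real.log_nonpos hF h1.le
      have e1 : Real.log F = 2 * Real.log √F := by
        rw [Real.log_sqrt h.le]; ring
      have l2 : Real.log (1 / √F) ≤ 1 / √F - 1 := Real.log_le_sub_one_of_pos (by positivity)
      rw [one_div, Real.log_inv, ← one_div] at l2
      have l3 : F * (1 / √F) = √F := by
        have : F * (1 / √F) = √F ^ 2 * (1 / √F) := by rw [e4]
        rw [this]
        field_simp
      have l4 := mul_le_mul_of_nonneg_left l2 h.le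
      rw [mul_sub, l3, mul_one] at l4
      rw [abs_of_nonpos (mul_nonpos_of_nonneg_of_nonpos hF l1), e1]
      nlinarith [sq_nonneg F]

private lemma iniB_log_mx {a k : ℝ} (ha : 0 < a) (hk : 0 < k) (u v : Vec d) :
    |Real.log (mx a k u v)| ≤ (|Real.log a| + k * (d * (1 + ‖u‖) ^ 2)) * (1 + ‖v‖) ^ 2 := by
  have hv := one_le_w v
  have hu := one_le_w u
  unfold mx
  rw [Real.log_mul ha.ne' (Real.exp_pos _).ne', Real.log_exp]
  have h1 : nsq (v - u) ≤ d * ((1 + ‖v‖) * (1 + ‖u‖)) ^ 2 := by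
    refine (sq_le _).trans ?_
    have h2 : ‖v - u‖ ≤ (1 + ‖v‖) * (1 + ‖u‖) := by linarith [w_sub_le v u]
    have h3 : ‖v - u‖ ^ 2 ≤ ((1 + ‖v‖) * (1 + ‖u‖)) ^ 2 := pow_le_pow_left₀ (norm_nonneg _) h2 2
    exact mul_le_mul_of_nonneg_left h3 (Nat.cast_nonneg d)
  have h0 := nsq_nn (v - u)
  have h4 : |Real.log a + -(k * nsq (v - u))| ≤ |Real.log a| + k * nsq (v - u) := by
    refine (abs_add_le _ _).trans ?_
    rw [abs_neg, abs_of_nonneg (mul_nonneg hk.le h0)]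
  have h5 : k * nsq (v - u) ≤ k * (d * ((1 + ‖v‖) * (1 + ‖u‖)) ^ 2) :=
    mul_le_mul_of_nonneg_left h1 hk.le
  have h6 : 1 ≤ (1 + ‖v‖) ^ 2 := one_le_pow₀ hv
  have h7 : |Real.log a| ≤ |Real.log a| * (1 + ‖v‖) ^ 2 := le_mul_of_one_le_right (abs_nonneg _) h6
  calc |Real.log a + -(k * nsq (v - u))| ≤ |Real.log a| * (1 + ‖v‖) ^ 2 +
        k * (d * ((1 + ‖v‖) * (1 + ‖u‖)) ^ 2) := by linarith
    _ = _ := by ring

private lemma iniB_le_inv_of {w F b : ℝ} (hw : 1 ≤ w) (N : ℕ) (h : w ^ N * F ≤ b) :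
    F ≤ |b| * (w ^ N)⁻¹ := by
  have hN : 0 < w ^ N := pow_pos (by linarith) N
  rw [← div_eq_mul_inv, le_div_iff₀ hN, mul_comm]
  exact h.trans (le_abs_self b)

private lemma iniB_ee_bd {a k : ℝ} (ha : 0 < a) (hk : 0 < k) (u : Vec d) (B : ℕ → ℝ) :
    ∃ C : ℝ, 0 ≤ C ∧ ∀ (F : ℝ) (v : Vec d), 0 ≤ F → (∀ N : ℕ, (1 + ‖v‖) ^ N * F ≤ B N) →
      |iniB_ee F (mx a k u v)| ≤ C * ((1 + ‖v‖) ^ (d + 2))⁻¹ ∧
        |F - mx a k u v| ≤ C * ((1 + ‖v‖) ^ (d + 2))⁻¹ := by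
  obtain ⟨Cm, hCm0, hCm⟩ := (mx_nice ha hk u).rd.bound (d + 2)
  have hL0 : 0 ≤ |Real.log a| + k * (d * (1 + ‖u‖) ^ 2) := by
    have := abs_nonneg (Real.log a)
    positivity
  generalize hL : |Real.log a| + k * (d * (1 + ‖u‖) ^ 2) = L at hL0
  refine ⟨2 * √|B (2 * (d + 2))| + |B 0| * |B (d + 2)| + |B (d + 4)| * L + |B (d + 2)| + Cm,
    by positivity, fun F v hF hN => ?_⟩
  have hw := one_le_w v
  have hwp : 0 < 1 + ‖v‖ := by linarith
  have hm := mx_pos (k := k) ha u v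
  have hmd : mx a k u v ≤ Cm * ((1 + ‖v‖) ^ (d + 2))⁻¹ := by
    have := hCm v
    rwa [Real.norm_eq_abs, abs_of_pos hm] at this
  have i0 : 0 < ((1 + ‖v‖) ^ (d + 2))⁻¹ := inv_pos.2 (pow_pos hwp _)
  have f1 : F ≤ |B (d + 2)| * ((1 + ‖v‖) ^ (d + 2))⁻¹ := iniB_le_inv_of hw _ (hN _)
  have f0 : F ≤ |B 0| := by
    have := hN 0
    simp only [pow_zero, one_mul] at this
    exact this.trans (le_abs_self _)
  have f2 : √F ≤ √|B (2 * (d + 2))| * ((1 + ‖v‖) ^ (d + 2))⁻¹ := by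
    have h1 : F ≤ |B (2 * (d + 2))| * ((1 + ‖v‖) ^ (2 * (d + 2)))⁻¹ := iniB_le_inv_of hw _ (hN _)
    have h2 : ((1 + ‖v‖) ^ (2 * (d + 2)))⁻¹ = (((1 + ‖v‖) ^ (d + 2))⁻¹) ^ 2 := by
      rw [inv_pow, ← pow_mul, mul_comm 2]
    rw [h2] at h1
    refine (Real.sqrt_le_sqrt h1).trans ?_
    rw [Real.sqrt_mul (abs_nonneg _), Real.sqrt_sq i0.le]
  have f3 : F ^ 2 ≤ |B 0| * |B (d + 2)| * ((1 + ‖v‖) ^ (d + 2))⁻¹ := by
    calc F ^ 2 = F * F := sq F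
      _ ≤ |B 0| * (|B (d + 2)| * ((1 + ‖v‖) ^ (d + 2))⁻¹) :=
          mul_le_mul f0 f1 hF (abs_nonneg _)
      _ = _ := by ring
  have f4 : F * |Real.log (mx a k u v)| ≤ |B (d + 4)| * L * ((1 + ‖v‖) ^ (d + 2))⁻¹ := by
    have h1 : F ≤ |B (d + 4)| * ((1 + ‖v‖) ^ (d + 4))⁻¹ := iniB_le_inv_of hw _ (hN _)
    have h2 := iniB_log_mx ha hk u v
    rw [hL] at h2
    have h3 : 0 ≤ |B (d + 4)| * ((1 + ‖v‖) ^ (d + 4))⁻¹ := hF.trans h1
    calc F * |Real.log (mx a k u v)| ≤ (|B (d + 4)| * ((1 + ‖v‖) ^ (d + 4))⁻¹) *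
          (L * (1 + ‖v‖) ^ 2) := mul_le_mul h1 h2 (abs_nonneg _) h3
      _ = |B (d + 4)| * L * ((1 + ‖v‖) ^ (d + 2))⁻¹ := by
          have : (1 + ‖v‖) ^ (d + 4) = (1 + ‖v‖) ^ (d + 2) * (1 + ‖v‖) ^ 2 := by
            rw [← pow_add]
          rw [this]
          field_simp
  have f5 := iniB_mul_log_abs hF
  constructor
  · have h1 : |iniB_ee F (mx a k u v)| ≤ |F * Real.log F| + F * |Real.log (mx a k u v)| + F +
        mx a k u v := by
      unfold iniB_ee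
      have e : F * (Real.log F - Real.log (mx a k u v)) - F + mx a k u v =
        F * Real.log F + -(F * Real.log (mx a k u v)) + -F + mx a k u v := by ring
      rw [e]
      refine (abs_add_le _ _).trans ?_
      rw [abs_of_pos hm]
      refine add_le_add_left ((abs_add_le _ _).trans ?_) _
      rw [abs_neg, abs_of_nonneg hF]
      refine add_le_add_left ((abs_add_le _ _).trans ?_) _
      rw [abs_neg, abs_mul F (Real.log (mx a k u v)), abs_of_nonneg hF]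
    nlinarith
  · have h1 : |F - mx a k u v| ≤ F + mx a k u v := by
      rw [abs_le]; constructor <;> linarith
    have h2 : 0 ≤ (2 * √|B (2 * (d + 2))| + |B 0| * |B (d + 2)| + |B (d + 4)| * L) *
      ((1 + ‖v‖) ^ (d + 2))⁻¹ := by positivity
    nlinarith

private lemma iniB_wt (v : Vec d) : ((1 + ‖v‖) ^ (d + 2))⁻¹ ≤ wt d v := by
  unfold wt
  exact inv_anti₀ (pow_pos (w_pos _) _) (pow_le_pow_right₀ (one_le_w _) (by omega))

private lemma iniB_up : ∃ W : ℝ, 0 ≤ W ∧ ∀ (C : ℝ) (G : Vec d × Vec d → ℝ),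
    (∀ q, |G q| ≤ C * wt d q.1) → ∫ q, G q ∂(nu d) ≤ C * W := by
  have hWi : Integrable (fun q : Vec d × Vec d => wt d q.1) (nu d) :=
    (integrable_wt (d := d)).comp_fst (muD d)
  refine ⟨∫ q : Vec d × Vec d, wt d q.1 ∂(nu d),
    integral_nonneg fun q : Vec d × Vec d => wt_nonneg q.1, fun C G hG => ?_⟩
  have h1 := norm_integral_le_of_norm_le (hWi.const_mul C) (Eventually.of_forall fun q => by
    rw [Real.norm_eq_abs]; exact hG q)
  rw [integral_const_mul] at h1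
  exact (le_abs_self _).trans h1

private lemma iniB_nsq (v : Vec d) : 1 + nsq v ≤ ((d : ℝ) + 1) * (1 + ‖v‖) ^ 2 := by
  have h1 := sq_le v
  have h2 := norm_nonneg v
  have h3 : (d : ℝ) * ‖v‖ ^ 2 ≤ d * (1 + ‖v‖) ^ 2 :=
    mul_le_mul_of_nonneg_left (pow_le_pow_left₀ h2 (by linarith) 2) (Nat.cast_nonneg d)
  nlinarith

private lemma iniB_pw (k : ℕ) (v : Vec d) :
    (1 + nsq v) ^ k ≤ ((d : ℝ) + 1) ^ k * (1 + ‖v‖) ^ (2 * k) := by
  have h1 : 0 ≤ 1 + nsq v := by linarith [nsq_nn v]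
  have h2 := pow_le_pow_left₀ h1 (iniB_nsq v) k
  rwa [mul_pow, ← pow_mul] at h2

private lemma iniB_mo {B : ℕ → ℝ} (k : ℕ) {F : ℝ} {v : Vec d} (hF : 0 ≤ F)
    (hN : ∀ N : ℕ, (1 + ‖v‖) ^ N * F ≤ B N) :
    |F * (1 + nsq v) ^ k| ≤ ((d : ℝ) + 1) ^ k * |B (2 * k + (d + 1))| * wt d v := by
  have h0 : 0 ≤ (1 + nsq v) ^ k := pow_nonneg (by linarith [nsq_nn v]) k
  rw [abs_of_nonneg (mul_nonneg hF h0)]
  have hw : 0 < (1 + ‖v‖) ^ (d + 1) := pow_pos (w_pos v) _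
  have h1 : (1 + ‖v‖) ^ (2 * k) * F ≤ |B (2 * k + (d + 1))| * wt d v := by
    unfold wt
    rw [← div_eq_mul_inv, le_div_iff₀ hw]
    have := (hN (2 * k + (d + 1))).trans (le_abs_self _)
    rw [pow_add] at this
    linarith
  have hd : (0 : ℝ) ≤ ((d : ℝ) + 1) ^ k := by positivity
  calc F * (1 + nsq v) ^ k ≤ F * (((d : ℝ) + 1) ^ k * (1 + ‖v‖) ^ (2 * k)) :=
        mul_le_mul_of_nonneg_left (iniB_pw k v) hF
    _ = ((d : ℝ) + 1) ^ k * ((1 + ‖v‖) ^ (2 * k) * F) := by ring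
    _ ≤ ((d : ℝ) + 1) ^ k * (|B (2 * k + (d + 1))| * wt d v) := mul_le_mul_of_nonneg_left h1 hd
    _ = _ := by ring

private lemma iniB_log {B : ℕ → ℝ} {F : ℝ} {v : Vec d} (hF : 0 ≤ F)
    (hN : ∀ N : ℕ, (1 + ‖v‖) ^ N * F ≤ B N) :
    |F * Real.log F| ≤ (2 * √|B (2 * (d + 1))| + |B 0| * |B (d + 1)|) * wt d v := by
  have hw := one_le_w v
  have hw0 := wt_nonneg (d := d) v
  have f1 : F ≤ |B (d + 1)| * wt d v := iniB_le_inv_of hw _ (hN _)
  have f0 : F ≤ |B 0| := by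
    have := hN 0
    simp only [pow_zero, one_mul] at this
    exact this.trans (le_abs_self _)
  have f2 : √F ≤ √|B (2 * (d + 1))| * wt d v := by
    have h1 : F ≤ |B (2 * (d + 1))| * ((1 + ‖v‖) ^ (2 * (d + 1)))⁻¹ := iniB_le_inv_of hw _ (hN _)
    have h2 : ((1 + ‖v‖) ^ (2 * (d + 1)))⁻¹ = wt d v ^ 2 := by
      unfold wt
      rw [inv_pow, ← pow_mul, mul_comm 2]
    rw [h2] at h1
    refine (Real.sqrt_le_sqrt h1).trans ?_
    rw [Real.sqrt_mul (abs_nonneg _), Real.sqrt_sq hw0]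
  have f3 : F ^ 2 ≤ |B 0| * |B (d + 1)| * wt d v := by
    calc F ^ 2 = F * F := sq F
      _ ≤ |B 0| * (|B (d + 1)| * wt d v) := mul_le_mul f0 f1 hF (abs_nonneg _)
      _ = _ := by ring
  have f5 := iniB_mul_log_abs hF
  nlinarith

private lemma iniB_int {F : Vec d → Vec d → ℝ} (hF : Slice F) (k : ℕ) :
    Integrable (fun q : Vec d × Vec d => F q.2 q.1 * (1 + nsq q.1) ^ k) (nu d) := by
  choose B hB using hF.decay
  have hc : Continuous fun q : Vec d × Vec d => F q.2 q.1 * (1 + nsq q.1) ^ k := by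
    have h1 : Continuous fun q : Vec d × Vec d => F q.2 q.1 :=
      hF.cont.comp (continuous_snd.prodMk continuous_fst)
    have h2 : Continuous fun v : Vec d => nsq v := by unfold nsq; fun_prop
    exact h1.mul ((continuous_const.add (h2.comp continuous_fst)).pow k)
  exact integrable_nu hc.aestronglyMeasurable fun q =>
    iniB_mo k (hF.nonneg _ _) fun N => hB N q.2 q.1

theorem ini_mo (B : ℕ → ℝ) (k : ℕ) : ∃ C : ℝ, ∀ F : Vec d → Vec d → ℝ, Slice F → DC B F → mo k F ≤ C := by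
  obtain ⟨W, hW, hu⟩ := iniB_up (d := d)
  exact ⟨_, fun F hF hB => hu (((d : ℝ) + 1) ^ k * |B (2 * k + (d + 1))|) _ fun q =>
    iniB_mo k (hF.nonneg _ _) fun N => hB N q.2 q.1⟩

theorem ini_tot (B : ℕ → ℝ) : ∃ C : ℝ, ∀ F : Vec d → Vec d → ℝ, Slice F → DC B F →
    ∫ q, F q.2 q.1 ∂(nu d) ≤ C ∧ ∫ q, F q.2 q.1 * nsq q.1 ∂(nu d) ≤ C ∧
    ∫ q, F q.2 q.1 * Real.log (F q.2 q.1) ∂(nu d) ≤ C := by
  obtain ⟨W, hW, hu⟩ := iniB_up (d := d)
  refine ⟨((d : ℝ) + 1) ^ 0 * |B (2 * 0 + (d + 1))| * W + ((d : ℝ) + 1) ^ 1 * |B (2 * 1 + (d + 1))| * W +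
    (2 * √|B (2 * (d + 1))| + |B 0| * |B (d + 1)|) * W, fun F hF hB => ?_⟩
  have p0 : 0 ≤ ((d : ℝ) + 1) ^ 0 * |B (2 * 0 + (d + 1))| * W := by positivity
  have p1 : 0 ≤ ((d : ℝ) + 1) ^ 1 * |B (2 * 1 + (d + 1))| * W := by positivity
  have p2 : 0 ≤ (2 * √|B (2 * (d + 1))| + |B 0| * |B (d + 1)|) * W := by positivity
  refine ⟨?_, ?_, ?_⟩
  · have := hu (((d : ℝ) + 1) ^ 0 * |B (2 * 0 + (d + 1))|) (fun q => F q.2 q.1) fun q => by
      have h := iniB_mo (d := d) 0 (hF.nonneg q.2 q.1) fun N => hB N q.2 q.1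
      rwa [pow_zero, mul_one] at h
    linarith
  · have := hu (((d : ℝ) + 1) ^ 1 * |B (2 * 1 + (d + 1))|) (fun q => F q.2 q.1 * nsq q.1) fun q => by
      have h := iniB_mo (d := d) 1 (hF.nonneg q.2 q.1) fun N => hB N q.2 q.1
      refine le_trans ?_ h
      have hf := hF.nonneg q.2 q.1
      have hn := nsq_nn q.1
      rw [pow_one, abs_of_nonneg (mul_nonneg hf hn), abs_of_nonneg (mul_nonneg hf (by linarith))]
      nlinarith
    linarith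
  · have := hu (2 * √|B (2 * (d + 1))| + |B 0| * |B (d + 1)|)
      (fun q => F q.2 q.1 * Real.log (F q.2 q.1)) fun q =>
        iniB_log (hF.nonneg q.2 q.1) fun N => hB N q.2 q.1
    linarith

theorem ini_re (B : ℕ → ℝ) {a k : ℝ} (ha : 0 < a) (hk : 0 < k) (u : Vec d) :
    ∃ C : ℝ, ∀ F : Vec d → Vec d → ℝ, Slice F → DC B F → RE a k u F ≤ C := by
  obtain ⟨W, hW, hu⟩ := iniB_up (d := d)
  obtain ⟨C, hC0, hC⟩ := iniB_ee_bd ha hk u B
  refine ⟨C * W, fun F hF hB => ?_⟩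
  have hE : RE a k u F = ∫ q, iniB_ee (F q.2 q.1) (mx a k u q.1) ∂(nu d) := rfl
  rw [hE]
  exact hu C _ fun q => ((hC _ q.1 (hF.nonneg _ _) fun N => hB N q.2 q.1).1).trans
    (mul_le_mul_of_nonneg_left (iniB_wt q.1) hC0)

theorem ini_wp (B : ℕ → ℝ) (P : ℕ) : ∃ C : ℝ, 0 < C ∧ ∀ F : Vec d → Vec d → ℝ, (∀ x v, 0 ≤ F x v) →
    DC B F → ∀ x v, F x v ≤ C * Wp P v := by
  refine ⟨((d : ℝ) + 1) ^ P * |B (2 * P)| + 1, by positivity, fun F hF hB x v => ?_⟩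
  have h0 : 0 < 1 + nsq v := by linarith [nsq_nn v]
  have h1 : 0 < (1 + nsq v) ^ P := pow_pos h0 P
  unfold Wp
  rw [← div_eq_mul_inv, le_div_iff₀ h1]
  have h2 := mul_le_mul_of_nonneg_left (iniB_pw P v) (hF x v)
  have h3 := (hB (2 * P) x v).trans (le_abs_self _)
  have h4 : F x v * (((d : ℝ) + 1) ^ P * (1 + ‖v‖) ^ (2 * P)) ≤ ((d : ℝ) + 1) ^ P * |B (2 * P)| := by
    calc _ = ((d : ℝ) + 1) ^ P * ((1 + ‖v‖) ^ (2 * P) * F x v) := by ring
      _ ≤ _ := mul_le_mul_of_nonneg_left h3 (by positivity)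
  linarith

theorem mo_mono {j k : ℕ} (hjk : j ≤ k) {F : Vec d → Vec d → ℝ} (hF : Slice F) : mo j F ≤ mo k F := by
  unfold mo
  refine integral_mono (iniB_int hF j) (iniB_int hF k) fun q => ?_
  exact mul_le_mul_of_nonneg_left (pow_le_pow_right₀ (by linarith [nsq_nn q.1]) hjk) (hF.nonneg _ _)

end Pool.Agent.H37.LN
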