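import Pool.Agent.H37.LN.SupK

/-!
# Module SupN: from `L¹` to the sup norm at one time

`R` with `S Wp (d+10) v + mx a k u v ≤ ε Wp (d+3) v` for `len v ≥ R` (`(1+nsq v)^(-7) → 0`, Gaussian decay). Let `len v₀ ≤ R`, `y = ε (1+R²)^(-(d+3)) ≤ ε Wp (d+3) v₀`. `sup_kmod` with `n = min 1 (y/2)`, `C₁ = max 1 (S/n)` (`f ≤ S ≤ C₁ n`), gives `c, a`. `ρ > 0` fixed with `ρ ≤ 1/2`, `ρ (1+R²)^a ≤ c` (then `n ρ^(d+γ+2) ≤ 1`), `κ₀ (1+R²)² ≤ c`:
`|f r x v₀ - f r x w| ≤ n/2 ≤ y/4` if `len (w - v₀) ≤ ρ' = c ρ (1+R²)^(-a)`. `mx` is Lipschitz: `|mx v₀ - mx w| ≤ y/4` for `len (w - v₀) ≤ ρ''`. So if `|f r x v₀ - mx v₀| > ε Wp (d+3) v₀ ≥ y` then `|f r x w - mx w| ≥ y/2` on a ball of radius `min ρ' ρ''`, of volume `≥ c_d ρ^d`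
(it contains a sup norm ball of radius `ρ/(d+1)`), and `∫ |f r x v - mx v| dv ≥ (y/2) vol =: 2e`.
-/

set_option autoImplicit false

open MeasureTheory Set Filter Topology Pool.Agent.H25.Kin Pool.Agent.H48.PR
open Pool.Agent.H15.AV (Good)
open Pool.Agent.H48.LN (KMod)
open Pool.Agent.H48.NE (mx)

namespace Pool.Agent.H37.LN

variable {d : ℕ} {γ : ℝ}

private lemma SupN_len (z : Vec d) : len z ≤ ((d : ℝ) + 1) * ‖z‖ := by
  have hd0 : (0 : ℝ) ≤ d := Nat.cast_nonneg _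
  have hn := norm_nonneg z
  unfold len
  rw [← Real.sqrt_sq (mul_nonneg (by linarith : (0 : ℝ) ≤ (d : ℝ) + 1) hn)]
  refine Real.sqrt_le_sqrt ((sq_le z).trans ?_)
  have h1 : (d : ℝ) ≤ ((d : ℝ) + 1) ^ 2 := by nlinarith
  rw [mul_pow]
  exact mul_le_mul_of_nonneg_right h1 (by positivity)

/-- decay of the Maxwellian -/
private lemma SupN_mx {a k : ℝ} (ha : 0 < a) (hk : 0 < k) (u : Vec d) (p : ℕ) : ∃ K : ℝ, 0 ≤ K ∧
    ∀ v, mx a k u v ≤ K * Wp p v := by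
  obtain ⟨Cl, hCl⟩ := Pool.Agent.H48.NE.mx_FB ha hk u
  refine ⟨|Cl (2 * p)| * ((d : ℝ) + 1) ^ p, by positivity, fun v => ?_⟩
  have h1 := hCl.le (2 * p) v
  have hs := sq_nonneg' v
  have hw : 0 < (1 + ‖v‖) ^ (2 * p) := by positivity
  have h2 : (1 + nsq v) ^ p ≤ ((d : ℝ) + 1) ^ p * (1 + ‖v‖) ^ (2 * p) := by
    have h3 := pow_le_pow_left₀ (by linarith) (one_add_sq_le v) p
    rwa [mul_pow, ← pow_mul] at h3
  have h4 : 0 < (1 + nsq v) ^ p := by positivity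
  have h5 : mx a k u v * (1 + nsq v) ^ p ≤ |Cl (2 * p)| * ((d : ℝ) + 1) ^ p := by
    have h6 := Pool.Agent.H48.NE.mx_pos (k := k) ha u v
    calc mx a k u v * (1 + nsq v) ^ p
        ≤ mx a k u v * (((d : ℝ) + 1) ^ p * (1 + ‖v‖) ^ (2 * p)) :=
          mul_le_mul_of_nonneg_left h2 h6.le
      _ = ((1 + ‖v‖) ^ (2 * p) * mx a k u v) * ((d : ℝ) + 1) ^ p := by ring
      _ ≤ |Cl (2 * p)| * ((d : ℝ) + 1) ^ p :=
          mul_le_mul_of_nonneg_right (h1.trans (le_abs_self _)) (by positivity)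
  unfold Wp
  rw [← div_eq_mul_inv, le_div_iff₀ h4]
  exact h5

/-- large velocities -/
private lemma SupN_big {S K ε : ℝ} (hS : 0 ≤ S) (hK : 0 ≤ K) (hε : 0 < ε) {v : Vec d}
    (hv : (S + K) / ε ≤ 1 + nsq v) : S * Wp (d + 10) v + K * Wp (d + 4) v ≤ ε * Wp (d + 3) v := by
  have hs := sq_nonneg' v
  have h1 : Wp (d + 10) v ≤ Wp (d + 4) v := by
    unfold Wp
    exact inv_anti₀ (by positivity) (pow_le_pow_right₀ (by linarith) (by omega))
  have h2 : Wp (d + 4) v = Wp (d + 3) v * (1 + nsq v)⁻¹ := by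
    unfold Wp
    rw [← mul_inv, ← pow_succ]
  have h3 : (S + K) * (1 + nsq v)⁻¹ ≤ ε := by
    rw [← div_eq_mul_inv, div_le_iff₀ (by linarith)]
    rw [div_le_iff₀ hε] at hv
    linarith
  have h4 := Wp_pos (d + 3) v
  calc S * Wp (d + 10) v + K * Wp (d + 4) v ≤ S * Wp (d + 4) v + K * Wp (d + 4) v := by
        have := mul_le_mul_of_nonneg_left h1 hS
        linarith
    _ = ((S + K) * (1 + nsq v)⁻¹) * Wp (d + 3) v := by
        rw [h2]
        ring
    _ ≤ ε * Wp (d + 3) v := mul_le_mul_of_nonneg_right h3 h4.le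

/-- a lower bound on a ball -/
private lemma SupN_ball {g : Vec d → ℝ} (hg : Integrable g) (h0 : ∀ v, 0 ≤ g v) {y σ : ℝ} (v₀ : Vec d)
    (hσ : 0 ≤ σ) (hb : ∀ w, len (w - v₀) ≤ σ → y ≤ g w) :
    y * (2 * (σ / ((d : ℝ) + 1))) ^ d ≤ ∫ v, g v := by
  have hd0 : (0 : ℝ) < (d : ℝ) + 1 := by positivity
  set r : ℝ := σ / ((d : ℝ) + 1) with hr
  have hr0 : 0 ≤ r := by positivity
  set B : Set (Vec d) := Metric.closedBall v₀ r with hB
  have hBm : MeasurableSet B := measurableSet_closedBall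
  have hBf : volume B ≠ ⊤ := by
    rw [hB, Real.volume_pi_closedBall _ hr0]
    exact ENNReal.ofReal_ne_top
  have hBv : volume.real B = (2 * r) ^ d := by
    rw [Measure.real, hB, Real.volume_pi_closedBall _ hr0, Fintype.card_fin,
      ENNReal.toReal_ofReal (by positivity)]
  have h1 : ∫ v in B, g v ≤ ∫ v, g v := setIntegral_le_integral hg (Eventually.of_forall h0)
  have h2 : ∫ _ in B, y ≤ ∫ v in B, g v := by
    refine setIntegral_mono_on (integrableOn_const hBf) hg.integrableOn hBm fun w hw => ?_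
    refine hb w ((SupN_len _).trans ?_)
    rw [hB, Metric.mem_closedBall, dist_eq_norm] at hw
    have h3 := mul_le_mul_of_nonneg_left hw hd0.le
    rw [hr, mul_div_cancel₀ _ hd0.ne'] at h3
    exact h3
  rw [setIntegral_const, hBv, smul_eq_mul] at h2
  linarith

theorem sup_l1 (hK : KMod d) (hd : 2 ≤ d) (h1 : -2 < γ) (h2 : γ ≤ 0) {m : ℝ} (hm : 0 < m) (N S : ℝ)
    {a k : ℝ} (ha : 0 < a) (hk : 0 < k) (u : Vec d) {ε : ℝ} (hε : 0 < ε) :
    ∃ e > 0, ∃ κ₀ > 0, ∀ (T : ℝ) (f : ℝ → Vec d → Vec d → ℝ), IsLandauSol γ T f →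
      ∀ r : ℝ, 1 / 2 < r → r < T → (∀ t ∈ Icc (r - 1 / 2) r, ∀ x, Good m N (f t x)) →
      (∀ t ∈ Icc (r - 1 / 2) r, ∀ x v, f t x v ≤ S * Wp (d + 10) v) →
      (∀ t ∈ Icc (r - 1 / 2) r, NH κ₀ (f t)) → (∀ x, ∫ v, |f r x v - mx a k u v| ≤ e) →
      ∀ x v, |f r x v - mx a k u v| ≤ ε * Wp (d + 3) v := by
  obtain ⟨K, hK0, hKm⟩ := SupN_mx ha hk u (d + 4)
  obtain ⟨L, hL0, hL⟩ := Pool.Agent.H48.NE.mx_lip ha hk u 0
  set V₁ : ℝ := max 1 ((|S| + K) / ε) with hV₁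
  have hV1 : 1 ≤ V₁ := le_max_left _ _
  have hV0 : 0 < V₁ := by linarith
  set y : ℝ := ε * (V₁ ^ (d + 3))⁻¹ with hy
  have hy0 : 0 < y := by positivity
  set n : ℝ := min 1 (y / 2) with hn
  have hn0 : 0 < n := lt_min one_pos (by linarith)
  have hn1 : n ≤ 1 := min_le_left _ _
  have hn2 : n ≤ y / 2 := min_le_right _ _
  set C₁ : ℝ := max 1 (|S| / n) with hC₁
  have hC1 : 1 ≤ C₁ := le_max_left _ _
  have hC2 : |S| ≤ C₁ * n := by
    have h3 : |S| / n ≤ C₁ := le_max_right _ _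
    rwa [div_le_iff₀ hn0] at h3
  obtain ⟨c, hc0, hc1, A, hA⟩ := sup_kmod hK hd h1 h2 hm N hC1
  have hVA : 1 ≤ V₁ ^ A := one_le_pow₀ hV1
  have hVA0 : 0 < V₁ ^ A := by linarith
  set ρ : ℝ := min (1 / 2) (c / V₁ ^ A) with hρ
  have hρ0 : 0 < ρ := lt_min (by norm_num) (by positivity)
  have hρ1 : ρ ≤ 1 / 2 := min_le_left _ _
  have hρ2 : ρ * V₁ ^ A ≤ c := by
    have h3 : ρ ≤ c / V₁ ^ A := min_le_right _ _
    rwa [le_div_iff₀ hVA0] at h3
  set σ : ℝ := min (c * ρ / V₁ ^ A) (y / (4 * (2 * L + 1))) with hσ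
  have hσ0 : 0 < σ := lt_min (by positivity) (by positivity)
  have hσ1 : σ * V₁ ^ A ≤ c * ρ := by
    have h3 : σ ≤ c * ρ / V₁ ^ A := min_le_left _ _
    rwa [le_div_iff₀ hVA0] at h3
  have hσ2 : L * 2 * σ ≤ y / 4 := by
    have h3 : σ ≤ y / (4 * (2 * L + 1)) := min_le_right _ _
    rw [le_div_iff₀ (by positivity)] at h3
    nlinarith
  have hd0 : (0 : ℝ) < (d : ℝ) + 1 := by positivity
  refine ⟨y / 4 * (2 * (σ / ((d : ℝ) + 1))) ^ d, by positivity, c / V₁ ^ 3, by positivity,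
    fun T f hf r hr1 hrT hG hfS hNH hI x v₀ => ?_⟩
  have hr : r ∈ Ioo 0 T := ⟨by linarith, hrT⟩
  have hrI : r ∈ Icc (r - 1 / 2) r := ⟨by linarith, le_rfl⟩
  have hs := sq_nonneg' v₀
  have hfn : ∀ x v, 0 ≤ f r x v := fun x v => hf.nonneg r ⟨hr.1.le, hrT⟩ x v
  have hmp : ∀ v, 0 < mx a k u v := fun v => Pool.Agent.H48.NE.mx_pos (k := k) ha u v
  rcases le_or_gt ((|S| + K) / ε) (1 + nsq v₀) with hbig | hsm
  · have h3 := SupN_big (abs_nonneg S) hK0 hε hbig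
    have h4 := hfS r hrI x v₀
    have h5 := hKm v₀
    have h6 : S * Wp (d + 10) v₀ ≤ |S| * Wp (d + 10) v₀ :=
      mul_le_mul_of_nonneg_right (le_abs_self S) (Wp_pos _ _).le
    have h7 := hfn x v₀
    have h8 := hmp v₀
    rw [abs_le]
    constructor <;> linarith
  · have hV : 1 + nsq v₀ ≤ V₁ := hsm.le.trans (le_max_right _ _)
    have hyW : y ≤ ε * Wp (d + 3) v₀ := by
      rw [hy]
      refine mul_le_mul_of_nonneg_left ?_ hε.le
      unfold Wp
      exact inv_anti₀ (by positivity) (pow_le_pow_left₀ (by linarith) hV _)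
    by_contra hcon
    push Not at hcon
    have hcon' : y < |f r x v₀ - mx a k u v₀| := lt_of_le_of_lt hyW hcon
    have hVpow : ∀ j : ℕ, (1 + nsq v₀) ^ j ≤ V₁ ^ j := fun j => pow_le_pow_left₀ (by linarith) hV j
    have hρsq : ρ ^ 2 ≤ 1 / 2 := by nlinarith
    have hsub : Icc (r - ρ ^ 2) r ⊆ Icc (r - 1 / 2) r := Icc_subset_Icc (by linarith) le_rfl
    have key := hA T f hf r ρ n (c / V₁ ^ 3) v₀ hρ0
      (le_trans (mul_le_mul_of_nonneg_left (hVpow A) hρ0.le) hρ2) (by linarith) hrT hn0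
      (by
        have h3 : ρ ^ ((d : ℝ) + γ + 2) ≤ 1 := by
          refine Real.rpow_le_one hρ0.le (by linarith) ?_
          have : (0 : ℝ) ≤ d := Nat.cast_nonneg d
          linarith
        have h4 : 0 ≤ ρ ^ ((d : ℝ) + γ + 2) := Real.rpow_nonneg hρ0.le _
        calc n * ρ ^ ((d : ℝ) + γ + 2) ≤ 1 * 1 := mul_le_mul hn1 h3 h4 one_pos.le
          _ = 1 := one_mul 1)
      (by positivity)
      (by
        rw [div_mul_eq_mul_div, div_le_iff₀ (by positivity)]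
        exact mul_le_mul_of_nonneg_left (hVpow 3) hc0.le)
      (fun t ht => hG t (hsub ht)) (fun t ht => hNH t (hsub ht))
      (fun t ht x v _ => by
        have h3 := hfS t (hsub ht) x v
        have h4 : S * Wp (d + 10) v ≤ |S| * 1 :=
          mul_le_mul (le_abs_self S) (Wp_le_one _ _) (Wp_pos _ _).le (abs_nonneg S)
        linarith)
    have hball : ∀ w : Vec d, len (w - v₀) ≤ σ → y / 2 ≤ |f r x w - mx a k u w| := by
      intro w hw
      have h3 : len (w - v₀) * (1 + nsq v₀) ^ A ≤ c * ρ :=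
        le_trans (mul_le_mul hw (hVpow A) (by positivity) hσ0.le) hσ1
      have h4 := key x w h3
      have h5 := hL v₀ (w - v₀)
      rw [add_sub_cancel] at h5
      have h6 : L * min 1 (len (w - v₀)) * (Wp 0 v₀ + Wp 0 w) ≤ L * 2 * σ := by
        have e1 : Wp 0 v₀ + Wp 0 w = 2 := by
          unfold Wp
          norm_num
        rw [e1]
        have h7 : min 1 (len (w - v₀)) ≤ σ := (min_le_right _ _).trans hw
        have h8 := mul_le_mul_of_nonneg_left h7 hL0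
        linarith
      have h7 : |mx a k u w - mx a k u v₀| ≤ y / 4 := h5.trans (h6.trans hσ2)
      have h8 : |f r x v₀ - mx a k u v₀| ≤ |f r x v₀ - f r x w| + |f r x w - mx a k u w| +
          |mx a k u w - mx a k u v₀| := by
        have e1 : f r x v₀ - mx a k u v₀ = (f r x v₀ - f r x w) + (f r x w - mx a k u w) +
          (mx a k u w - mx a k u v₀) := by ring
        rw [e1]
        exact abs_add_three _ _ _
      linarith
    have hNf := Pool.Agent.H15.AV.sol_nice hf hr x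
    have hNm := Pool.Agent.H48.NE.mx_nice ha hk u
    have hint : Integrable (fun v => |f r x v - mx a k u v|) := by
      have i1 : Integrable (f r x) := hNf.rd.integrable hNf.cont.aestronglyMeasurable
      have i2 : Integrable (mx a k u) := hNm.rd.integrable hNm.cont.aestronglyMeasurable
      exact (i1.sub i2).abs
    have h3 := SupN_ball hint (fun v => abs_nonneg _) v₀ hσ0.le hball
    have h4 := hI x
    have h5 : 0 < y / 4 * (2 * (σ / ((d : ℝ) + 1))) ^ d := by positivity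
    have h6 : y / 2 * (2 * (σ / ((d : ℝ) + 1))) ^ d =
        2 * (y / 4 * (2 * (σ / ((d : ℝ) + 1))) ^ d) := by ring
    linarith

end Pool.Agent.H37.LN
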