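import Mathlib

/-!
# Module WinL: choice of a good window
-/

set_option autoImplicit false

open Finset

namespace Pool.Agent.H37.LN

theorem win {J : ℕ} (hJ : 1 ≤ J) {a D : ℕ → ℝ} (ha : ∀ n < J, 0 ≤ a n) (hD : ∀ n < J, 0 ≤ D n) {A B : ℝ}
    (hA : 0 < A) (hB : 0 < B) (h1 : ∑ n ∈ range J, a n ≤ A * J) (h2 : ∑ n ∈ range J, D n ≤ B) :
    ∃ n < J, a n ≤ 3 * A ∧ D n ≤ 3 * B / J := by
  have hJ0 : (0 : ℝ) < J := by exact_mod_cast hJ
  by_contra hcon
  push Not at hcon
  have key : ∀ n ∈ range J, (1 : ℝ) < a n / (3 * A) + D n / (3 * B / J) := by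
    intro n hn
    have hn' := mem_range.1 hn
    have h3 : 0 < 3 * B / J := by positivity
    by_cases h4 : a n ≤ 3 * A
    · have h5 := hcon n hn' h4
      have h6 : 1 < D n / (3 * B / J) := by rwa [one_lt_div h3]
      have h7 : 0 ≤ a n / (3 * A) := div_nonneg (ha n hn') (by positivity)
      linarith
    · have h6 : 1 < a n / (3 * A) := by
        rw [one_lt_div (by positivity)]
        linarith
      have h7 : 0 ≤ D n / (3 * B / J) := div_nonneg (hD n hn') h3.le
      linarith
  have hne : (range J).Nonempty := ⟨0, mem_range.2 (by omega)⟩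
  have h3 := sum_lt_sum_of_nonempty hne key
  rw [sum_const, card_range, nsmul_eq_mul, mul_one, sum_add_distrib, ← sum_div, ← sum_div] at h3
  have h4 : (∑ n ∈ range J, a n) / (3 * A) ≤ J / 3 := by
    rw [div_le_iff₀ (by positivity)]
    linarith
  have h5 : (∑ n ∈ range J, D n) / (3 * B / J) ≤ J / 3 := by
    rw [div_le_iff₀ (by positivity)]
    have e : (J : ℝ) / 3 * (3 * B / J) = B := by field_simp
    rw [e]
    exact h2
  linarith

end Pool.Agent.H37.LN
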