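import Pool.Agent.H37.LN.NsupL
import Pool.Agent.H37.LN.SupN
import Pool.Agent.H37.LN.WinL
import Pool.Agent.H37.LN.MdL
import Pool.Agent.H48.NE.ReB
import Pool.Agent.H48.PL.PlI

/-!
# Module LateL: one time at which the solution is close to the Maxwellian

Windows `[3n, 3n+3]`, `n < J`. `win`: for some `n` the moment is `≤ 3A` at some `τ ∈ [3n, 3n+1]` (`A` independent of `J`) and the entropy dissipation of `[3n+2, 3n+3]` is `≤ C/J`. `sup_L` from `τ` on: `f ≤ S₁ Wp (d+10)` on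
`[3n+3/2, 3n+3]`; at some time `r` and some position `x₀` the dissipation of the slice is `≤ ε₁`: `SliceL`, then `l1_xy`, `sup_l1`.
-/

set_option autoImplicit false

open MeasureTheory Set Filter Topology Pool.Agent.H25.Kin Pool.Agent.H48.PR
open Pool.Agent.H15.AV (Good sol_slice)
open Pool.Agent.H48.LN (KMod landau_inv re_antiL)
open Pool.Agent.H48.NE (mx RE re_nonneg)
open Pool.Agent.H48.PI (sol_shift sol_restrict)

namespace Pool.Agent.H37.LN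

variable {d : ℕ} {γ : ℝ}

private lemma lt_PG (j : ℕ) : PG fun v : Vec d => (1 + nsq v) ^ j := by
  refine ⟨2 * j, ((d : ℝ) + 1) ^ j, fun v => ?_⟩
  have h1 : 1 + nsq v ≤ ((d : ℝ) + 1) * (1 + ‖v‖) ^ 2 := by
    have h2 := sq_le v
    have h3 : 0 ≤ ‖v‖ := norm_nonneg v
    have h4 : (0 : ℝ) ≤ d := Nat.cast_nonneg d
    nlinarith [mul_nonneg h4 h3, mul_nonneg h3 h3]
  have h5 : 0 < 1 + nsq v := by linarith [sq_nonneg' v]
  rw [Real.norm_of_nonneg (pow_nonneg h5.le j)]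
  calc (1 + nsq v) ^ j ≤ (((d : ℝ) + 1) * (1 + ‖v‖) ^ 2) ^ j := pow_le_pow_left₀ h5.le h1 j
    _ = ((d : ℝ) + 1) ^ j * (1 + ‖v‖) ^ (2 * j) := by rw [mul_pow, ← pow_mul]

private lemma lt_nsqc : Continuous fun v : Vec d => nsq v := by
  unfold nsq
  fun_prop

private lemma lt_cont {T : ℝ} {f : ℝ → Vec d → Vec d → ℝ} (hf : IsLandauSol γ T f) (j : ℕ) :
    ContinuousOn (fun t => mo j (f t)) (Ico 0 T) := by
  have hfc : IsClassicalSol T (fun t x => landauQ γ (f t x)) f := hf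
  exact mo_cont hfc (lt_PG j) ((continuous_const.add lt_nsqc).pow j)

/-- a time at which the moment is at most its average -/
private lemma lt_tau {T : ℝ} {f : ℝ → Vec d → Vec d → ℝ} (hf : IsLandauSol γ T f) (j : ℕ) {s : ℝ}
    (hs : 0 ≤ s) (hs1 : s + 1 < T) :
    ∃ τ ∈ Icc s (s + 1), mo j (f τ) ≤ ∫ r in s..(s + 1), mo j (f r) := by
  have hc : ContinuousOn (fun t => mo j (f t)) (Icc s (s + 1)) :=
    (lt_cont hf j).mono fun t ht => ⟨hs.trans ht.1, ht.2.trans_lt hs1⟩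
  obtain ⟨τ, hτ, hmin⟩ := isCompact_Icc.exists_isMinOn (nonempty_Icc.2 (by linarith)) hc
  refine ⟨τ, hτ, ?_⟩
  have hle : s ≤ s + 1 := by linarith
  have h1 : ∫ _ in s..(s + 1), mo j (f τ) ≤ ∫ r in s..(s + 1), mo j (f r) := by
    refine intervalIntegral.integral_mono_on hle (by simp) ?_ fun r hr => hmin hr
    rw [← uIcc_of_le hle] at hc
    exact hc.intervalIntegrable
  simpa using h1

/-- a time at which the dissipation is small -/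
private lemma lt_r {G : ℝ → ℝ} {s e : ℝ} (he : 0 < e) (hG : IntervalIntegrable G volume s (s + 1))
    (h : ∫ r in s..(s + 1), G r ≤ e / 2) : ∃ r ∈ Ioo s (s + 1), G r ≤ e := by
  by_contra hcon
  push Not at hcon
  have h1 : ∫ _ in s..(s + 1), e ≤ ∫ r in s..(s + 1), G r :=
    intervalIntegral.integral_mono_on_of_le_Ioo (by linarith) (by simp) hG fun r hr => (hcon r hr).le
  rw [intervalIntegral.integral_const] at h1
  simp at h1
  linarith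

private lemma lt_RE (hd : 2 ≤ d) (h1 : -2 < γ) (h2 : γ < 0) {a k : ℝ} (ha : 0 < a) (hk : 0 < k) (u : Vec d)
    {T : ℝ} {f : ℝ → Vec d → Vec d → ℝ} (hf : IsLandauSol γ T f) {s t : ℝ} (hs : 0 ≤ s) (hst : s ≤ t)
    (ht : t < T) : RE a k u (f t) ≤ RE a k u (f s) := by
  have hfc : IsClassicalSol T (fun t x => landauQ γ (f t x)) f := hf
  have hf' : IsLandauSol γ (T - s) (fun t => f (s + t)) := sol_shift hfc hs
  have h3 := re_antiL hd h1 h2.le ha hk u hf' (t := t - s) ⟨by linarith, by linarith⟩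
  have e1 : s + (t - s) = t := by ring
  simpa only [e1, add_zero] using h3

/-- sums of the moments -/
private lemma lt_sum {T c C : ℝ} {f : ℝ → Vec d → Vec d → ℝ} (hc : 0 < c) {i : ℕ}
    (hf : ∀ t ∈ Ico 0 T, ∀ x v, 0 ≤ f t x v)
    (hg : ∀ s t : ℝ, 0 ≤ s → s ≤ t → t < T →
      mo (i + 2) (f t) + c * ∫ r in s..t, mo (i + 1) (f r) ≤ mo (i + 2) (f s) + C * (t - s)) :
    ∀ n : ℕ, 3 * (n : ℝ) < T → mo (i + 2) (f (3 * n)) +
      c * ∑ j ∈ Finset.range n, ∫ r in (3 * (j : ℝ))..(3 * (j : ℝ) + 1), mo (i + 1) (f r) ≤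
      mo (i + 2) (f 0) + C * (3 * n) := by
  intro n
  induction n with
  | zero =>
    intro _
    simp
  | succ n ih =>
    intro hn
    push_cast at hn
    have hn0 : (0 : ℝ) ≤ n := Nat.cast_nonneg n
    have h1 := ih (by linarith)
    have h2 := hg (3 * (n : ℝ)) (3 * (n : ℝ) + 1) (by positivity) (by linarith) (by linarith)
    have h3 := hg (3 * (n : ℝ) + 1) (3 * (n : ℝ) + 3) (by positivity) (by linarith) (by linarith)
    have h4 : 0 ≤ c * ∫ r in (3 * (n : ℝ) + 1)..(3 * (n : ℝ) + 3), mo (i + 1) (f r) :=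
      mul_nonneg hc.le (intervalIntegral.integral_nonneg (by linarith) fun r hr =>
        mo_nonneg _ (hf r ⟨by linarith [hr.1], by linarith [hr.2]⟩))
    rw [Finset.sum_range_succ, mul_add]
    have e : 3 * ((n + 1 : ℕ) : ℝ) = 3 * (n : ℝ) + 3 := by push_cast; ring
    rw [e]
    have e2 : C * (3 * (n : ℝ) + 3) = C * (3 * n) + C * (3 * (n : ℝ) + 1 - 3 * n) +
      C * (3 * (n : ℝ) + 3 - (3 * n + 1)) := by ring
    linarith

/-- sums of the dissipation -/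
private lemma lt_dis {T η : ℝ} {R : ℝ → ℝ} {D : ℕ → ℝ} (hR : ∀ s t : ℝ, 0 ≤ s → s ≤ t → t < T → R t ≤ R s)
    (J : ℕ) (hJ : 3 * (J : ℝ) < T)
    (hD : ∀ n < J, D n ≤ R (3 * (n : ℝ) + 2) - R (3 * (n : ℝ) + 3) + η) :
    ∀ n : ℕ, n < J → R (3 * (n : ℝ) + 3) + ∑ j ∈ Finset.range (n + 1), D j ≤ R 0 + ((n : ℝ) + 1) * η := by
  intro n
  induction n with
  | zero =>
    intro hn
    have h1 := hD 0 hn
    have hJ1 : (1 : ℝ) ≤ J := by exact_mod_cast hn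
    have h2 := hR 0 2 le_rfl (by norm_num) (by linarith)
    simp only [Nat.cast_zero, mul_zero, zero_add, Finset.range_one, Finset.sum_singleton, one_mul] at h1 ⊢
    linarith
  | succ n ih =>
    intro hn
    have h1 := ih (by omega)
    have h2 := hD (n + 1) hn
    rw [Finset.sum_range_succ]
    have hJ1 : (n : ℝ) + 2 ≤ J := by exact_mod_cast hn
    have hn0 : (0 : ℝ) ≤ n := Nat.cast_nonneg n
    push_cast at h2 ⊢
    have h3 := hR (3 * (n : ℝ) + 3) (3 * ((n : ℝ) + 1) + 2) (by positivity) (by linarith) (by linarith)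
    linarith

theorem late_L (hK : KMod d) (hSl : SliceL d γ) (hE : EntL d γ) (hd : 2 ≤ d) (h1 : -2 < γ) (h2 : γ < 0)
    (B : ℕ → ℝ) {m : ℝ} (hm : 0 < m) (N : ℝ) {a k : ℝ} (ha : 0 < a) (hk : 0 < k) (u : Vec d)
    {ε : ℝ} (hε : 0 < ε) :
    ∃ ι > 0, ∃ J : ℕ, 1 ≤ J ∧ ∀ U : ℕ → ℝ, ∃ κ > 0, ∀ (T : ℝ) (f : ℝ → Vec d → Vec d → ℝ),
      IsLandauSol γ T f → 3 * (J : ℝ) + 1 < T → DC B (f 0) →
      (∀ t ∈ Ico 0 (3 * (J : ℝ) + 1), DC U (f t) ∧ ∀ x, Good m N (f t x)) →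
      (∀ t ∈ Ico 0 (3 * (J : ℝ) + 1), NH κ (f t)) → mdT (f 0) (mx a k u) ≤ ι →
      ∃ r ∈ Ioo 0 (3 * (J : ℝ)), ∀ x v, |f r x v - mx a k u v| ≤ ε * Wp (d + 3) v := by
  obtain ⟨kk, hkk⟩ := sup_L hK hd h1 h2.le hm N
  obtain ⟨c₁, hc₁, C₁, hC₁, hg₁⟩ := mo_grow hd h1 h2 hm N (kk + 1)
  obtain ⟨c₂, hc₂, C₂, hC₂, hg₂⟩ := mo_grow hd h1 h2 hm N kk
  obtain ⟨M₀, hM₀⟩ := ini_mo (d := d) B (kk + 3)
  obtain ⟨A, hA⟩ : ∃ A : ℝ, A = (|M₀| + 3 * C₁ + 1) / c₁ := ⟨_, rfl⟩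
  have hA0 : 0 < A := by rw [hA]; positivity
  obtain ⟨X, hX⟩ : ∃ X : ℝ, X = 3 * A + 4 * C₂ := ⟨_, rfl⟩
  obtain ⟨S, hS1, hsup⟩ := hkk X
  obtain ⟨S₁, hS₁⟩ : ∃ S₁ : ℝ, S₁ = S * 3 ^ d := ⟨_, rfl⟩
  obtain ⟨e, he, κ₀, hκ₀, hl1⟩ := sup_l1 hK hd h1 h2.le hm N S₁ ha hk u hε
  obtain ⟨ε₁, hε₁, ι₀, hι₀, δ₀, hδ₀, hsl⟩ := hSl a k ha hk u S₁ m (e / 2) hm (half_pos he)
  obtain ⟨CR, hCR⟩ := ini_re (d := d) B ha hk u
  obtain ⟨Bd, hBd⟩ : ∃ Bd : ℝ, Bd = |CR| + 1 := ⟨_, rfl⟩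
  have hBd0 : 0 < Bd := by rw [hBd]; positivity
  obtain ⟨J, hJ⟩ : ∃ J : ℕ, 6 * Bd / ε₁ < J := exists_nat_gt _
  have hJ0 : (0 : ℝ) < J := lt_trans (by positivity) hJ
  have hJ1 : 1 ≤ J := by
    have : 0 < J := by exact_mod_cast hJ0
    omega
  have hJε : 3 * Bd / J ≤ ε₁ / 2 := by
    rw [div_le_iff₀ hJ0]
    rw [div_lt_iff₀ hε₁] at hJ
    linarith
  obtain ⟨Cn, hCn0, hCn⟩ := md_nhL (d := d) ha hk u
  obtain ⟨Cl, hCl0, hCl⟩ := l1_xy (d := d) ha hk u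
  refine ⟨ι₀ / 2, half_pos hι₀, J, hJ1, fun U => ?_⟩
  obtain ⟨K₁, hK₁0, hK₁⟩ := ini_wp (d := d) U (d + 11)
  obtain ⟨κa, hκa, hsa⟩ := hsup (d + 11) K₁ (by omega)
  obtain ⟨κ, hκ, hκ1, hκ2, hκ3, hκ4⟩ : ∃ κ : ℝ, 0 < κ ∧ κ ≤ κa ∧ κ ≤ κ₀ ∧ κ * Cn ≤ ι₀ / 2 ∧ κ * Cl ≤ e / 2 := by
    refine ⟨min (min κa κ₀) (min (ι₀ / 2 / (Cn + 1)) (e / 2 / (Cl + 1))), by positivity,
      (min_le_left _ _).trans (min_le_left _ _), (min_le_left _ _).trans (min_le_right _ _), ?_, ?_⟩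
    · have h3 : min (min κa κ₀) (min (ι₀ / 2 / (Cn + 1)) (e / 2 / (Cl + 1))) ≤ ι₀ / 2 / (Cn + 1) :=
        (min_le_right _ _).trans (min_le_left _ _)
      refine (mul_le_mul_of_nonneg_right h3 hCn0).trans ?_
      rw [div_mul_eq_mul_div, div_le_iff₀ (by positivity)]
      exact mul_le_mul_of_nonneg_left (by linarith) (by positivity)
    · have h3 : min (min κa κ₀) (min (ι₀ / 2 / (Cn + 1)) (e / 2 / (Cl + 1))) ≤ e / 2 / (Cl + 1) :=
        (min_le_right _ _).trans (min_le_right _ _)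
      refine (mul_le_mul_of_nonneg_right h3 hCl0).trans ?_
      rw [div_mul_eq_mul_div, div_le_iff₀ (by positivity)]
      exact mul_le_mul_of_nonneg_left (by linarith) (by positivity)
  refine ⟨κ, hκ, fun T f hf hT hB hUG hNH hmd => ?_⟩
  have hfc : IsClassicalSol T (fun t x => landauQ γ (f t x)) f := hf
  obtain ⟨T', hT'⟩ : ∃ T' : ℝ, T' = 3 * (J : ℝ) + 1 := ⟨_, rfl⟩
  rw [← hT'] at hT hUG hNH
  have hT'0 : 0 < T' := by rw [hT']; positivity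
  have hf' : IsLandauSol γ T' f := sol_restrict hfc hT.le
  have hfc' : IsClassicalSol T' (fun t x => landauQ γ (f t x)) f := hf'
  have hNHm : ∀ κ', κ ≤ κ' → ∀ t ∈ Ico 0 T', NH κ' (f t) := fun κ' hκ' t ht x y v =>
    (hNH t ht x y v).trans (mul_le_mul_of_nonneg_right hκ' (Wp_pos _ _).le)
  have hG : ∀ t ∈ Ico 0 T', ∀ x, Good m N (f t x) := fun t ht => (hUG t ht).2
  have h0T : (0 : ℝ) ∈ Ico 0 T' := ⟨le_rfl, hT'0⟩
  have hS0 : Pool.Agent.H15.AV.Slice (f 0) := sol_slice hfc' h0T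
  -- moments
  have hmom := lt_sum hc₁ (i := kk + 1) (fun t ht => hfc'.nonneg t ht) (hg₁ T' f hf' hG)
  have hmJ := hmom J (by rw [hT']; linarith)
  have hA1 : ∑ n ∈ Finset.range J, (∫ r in (3 * (n : ℝ))..(3 * (n : ℝ) + 1), mo (kk + 2) (f r)) ≤ A * J := by
    have e1 : kk + 1 + 2 = kk + 3 := by omega
    have e2 : kk + 1 + 1 = kk + 2 := by omega
    rw [e1, e2] at hmJ
    have h3 := hM₀ (f 0) hS0 hB
    have h4 : 0 ≤ mo (kk + 3) (f (3 * (J : ℝ))) :=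
      mo_nonneg _ (hfc'.nonneg _ ⟨by positivity, by rw [hT']; linarith⟩)
    have h5 : |M₀| ≤ |M₀| * J := le_mul_of_one_le_right (abs_nonneg _) (by exact_mod_cast hJ1)
    have h6 : c₁ * ∑ n ∈ Finset.range J, (∫ r in (3 * (n : ℝ))..(3 * (n : ℝ) + 1), mo (kk + 2) (f r)) ≤
        (|M₀| + 3 * C₁ + 1) * J := by
      have h7 := le_abs_self M₀
      nlinarith
    rw [hA, div_mul_eq_mul_div, le_div_iff₀ hc₁]
    linarith
  -- dissipation
  obtain ⟨δ, hδ, hD⟩ : ∃ δ ∈ Ioc (0 : ℝ) δ₀, ∀ n < J,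
      (∀ t ∈ Icc (3 * (n : ℝ) + 2) (3 * (n : ℝ) + 3), ∀ x, 0 ≤ DL γ δ (f t x)) ∧
      (∀ t ∈ Icc (3 * (n : ℝ) + 2) (3 * (n : ℝ) + 3), Integrable (fun x => DL γ δ (f t x)) (muD d)) ∧
      IntervalIntegrable (fun t => ∫ x, DL γ δ (f t x) ∂(muD d)) volume (3 * (n : ℝ) + 2) (3 * (n : ℝ) + 3) ∧
      ∫ t in (3 * (n : ℝ) + 2)..(3 * (n : ℝ) + 3), ∫ x, DL γ δ (f t x) ∂(muD d) ≤
        RE a k u (f (3 * (n : ℝ) + 2)) - RE a k u (f (3 * (n : ℝ) + 3)) + 1 / J := by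
    have h3 : ∀ n ∈ Finset.range J, ∀ᶠ δ in 𝓝[>] (0 : ℝ),
      (∀ t ∈ Icc (3 * (n : ℝ) + 2) (3 * (n : ℝ) + 3), ∀ x, 0 ≤ DL γ δ (f t x)) ∧
      (∀ t ∈ Icc (3 * (n : ℝ) + 2) (3 * (n : ℝ) + 3), Integrable (fun x => DL γ δ (f t x)) (muD d)) ∧
      IntervalIntegrable (fun t => ∫ x, DL γ δ (f t x) ∂(muD d)) volume (3 * (n : ℝ) + 2) (3 * (n : ℝ) + 3) ∧
      ∫ t in (3 * (n : ℝ) + 2)..(3 * (n : ℝ) + 3), ∫ x, DL γ δ (f t x) ∂(muD d) ≤
        RE a k u (f (3 * (n : ℝ) + 2)) - RE a k u (f (3 * (n : ℝ) + 3)) + 1 / J := by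
      intro n hn
      have hn' : ((n : ℝ) + 1) ≤ J := by exact_mod_cast Finset.mem_range.1 hn
      have hn0 : (0 : ℝ) ≤ n := Nat.cast_nonneg n
      obtain ⟨δ₁, hδ₁, h4⟩ := hE a k ha hk u T' f hf' (3 * (n : ℝ) + 2) (3 * (n : ℝ) + 3) (by positivity)
        (by linarith) (by rw [hT']; linarith) (1 / J) (by positivity)
      filter_upwards [Ioc_mem_nhdsGT hδ₁] with δ hδ using h4 δ hδ
    have h5 := (Filter.eventually_all_finset (Finset.range J)).2 h3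
    have h6 : ∀ᶠ δ in 𝓝[>] (0 : ℝ), δ ∈ Ioc (0 : ℝ) δ₀ := Ioc_mem_nhdsGT hδ₀
    obtain ⟨δ, h7, h8⟩ := (h5.and h6).exists
    exact ⟨δ, h8, fun n hn => h7 n (Finset.mem_range.2 hn)⟩
  have hB1 : ∑ n ∈ Finset.range J, (∫ t in (3 * (n : ℝ) + 2)..(3 * (n : ℝ) + 3),
      ∫ x, DL γ δ (f t x) ∂(muD d)) ≤ Bd := by
    have h3 := lt_dis (T := T') (R := fun t => RE a k u (f t)) (η := 1 / J)
      (D := fun n => ∫ t in (3 * (n : ℝ) + 2)..(3 * (n : ℝ) + 3), ∫ x, DL γ δ (f t x) ∂(muD d))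
      (fun s t hs hst ht => lt_RE hd h1 h2 ha hk u hf' hs hst ht) J (by rw [hT']; linarith)
      (fun n hn => (hD n hn).2.2.2) (J - 1) (by omega)
    have e1 : J - 1 + 1 = J := by omega
    have e2 : ((J - 1 : ℕ) : ℝ) + 1 = J := by
      have : ((J - 1 + 1 : ℕ) : ℝ) = J := by rw [e1]
      push_cast at this
      exact this
    rw [e1, e2, mul_one_div_cancel hJ0.ne'] at h3
    have h4 : 0 ≤ RE a k u (f (3 * ((J - 1 : ℕ) : ℝ) + 3)) := by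
      refine re_nonneg ha hk u _ (hfc'.nonneg _ ⟨by positivity, ?_⟩)
      rw [hT']
      linarith
    have h5 := hCR (f 0) hS0 hB
    have h6 := le_abs_self CR
    rw [hBd]
    linarith
  obtain ⟨n, hnJ, hn1, hn2⟩ := win hJ1 (a := fun n => ∫ r in (3 * (n : ℝ))..(3 * (n : ℝ) + 1), mo (kk + 2) (f r))
    (D := fun n => ∫ t in (3 * (n : ℝ) + 2)..(3 * (n : ℝ) + 3), ∫ x, DL γ δ (f t x) ∂(muD d))
    (fun n hn => by
      have hn' : ((n : ℝ) + 1) ≤ J := by exact_mod_cast hn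
      have hn0 : (0 : ℝ) ≤ n := Nat.cast_nonneg n
      exact intervalIntegral.integral_nonneg (by linarith) fun r hr =>
        mo_nonneg _ (hfc'.nonneg _ ⟨by linarith [hr.1], by rw [hT']; linarith [hr.2]⟩))
    (fun n hn => intervalIntegral.integral_nonneg (by linarith) fun r hr =>
        integral_nonneg fun x => (hD n hn).1 r hr x) hA0 hBd0 hA1 hB1
  obtain ⟨hDa, hDb, hDc, -⟩ := hD n hnJ
  have hn' : ((n : ℝ) + 1) ≤ J := by exact_mod_cast hnJ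
  have hn0 : (0 : ℝ) ≤ n := Nat.cast_nonneg n
  -- sup bound
  obtain ⟨τ, hτ, hτm⟩ := lt_tau hf' (kk + 2) (s := 3 * (n : ℝ)) (by positivity) (by rw [hT']; linarith)
  have hτA : mo (kk + 2) (f τ) ≤ 3 * A := hτm.trans hn1
  have hτ0 : 0 ≤ τ := by linarith [hτ.1]
  have hff : IsLandauSol γ (3 * (n : ℝ) + 4 - τ) (fun t => f (τ + t)) := by
    have h3 : IsClassicalSol (T' - τ) (fun t x => landauQ γ (f (τ + t) x)) (fun t => f (τ + t)) :=
      sol_shift hfc' hτ0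
    exact sol_restrict h3 (by rw [hT']; linarith)
  have hmem : ∀ t ∈ Ico 0 (3 * (n : ℝ) + 4 - τ), τ + t ∈ Ico 0 T' := fun t ht =>
    ⟨by linarith [ht.1], by rw [hT']; linarith [ht.2]⟩
  have hsb : ∀ t ∈ Icc (3 * (n : ℝ) + 3 / 2) (3 * (n : ℝ) + 3), ∀ x v, f t x v ≤ S₁ * Wp (d + 10) v := by
    intro t ht x v
    have h3 := hsa (3 * (n : ℝ) + 4 - τ) (fun t => f (τ + t)) hff (fun t ht => hG _ (hmem t ht))
      (fun t ht => by
        have h4 := hg₂ T' f hf' hG τ (τ + t) hτ0 (by linarith [ht.1]) (hmem t ht).2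
        have h5 : 0 ≤ c₂ * ∫ r in τ..(τ + t), mo (kk + 1) (f r) :=
          mul_nonneg hc₂.le (intervalIntegral.integral_nonneg (by linarith [ht.1]) fun r hr =>
            mo_nonneg _ (hfc'.nonneg _ ⟨by linarith [hr.1], lt_of_le_of_lt hr.2 (hmem t ht).2⟩))
        have h6 : mo kk (f (τ + t)) ≤ mo (kk + 2) (f (τ + t)) :=
          mo_mono (by omega) (sol_slice hfc' (hmem t ht))
        have h7 : C₂ * (τ + t - τ) ≤ C₂ * 4 :=
          mul_le_mul_of_nonneg_left (by linarith [ht.2, hτ.1]) hC₂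
        rw [hX]
        linarith)
      (fun t ht x v => hK₁ (f (τ + t)) (hfc'.nonneg _ (hmem t ht)) (hUG _ (hmem t ht)).1 x v)
      (fun t ht => hNHm κa hκ1 _ (hmem t ht)) (t - τ) ⟨by linarith [ht.1, hτ.2], by linarith [ht.2]⟩ x v
    have e1 : τ + (t - τ) = t := by ring
    simp only [e1] at h3
    refine h3.trans (mul_le_mul_of_nonneg_right ?_ (Wp_pos _ _).le)
    rw [hS₁]
    have h4 : 1 / 2 ≤ t - τ := by linarith [ht.1, hτ.2]
    have h5 : 1 / (t - τ) ≤ 2 := by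
      rw [div_le_iff₀ (by linarith)]
      linarith
    have h6 : 0 ≤ 1 / (t - τ) := by
      have : 0 < t - τ := by linarith
      positivity
    exact mul_le_mul_of_nonneg_left (pow_le_pow_left₀ (by linarith) (by linarith) d) (by linarith)
  -- the time and the position
  have e23 : 3 * (n : ℝ) + 3 = 3 * (n : ℝ) + 2 + 1 := by ring
  obtain ⟨r, hr, hrD⟩ : ∃ r ∈ Ioo (3 * (n : ℝ) + 2) (3 * (n : ℝ) + 3), ∫ x, DL γ δ (f r x) ∂(muD d) ≤ ε₁ := by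
    rw [e23] at hDc ⊢
    refine lt_r hε₁ hDc ?_
    rw [← e23]
    exact hn2.trans hJε
  have : IsProbabilityMeasure (muD d) := ⟨Pool.Agent.H48.PL.muD_univ⟩
  obtain ⟨x₀, hx₀⟩ := exists_le_integral (hDb r ⟨hr.1.le, hr.2.le⟩)
  have hrT : r ∈ Ico 0 T' := ⟨by linarith [hr.1], by rw [hT']; linarith [hr.2]⟩
  have hrI : r ∈ Icc (3 * (n : ℝ) + 3 / 2) (3 * (n : ℝ) + 3) := ⟨by linarith [hr.1], hr.2.le⟩
  have hSr : Pool.Agent.H15.AV.Slice (f r) := sol_slice hfc' hrT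
  have hmdr : md (f r x₀) (mx a k u) ≤ ι₀ := by
    have h3 := hCn κ (f r) hκ.le hSr (hNH r hrT) x₀
    rw [mdT_tL hd h1 h2.le hf' hrT] at h3
    linarith
  have hL1 := hsl δ hδ (f r x₀) (IsClassicalSol.nice hfc' ⟨by linarith [hr.1], hrT.2⟩ x₀)
    (hfc'.nonneg r hrT x₀) (hsb r hrI x₀) (hG r hrT x₀).mass hmdr (hx₀.trans hrD)
  have hL1x : ∀ x, ∫ v, |f r x v - mx a k u v| ≤ e := fun x => by
    have h3 := hCl κ (f r) hκ.le hSr (hNH r hrT) x x₀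
    linarith
  have hmem2 : ∀ t ∈ Icc (r - 1 / 2) r, t ∈ Ico 0 T' ∧ t ∈ Icc (3 * (n : ℝ) + 3 / 2) (3 * (n : ℝ) + 3) :=
    fun t ht => ⟨⟨by linarith [ht.1, hr.1], ht.2.trans_lt hrT.2⟩, by linarith [ht.1, hr.1], ht.2.trans hr.2.le⟩
  refine ⟨r, ⟨by linarith [hr.1], by linarith [hr.2]⟩, ?_⟩
  exact hl1 T' f hf' r (by linarith [hr.1]) hrT.2 (fun t ht => hG t (hmem2 t ht).1)
    (fun t ht => hsb t (hmem2 t ht).2) (fun t ht => hNHm κ₀ hκ2 t (hmem2 t ht).1) hL1x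

end Pool.Agent.H37.LN
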