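import Pool.Agent.H37.LN.LateL
import Pool.Agent.H37.LN.DatL
import Pool.Agent.H37.GH.Boot
import Pool.Agent.H37.GH.Dat
import Pool.Agent.H48.CV.EqmE
import Pool.Agent.H48.LN.NearB

/-!
# Module MainL: nearly homogeneous solutions of the Landau equation, assembled
-/

set_option autoImplicit false

open MeasureTheory Set Filter Topology Pool.Agent.H25.Kin Pool.Agent.H48.PR
open Pool.Agent.H15.AV (Good Slice sol_slice)
open Pool.Agent.H48.NE (mx)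
open Pool.Agent.H48.CV (EqM eqm_exists)
open Pool.Agent.H48.LN (KMod near_L)
open Pool.Agent.H48.PI (sol_shift sol_restrict)

namespace Pool.Agent.H37.LN

variable {d : ℕ} {γ : ℝ}

private lemma mainL_nu (φ : Vec d → ℝ) : ∫ q, φ q.1 ∂(nu d) = ∫ v, φ v := by
  unfold nu
  rw [integral_fun_fst]
  simp [Measure.real, Pool.Agent.H48.PL.muD_univ]

theorem g_coreL (hK : KMod d) (hP : PrpL d γ) (hSl : SliceL d γ) (hE : EntL d γ) (hQ : QHL d γ)
    (hd : 2 ≤ d) (h1 : -2 < γ) (h2 : γ < 0) {F : Vec d → ℝ} (hF : Slice (fun _ : Vec d => F))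
    (hm : 0 < ∫ v, F v)
    (hL : ∀ N : ℕ, ∃ L : ℝ, ∀ v w : Vec d, ‖v - w‖ ≤ 1 → (1 + ‖v‖) ^ N * |F v - F w| ≤ L * ‖v - w‖)
    (B : ℕ → ℝ) : ∃ ε > 0, ∃ U : ℕ → ℝ, ∃ m₁ > 0,
      ∀ (T : ℝ) (f : ℝ → Vec d → Vec d → ℝ), IsLandauSol γ T f → DC B (f 0) →
      (∀ x v, |f 0 x v - F v| ≤ ε) →
      ∀ t ∈ Ico 0 T, DC U (f t) ∧ ∀ x, m₁ ≤ ∫ v, f t x v := by
  obtain ⟨a, k, u, hEq⟩ := eqm_exists (by omega) hF (by
    rw [mainL_nu F]
    exact hm)
  have ha := hEq.ha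
  have hk := hEq.hk
  have hE1 : ∫ v, F v = ∫ v, mx a k u v := by rw [← hEq.mass, mainL_nu F]
  have hE2 : ∀ i, ∫ v, F v * v i = ∫ v, mx a k u v * v i := fun i => by
    rw [← hEq.mom i, mainL_nu fun v => F v * v i]
  have hE3 : ∫ v, F v * nsq v = ∫ v, mx a k u v * nsq v := by
    rw [← hEq.ene, mainL_nu fun v => F v * nsq v]
  obtain ⟨m, hmd⟩ : ∃ m : ℝ, m = (∫ v, F v) / 2 := ⟨_, rfl⟩
  have hm0 : 0 < m := by rw [hmd]; positivity
  obtain ⟨N, hN⟩ := nsup_L hK hP hd h1 h2 B hm0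
  obtain ⟨ε', hε', hne⟩ := near_L hK hd h1 h2.le (le_refl (d + 3)) ha hk u
  obtain ⟨ι, hι, J, hJ, hlate⟩ := late_L hK hSl hE hd h1 h2 B (half_pos hm0) N ha hk u hε'
  obtain ⟨T₀, hT₀⟩ : ∃ T₀ : ℝ, T₀ = 3 * (J : ℝ) + 1 := ⟨_, rfl⟩
  obtain ⟨κ₁, hκ₁, U, hU⟩ := hN T₀
  obtain ⟨U', m', hm', hne⟩ := hne U
  obtain ⟨κ₂, hκ₂, hlate⟩ := hlate U
  rw [← hT₀] at hlate
  obtain ⟨κ, hκ, hκa, hκb⟩ : ∃ κ : ℝ, 0 < κ ∧ κ ≤ κ₁ ∧ κ ≤ κ₂ :=
    ⟨min κ₁ κ₂, lt_min hκ₁ hκ₂, min_le_left _ _, min_le_right _ _⟩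
  obtain ⟨Γ₀, hΓ0, hΓ⟩ := dat_L hF hL B
  obtain ⟨K, hK0, hqh⟩ := hQ U (m / 2) N (half_pos hm0) T₀ Γ₀
  obtain ⟨δ, hδ, hδ1, hδK, hδκ⟩ : ∃ δ : ℝ, 0 < δ ∧ δ ≤ 1 ∧ K * δ ≤ κ / 2 ∧ δ ≤ κ / 2 := by
    refine ⟨min 1 (κ / 2 / (K + 1)), lt_min one_pos (by positivity), min_le_left _ _, ?_, ?_⟩
    · calc K * min 1 (κ / 2 / (K + 1)) ≤ K * (κ / 2 / (K + 1)) :=
            mul_le_mul_of_nonneg_left (min_le_right _ _) hK0
        _ ≤ κ / 2 := by
            rw [mul_div_assoc', div_le_iff₀ (by positivity)]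
            nlinarith
    · refine (min_le_right _ _).trans ?_
      exact div_le_self (by positivity) (by linarith)
  obtain ⟨εa, hεa, hda⟩ := hΓ δ hδ
  obtain ⟨εb, hεb, hdb⟩ := Pool.Agent.H37.GH.dat_m hF B hE1 hE2 hE3 (lt_min hι hm0)
  refine ⟨min εa εb, lt_min hεa hεb, fun N => max (U N) (U' N), min (m / 2) m',
    lt_min (half_pos hm0) hm', fun T f hf hB hfF t ht => ?_⟩
  have hfc : IsClassicalSol T (fun t x => landauQ γ (f t x)) f := hf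
  have hT0 : 0 < T := ht.1.trans_lt ht.2
  have hS0 : Slice (f 0) := sol_slice hfc ⟨le_rfl, hT0⟩
  have hq := hda (f 0) hS0 hB (fun x v => (hfF x v).trans (min_le_left _ _))
  have hmT : mdT (f 0) (mx a k u) ≤ min ι m :=
    hdb (f 0) hS0 hB (fun x v => (hfF x v).trans (min_le_right _ _))
  have hmass : m ≤ ∫ q, f 0 q.2 q.1 ∂(nu d) := by
    have h3 : |(∫ q, f 0 q.2 q.1 ∂(nu d)) - ∫ v, mx a k u v| ≤ mdT (f 0) (mx a k u) := by
      unfold mdT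
      have h4 : 0 ≤ ∑ i, |(∫ q, f 0 q.2 q.1 * q.1 i ∂(nu d)) - ∫ v, mx a k u v * v i| :=
        Finset.sum_nonneg fun i _ => abs_nonneg _
      have h5 := abs_nonneg ((∫ q, f 0 q.2 q.1 * nsq q.1 ∂(nu d)) - ∫ v, mx a k u v * nsq v)
      linarith
    have h4 := (abs_le.1 (h3.trans (hmT.trans (min_le_right _ _)))).1
    rw [← hE1] at h4
    rw [hmd] at h4 ⊢
    linarith
  have hW : ∀ v : Vec d, Wp (d + 12) v ≤ Wp (d + 10) v := fun v => wp_anti (by omega) v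
  have hz : NH (κ / 2) (f 0) := by
    have h3 : ∀ x y v : Vec d, f 0 x v - f 0 y v ≤ κ / 2 * Wp (d + 10) v := by
      intro x y v
      have h4 := hq x y v v
      have h5 : len (v - v) = 0 := by
        unfold len nsq
        simp
      rw [h5, min_eq_right zero_le_one, mul_zero, zero_mul, add_zero] at h4
      calc f 0 x v - f 0 y v ≤ δ * Wp (d + 12) v := h4
        _ ≤ κ / 2 * Wp (d + 10) v := mul_le_mul hδκ (hW v) (Wp_pos _ _).le (by positivity)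
    intro x y v
    exact abs_le.2 ⟨by linarith [h3 y x v], h3 x y v⟩
  have hnh : ∀ t ∈ Ico 0 T, t < T₀ → NH κ (f t) := by
    refine Pool.Agent.H37.GH.osc_boot hfc hκ hz fun T' hT' hT'T hT'L hNN => ?_
    have hf' : IsLandauSol γ T' f := sol_restrict hfc hT'T
    have h3 := hU T' hT'L f hf' hB hmass fun t ht x y v =>
      (hNN t ht x y v).trans (mul_le_mul_of_nonneg_right hκa (Wp_pos _ _).le)
    have h4 := hqh δ ⟨hδ, hδ1⟩ T' hT'L f hf' (fun t ht => (h3 t ht).1) (fun t ht => (h3 t ht).2) hq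
    intro t ht x y v
    calc |f t x v - f t y v| ≤ K * δ * Wp (d + 12) v := h4 t ht x y v
      _ ≤ κ / 2 * Wp (d + 10) v := mul_le_mul hδK (hW v) (Wp_pos _ _).le (by positivity)
  have hearly : ∀ t ∈ Ico 0 T, t < T₀ → DC U (f t) ∧ ∀ x, Good (m / 2) N (f t x) := by
    intro t ht htL
    have hf' : IsLandauSol γ (min T T₀) f := sol_restrict hfc (min_le_left _ _)
    exact hU _ (min_le_right _ _) f hf' hB hmass (fun r hr x y v =>
      (hnh r ⟨hr.1, hr.2.trans_le (min_le_left _ _)⟩ (hr.2.trans_le (min_le_right _ _)) x y v).trans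
        (mul_le_mul_of_nonneg_right hκa (Wp_pos _ _).le)) t ⟨ht.1, lt_min ht.2 htL⟩
  rcases lt_or_ge t T₀ with htL | htL
  · obtain ⟨h3, h4⟩ := hearly t ht htL
    exact ⟨fun N x v => (h3 N x v).trans (le_max_left _ _), fun x => (min_le_left _ _).trans (h4 x).mass⟩
  · have hLT : T₀ < T := htL.trans_lt ht.2
    have hsub : ∀ r ∈ Ico 0 T₀, r ∈ Ico 0 T := fun r hr => ⟨hr.1, hr.2.trans hLT⟩
    obtain ⟨r, hr, hr1⟩ := hlate T f hf hLT hB (fun r hr => hearly r (hsub r hr) hr.2)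
      (fun r hr x y v => (hnh r (hsub r hr) hr.2 x y v).trans
        (mul_le_mul_of_nonneg_right hκb (Wp_pos _ _).le)) (hmT.trans (min_le_left _ _))
    have hr3 : r ∈ Ico 0 T₀ := ⟨hr.1.le, by rw [hT₀]; linarith [hr.2]⟩
    have hg : IsLandauSol γ (T - r) (fun t => f (r + t)) := sol_shift hfc hr3.1
    have h3 := hne (T - r) _ hg (fun N x v => by
      simp only [add_zero]
      exact (hearly _ (hsub _ hr3) hr3.2).1 N x v) (fun x v => by
      simp only [add_zero]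
      exact hr1 x v) (t - r) ⟨by linarith [hr3.2], by linarith [ht.2]⟩
    have e : r + (t - r) = t := by ring
    simp only [e] at h3
    exact ⟨fun N x v => ((h3 x).1 N v).trans (le_max_right _ _), fun x => (min_le_right _ _).trans (h3 x).2⟩

end Pool.Agent.H37.LN
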