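import Pool.Agent.H37.LN.Defs

/-!
# Module MoD: time derivative of a total moment

Copy of `mom_hasDerivAt` and `mom_cont` (H25/Kin/Trans, with the position factor `1`) without the hypothesis that the moment of `Q` vanishes: `∂_t f = -v·∇_x f + Q` and the `x` integral of `v·∇_x f` over a period vanishes. There the derivative of
`∫∫ c p f` is computed first as `∫∫ c p ∂_t f` (dominated convergence with `decay12`) and then the transport term is integrated by parts; the term with `Q` is `∫_x c (∫_v p Q) dx`, which is zero there and stays here (`nu` is the product `volume × muD`, `f` and `Q` are at `(x, v) = (q.2, q.1)`;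
`integral_prod_symm`, integrability of `Q p`: `hf.Q_le`).
-/

set_option autoImplicit false

open MeasureTheory Set Filter Topology Pool.Agent.H25.Kin Pool.Agent.H48.PR

namespace Pool.Agent.H37.LN

variable {d : ℕ} {T : ℝ} {Q f : ℝ → Vec d → Vec d → ℝ}

private lemma MoD_pos : Pos (fun _ : Vec d => (1 : ℝ)) 1 := by
  refine ⟨fun x i => rfl, contDiff_const, fun x => by simp, fun x => ?_⟩
  rw [fderiv_const_apply, norm_zero]
  exact zero_le_one

private lemma MoD_eq (p : Vec d → ℝ) (t : ℝ) :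
    mom (fun _ => 1) p f t = ∫ q, f t q.2 q.1 * p q.1 ∂(nu d) := by
  unfold mom
  refine integral_congr_ae (Eventually.of_forall fun q => ?_)
  simp only
  ring

private lemma MoD_per (hf : IsClassicalSol T Q f) {s : ℝ} (hs : s ∈ Ioo 0 T) (v x : Vec d)
    (i : Fin d) : Q s (x + Pi.single i 1) v = Q s x v := by
  have hd : ∀ y, Q s y v = fderiv ℝ (unc f) (s, y, v) (1, v, 0) := fun y =>
    (hf.eqn s hs y v).symm
  rw [hd, hd]
  congr 1
  have e4 : (fun z : ℝ × Vec d × Vec d => unc f (z + (0, Pi.single i 1, 0))) =ᶠ[𝓝 (s, x, v)]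
      unc f := by
    have hop : {z : ℝ × Vec d × Vec d | z.1 ∈ Ioo 0 T} ∈ 𝓝 (s, x, v) :=
      (isOpen_Ioo.preimage continuous_fst).mem_nhds hs
    filter_upwards [hop] with z hz
    have := hf.periodic z.1 ⟨hz.1.le, hz.2⟩ z.2.1 z.2.2 i
    simpa [unc] using this
  have e5 := e4.fderiv_eq (𝕜 := ℝ)
  rw [fderiv_comp_add_right] at e5
  have e6 : (s, x, v) + ((0 : ℝ), (Pi.single i 1 : Vec d), (0 : Vec d)) =
      (s, x + Pi.single i 1, v) := by simp
  rw [e6] at e5
  exact e5

theorem mo_hasDeriv (hf : IsClassicalSol T Q f) {p : Vec d → ℝ} (hp : PG p) (hpc : Continuous p)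
    {s : ℝ} (hs : s ∈ Ioo 0 T) :
    Integrable (fun x => ∫ v, Q s x v * p v) (muD d) ∧
    HasDerivAt (fun t => ∫ q, f t q.2 q.1 * p q.1 ∂(nu d))
      (∫ x, (∫ v, Q s x v * p v) ∂(muD d)) s := by
  obtain ⟨m, P, hP0, hP⟩ := hp.pos
  have hT1 : (s + T) / 2 < T := by linarith [hs.2]
  have hT0 : 0 < s / 2 := by linarith [hs.1]
  obtain ⟨D, hD0, hD⟩ := hf.Q_le hT0 hT1 (m + (d + 1))
  obtain ⟨C2, hC20, hC2⟩ := mom_bound (A := 1) (c := fun _ : Vec d => (1 : ℝ)) (T₁ := s)
    (fun x => by simp) hp hf hs.2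
  have hnhds : Ioo (s / 2) ((s + T) / 2) ∈ 𝓝 s :=
    Ioo_mem_nhds (by linarith [hs.1]) (by linarith [hs.2])
  have hsub : ∀ r ∈ Ioo (s / 2) ((s + T) / 2), r ∈ Ioo 0 T := fun r hr =>
    ⟨by linarith [hr.1, hs.1], by linarith [hr.2, hs.2]⟩
  have hpm : ∀ v : Vec d, |p v| ≤ P * (1 + ‖v‖) ^ m := fun v => by
    have := hP v; rwa [Real.norm_eq_abs] at this
  set F : ℝ → Vec d × Vec d → ℝ := fun t q => p q.1 * f t (q.2 + t • q.1) q.1 with hF
  set F' : ℝ → Vec d × Vec d → ℝ := fun t q => p q.1 * Q t (q.2 + t • q.1) q.1 with hF'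
  have b2 : ∀ t ∈ Icc (s / 2) ((s + T) / 2), ∀ x v : Vec d,
      |p v * Q t x v| ≤ P * D * wt d v := by
    intro t ht x v
    have hv := w_pos v
    rw [abs_mul]
    calc |p v| * |Q t x v|
        ≤ (P * (1 + ‖v‖) ^ m) * (D * ((1 + ‖v‖) ^ (m + (d + 1)))⁻¹) := by
          gcongr
          · exact hpm v
          · exact hD t ht x v
      _ = P * D * wt d v := by rw [wt_bound hP0 hD0]
  have contF : ∀ t ∈ Ico 0 T, Continuous (F t) := by
    intro t ht
    have h1 : Continuous fun q : Vec d × Vec d => f t (q.2 + t • q.1) q.1 :=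
      (hf.cont_slice ht).comp (shear_cont t)
    exact (hpc.comp continuous_fst).mul h1
  have contG2 : Continuous fun q : Vec d × Vec d => p q.1 * Q s q.2 q.1 := by
    have h1 : Continuous fun q : Vec d × Vec d => Q s q.2 q.1 :=
      (hf.cont_Q hs).comp (by fun_prop : Continuous fun q : Vec d × Vec d => (q.2, q.1))
    exact (hpc.comp continuous_fst).mul h1
  have hs' : s ∈ Icc (s / 2) ((s + T) / 2) := ⟨by linarith [hs.1], by linarith [hs.2]⟩
  have i2 : Integrable (fun q : Vec d × Vec d => p q.1 * Q s q.2 q.1) (nu d) :=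
    integrable_nu contG2.aestronglyMeasurable fun q => b2 s hs' q.2 q.1
  have hin : ∀ x : Vec d, ∫ v, p v * Q s x v = ∫ v, Q s x v * p v := fun x =>
    integral_congr_ae (Eventually.of_forall fun v => mul_comm _ _)
  refine ⟨?_, ?_⟩
  · have h := i2.integral_prod_right
    refine h.congr (Eventually.of_forall fun x => ?_)
    exact hin x
  have main := (hasDerivAt_integral_of_dominated_loc_of_deriv_le (μ := nu d)
    (F := F) (F' := F') (bound := fun q => (P * D) * wt d q.1) (x₀ := s)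
    hnhds ?_ ?_ ?_ ?_ ?_ ?_).2
  · have e1 : (fun t => ∫ q, f t q.2 q.1 * p q.1 ∂(nu d)) =ᶠ[𝓝 s] fun t => ∫ q, F t q ∂(nu d) := by
      filter_upwards [hnhds] with t ht
      have ht' := hsub t ht
      rw [← MoD_eq, mom_eq_shear MoD_pos hp hpc hf ⟨ht'.1.le, ht'.2⟩]
      refine integral_congr_ae (Eventually.of_forall fun q => ?_)
      simp only [hF, one_mul]
    have main2 := main.congr_of_eventuallyEq e1
    refine main2.congr_deriv ?_
    have e2 : ∫ q, F' s q ∂(nu d) = ∫ q, p q.1 * Q s q.2 q.1 ∂(nu d) := by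
      refine shear_nu (G := fun q => p q.1 * Q s q.2 q.1) contG2 (C := P * D) ?_ ?_ s
      · intro q
        exact b2 s hs' q.2 q.1
      · intro v x i
        simp only
        rw [MoD_per hf hs]
    rw [e2]
    unfold nu
    rw [integral_prod_symm _ (by exact i2)]
    refine integral_congr_ae (Eventually.of_forall fun x => ?_)
    exact hin x
  · filter_upwards [hnhds] with t ht
    have ht' := hsub t ht
    exact (contF t ⟨ht'.1.le, ht'.2⟩).aestronglyMeasurable
  · refine integrable_nu (C := C2) (contF s ⟨hs.1.le, hs.2⟩).aestronglyMeasurable fun q => ?_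
    have h := hC2 s ⟨hs.1.le, le_refl _⟩ (q.2 + s • q.1) q.1 0
    simpa only [hF, one_mul] using h
  · have h1 : Continuous fun q : Vec d × Vec d => (q.1, q.2 + s • q.1) := by fun_prop
    exact (contG2.comp h1).aestronglyMeasurable
  · refine Eventually.of_forall fun q t ht => ?_
    have ht' : t ∈ Icc (s / 2) ((s + T) / 2) := ⟨ht.1.le, ht.2.le⟩
    rw [Real.norm_eq_abs, hF']
    exact b2 t ht' _ _
  · exact ((integrable_wt (d := d)).comp_fst (muD d)).const_mul _
  · refine Eventually.of_forall fun q t ht => ?_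
    have ht' := hsub t ht
    exact (hf.hasDerivAt_char ht' q.2 q.1).const_mul (p q.1)

theorem mo_cont (hf : IsClassicalSol T Q f) {p : Vec d → ℝ} (hp : PG p) (hpc : Continuous p) :
    ContinuousOn (fun t => ∫ q, f t q.2 q.1 * p q.1 ∂(nu d)) (Ico 0 T) := by
  have e : (fun t => ∫ q, f t q.2 q.1 * p q.1 ∂(nu d)) = mom (fun _ => 1) p f :=
    funext fun t => (MoD_eq p t).symm
  rw [e]
  intro s hs
  have h1 : (s + T) / 2 < T := by linarith [hs.2]
  have h2 := mom_cont MoD_pos hp hpc hf h1 s ⟨hs.1, by linarith [hs.2]⟩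
  refine h2.mono_of_mem_nhdsWithin ?_
  have h3 : Iio ((s + T) / 2) ∈ 𝓝 s := Iio_mem_nhds (by linarith [hs.2])
  filter_upwards [mem_nhdsWithin_of_mem_nhds h3, self_mem_nhdsWithin] with t ht ht2
  exact ⟨ht2.1, le_of_lt ht⟩

end Pool.Agent.H37.LN
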