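import Pool.Agent.H37.LN.Defs

/-!
# Module PhS: pointwise inequality for the symmetrised kernel

Write `z = v - w`, `V = nsq v`, `W = nsq w`, `A(v) = (1+V)^(i+1)`. `nsq z = V + W - 2 dot v w`, `dot z v = V - dot v w`, `dot z w = dot v w - W`.
`ph_sym`: ring identity (`nsq (w-v) = nsq (v-w)`, `dot w v = dot v w`): `(d-1)|z|²(A+A') - 2(d-1)(z·(Av - A'w)) = -(d-1)(A-A')(V-W)`.
`ph_le`. Let `W ≤ V` (otherwise exchange `v` and `w`: both sides are symmetric). Put `D2 = V W - (dot v w)² ≥ 0` (Cauchy-Schwarz), `D2 ≤ nsq z * W` (`= |z∧w|²`, Cauchy-Schwarz for `z, w`: `D2 = nsq z * W - (dot z w)²`), `D2 ≤ V W`.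
(a) Positive part `P = 2(i+2) nsq z^(γ/2) · 2(i+1) D2 ((1+V)^i + (1+W)^i) ≤ C₁ W (1+V)^(i+1+γ/2)` (real exponent; `(1+V)^i * (1+V)^(1+γ/2)`): if `nsq z ≥ V/4` (and `V > 0`) then `nsq z^(γ/2) ≤ (V/4)^(γ/2) = 4^(-γ/2) V^(γ/2)` and `D2 ≤ V W`, `V^(1+γ/2) ≤ (1+V)^(1+γ/2)`;
if `nsq z < V/4`, `z ≠ 0`: `nsq z^(γ/2) D2 ≤ nsq z^(1+γ/2) W ≤ V^(1+γ/2) W` (`z = 0`: then `D2 = 0`). Here `0 < 1+γ/2 ≤ 1`.
(b) `(1+V)^(i+1+γ/2) ≤ (η/C₁) (1+V)^(i+1) + C₂`: `(1+V)^(γ/2) ≤ η/C₁` for `V` large (`γ < 0`), otherwise bounded.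
(c) Negative part `N = 2(i+2)(d-1) nsq z^(γ/2) (A-A')(V-W) ≥ 0`. If `W ≤ R` and `V ≥ 4(1+R)`: `A ≥ 2A'` (`1+V ≥ 2(1+W)`), `V-W ≥ V/2`, `0 < nsq z ≤ 2V+2W ≤ 4V`, `nsq z^(γ/2) ≥ (4V)^(γ/2)`, so `N ≥ 4 (4V)^(γ/2) (A/2)(V/2) ≥ 4^(γ/2) V^(1+γ/2) A ≥ 4^(γ/2) A ≥ A/4` (`V ≥ 1`, `γ > -2`). So `c = 1/8` works:
if `V ≤ R` too, both indicator terms are at most `c (1+4(1+R))^(i+1)`, bounded; they are absorbed by `C`.
-/

set_option autoImplicit false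

open MeasureTheory Set Filter Topology Pool.Agent.H25.Kin Pool.Agent.H48.PR

namespace Pool.Agent.H37.LN

variable {d : ℕ} {γ : ℝ}

theorem ph_sym (γ : ℝ) (i : ℕ) (v w : Vec d) : Ph γ i v w + Ph γ i w v =
    2 * ((i : ℝ) + 2) * nsq (v - w) ^ (γ / 2) *
      (-(((d : ℝ) - 1) * ((1 + nsq v) ^ (i + 1) - (1 + nsq w) ^ (i + 1)) * (nsq v - nsq w)) +
        2 * ((i : ℝ) + 1) * (nsq v * nsq w - dot v w ^ 2) * ((1 + nsq v) ^ i + (1 + nsq w) ^ i)) := by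
  have e1 : dot (v - w) v = nsq v - dot v w := by
    rw [dot_comm, dot_sub, dot_self]
  have e2 : dot (v - w) w = dot v w - nsq w := by
    rw [dot_comm, dot_sub, dot_self, dot_comm]
  have e3 : dot (w - v) w = nsq w - dot v w := by
    rw [dot_comm, dot_sub, dot_self, dot_comm]
  have e4 : dot (w - v) v = dot v w - nsq v := by
    rw [dot_comm, dot_sub, dot_self]
  have e5 : nsq (w - v) = nsq (v - w) := by
    rw [nsq_sub, nsq_sub, dot_comm]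
    ring
  unfold Ph
  rw [e1, e2, e3, e4, e5, dot_comm w v]
  generalize nsq (v - w) ^ (γ / 2) = Y
  rw [nsq_sub]
  ring

/-- `Z^(γ/2) D ≤ 4 V^(1+γ/2) W` -/
private lemma phs_a {γ V W Z D : ℝ} (h1 : -2 < γ) (h2 : γ < 0) (hW : 0 ≤ W) (hWV : W ≤ V)
    (hZ : 0 ≤ Z) (hDV : D ≤ V * W) (hDZ : D ≤ Z * W) (hD : 0 ≤ D) :
    Z ^ (γ / 2) * D ≤ 4 * ((1 + V) ^ (1 + γ / 2) * W) := by
  have hV : 0 ≤ V := hW.trans hWV
  have hg : 0 < 1 + γ / 2 := by linarith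
  have hmono : V ^ (1 + γ / 2) ≤ (1 + V) ^ (1 + γ / 2) :=
    Real.rpow_le_rpow hV (by linarith) hg.le
  have hnn : 0 ≤ (1 + V) ^ (1 + γ / 2) := Real.rpow_nonneg (by linarith) _
  have e1 : ∀ x : ℝ, 0 < x → x * x ^ (γ / 2) = x ^ (1 + γ / 2) := by
    intro x hx
    rw [Real.rpow_add hx, Real.rpow_one]
  rcases hV.eq_or_lt with h0 | h0
  · have hD0 : D = 0 := le_antisymm (by rw [← h0, zero_mul] at hDV; exact hDV) hD
    rw [hD0, mul_zero]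
    positivity
  by_cases hc : V / 4 ≤ Z
  · have hZ0 : 0 < Z := by linarith
    have h3 : Z ^ (γ / 2) ≤ 4 * V ^ (γ / 2) := by
      calc Z ^ (γ / 2) ≤ (V / 4) ^ (γ / 2) :=
            Real.rpow_le_rpow_of_nonpos (by positivity) hc (by linarith)
        _ = V ^ (γ / 2) / 4 ^ (γ / 2) := Real.div_rpow hV (by norm_num) _
        _ ≤ 4 * V ^ (γ / 2) := by
            have h4 : (1 / 4 : ℝ) ≤ 4 ^ (γ / 2) := by
              calc (1 / 4 : ℝ) = 4 ^ (-1 : ℝ) := by rw [Real.rpow_neg_one]; norm_num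
                _ ≤ 4 ^ (γ / 2) := Real.rpow_le_rpow_of_exponent_le (by norm_num) (by linarith)
            have h5 : 0 ≤ V ^ (γ / 2) := Real.rpow_nonneg hV _
            rw [div_le_iff₀ (by linarith)]
            nlinarith
    calc Z ^ (γ / 2) * D ≤ (4 * V ^ (γ / 2)) * (V * W) :=
          mul_le_mul h3 hDV hD (by positivity)
      _ = 4 * ((V * V ^ (γ / 2)) * W) := by ring
      _ = 4 * (V ^ (1 + γ / 2) * W) := by rw [e1 V h0]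
      _ ≤ 4 * ((1 + V) ^ (1 + γ / 2) * W) := by gcongr
  · push Not at hc
    have hle : Z ^ (γ / 2) * D ≤ (1 + V) ^ (1 + γ / 2) * W := by
      rcases hZ.eq_or_lt with hz | hz
      · have hD0 : D = 0 := le_antisymm (by rw [← hz, zero_mul] at hDZ; exact hDZ) hD
        rw [hD0, mul_zero]
        positivity
      · calc Z ^ (γ / 2) * D ≤ Z ^ (γ / 2) * (Z * W) :=
              mul_le_mul_of_nonneg_left hDZ (Real.rpow_nonneg hZ _)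
          _ = (Z * Z ^ (γ / 2)) * W := by ring
          _ = Z ^ (1 + γ / 2) * W := by rw [e1 Z hz]
          _ ≤ (1 + V) ^ (1 + γ / 2) * W := by
              refine mul_le_mul_of_nonneg_right ?_ hW
              exact Real.rpow_le_rpow hZ (by linarith) hg.le
    have h6 : 0 ≤ (1 + V) ^ (1 + γ / 2) * W := by positivity
    linarith

/-- small factor for large arguments -/
private lemma phs_b {γ η : ℝ} (h2 : γ < 0) (hη : 0 < η) : ∃ V₁ : ℝ, 1 ≤ V₁ ∧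
    ∀ x : ℝ, V₁ ≤ x → x ^ (γ / 2) ≤ η := by
  have h3 := (tendsto_rpow_neg_atTop (y := -(γ / 2)) (by linarith)).eventually
    (ge_mem_nhds hη)
  rw [neg_neg] at h3
  obtain ⟨a, ha⟩ := Filter.eventually_atTop.1 h3
  exact ⟨max 1 a, le_max_left _ _, fun x hx => ha x ((le_max_right _ _).trans hx)⟩

/-- the positive part -/
private lemma phs_pos {γ η V₁ V W Z D : ℝ} (i : ℕ) (h1 : -2 < γ) (h2 : γ < 0) (hη : 0 < η)
    (hV₁ : 1 ≤ V₁)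
    (hV : ∀ x : ℝ, V₁ ≤ x → x ^ (γ / 2) ≤ η / (32 * ((i : ℝ) + 2) * ((i : ℝ) + 1)))
    (hW : 0 ≤ W) (hwv : W ≤ V) (hZ : 0 ≤ Z) (hDV : D ≤ V * W) (hDZ : D ≤ Z * W) (hD : 0 ≤ D) :
    2 * ((i : ℝ) + 2) * Z ^ (γ / 2) * (2 * ((i : ℝ) + 1) * D * ((1 + V) ^ i + (1 + W) ^ i)) ≤
      W * (η * (1 + V) ^ (i + 1) + 32 * ((i : ℝ) + 2) * ((i : ℝ) + 1) * V₁ ^ (i + 1)) := by
  have hVn : 0 ≤ V := hW.trans hwv
  have ha := phs_a h1 h2 hW hwv hZ hDV hDZ hD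
  have hY : 0 ≤ Z ^ (γ / 2) := Real.rpow_nonneg hZ _
  have hc : 0 < 32 * ((i : ℝ) + 2) * ((i : ℝ) + 1) := by positivity
  have h3 : (1 + W) ^ i ≤ (1 + V) ^ i := pow_le_pow_left₀ (by linarith) (by linarith) _
  have h4 : 0 ≤ (1 + V) ^ i := by positivity
  have h4' : 0 ≤ (1 + W) ^ i := by positivity
  have h5 : 0 < 1 + V := by linarith
  have h6 : (1 + V) ^ i * (1 + V) ^ (1 + γ / 2) = (1 + V) ^ (i + 1) * (1 + V) ^ (γ / 2) := by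
    rw [Real.rpow_add h5, Real.rpow_one, pow_succ]
    ring
  obtain ⟨Y, hYe⟩ : ∃ Y, Y = Z ^ (γ / 2) := ⟨_, rfl⟩
  obtain ⟨A, hAe⟩ : ∃ A, A = (1 + V) ^ (i + 1) := ⟨_, rfl⟩
  obtain ⟨a, hae⟩ : ∃ a, a = (1 + V) ^ i := ⟨_, rfl⟩
  obtain ⟨b, hbe⟩ : ∃ b, b = (1 + W) ^ i := ⟨_, rfl⟩
  obtain ⟨r, hre⟩ : ∃ r, r = (1 + V) ^ (1 + γ / 2) := ⟨_, rfl⟩
  obtain ⟨g, hge⟩ : ∃ g, g = (1 + V) ^ (γ / 2) := ⟨_, rfl⟩
  obtain ⟨c, hce⟩ : ∃ c, c = 32 * ((i : ℝ) + 2) * ((i : ℝ) + 1) := ⟨_, rfl⟩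
  have hA0 : 0 ≤ A := by rw [hAe]; positivity
  rw [← hae, ← hre, ← hAe, ← hge] at h6
  rw [← hYe, ← hre] at ha
  rw [← hae, ← hbe] at h3
  rw [← hae] at h4
  rw [← hbe] at h4'
  rw [← hYe] at hY
  rw [← hYe, ← hAe, ← hae, ← hbe, ← hce]
  rw [← hce] at hc
  have hYD : 0 ≤ Y * D := mul_nonneg hY hD
  have h7 : 2 * ((i : ℝ) + 2) * Y * (2 * ((i : ℝ) + 1) * D * (a + b)) ≤ c * (W * (A * g)) := by
    calc 2 * ((i : ℝ) + 2) * Y * (2 * ((i : ℝ) + 1) * D * (a + b))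
        = 4 * (((i : ℝ) + 2) * ((i : ℝ) + 1)) * ((Y * D) * (a + b)) := by ring
      _ ≤ 4 * (((i : ℝ) + 2) * ((i : ℝ) + 1)) * ((4 * (r * W)) * (a + a)) := by
          refine mul_le_mul_of_nonneg_left ?_ (by positivity)
          exact mul_le_mul ha (by linarith) (by linarith) (hYD.trans ha)
      _ = c * (W * (a * r)) := by
          rw [hce]
          ring
      _ = c * (W * (A * g)) := by rw [h6]
  refine h7.trans ?_
  have hV₁0 : 0 ≤ c * V₁ ^ (i + 1) := by positivity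
  by_cases hb : V₁ ≤ 1 + V
  · have h8 : g ≤ η / c := by
      rw [hge, hce]
      exact hV (1 + V) hb
    have h9 : c * (W * (A * g)) ≤ c * (W * (A * (η / c))) :=
      mul_le_mul_of_nonneg_left (mul_le_mul_of_nonneg_left (mul_le_mul_of_nonneg_left h8 hA0) hW)
        hc.le
    have h10 : c * (W * (A * (η / c))) = W * (η * A) := by
      field_simp
    rw [h10] at h9
    refine h9.trans (mul_le_mul_of_nonneg_left ?_ hW)
    linarith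
  · push Not at hb
    have h8 : g ≤ 1 := by
      rw [hge]
      exact Real.rpow_le_one_of_one_le_of_nonpos (by linarith) (by linarith)
    have h9 : A ≤ V₁ ^ (i + 1) := by
      rw [hAe]
      exact pow_le_pow_left₀ h5.le hb.le _
    have h10 : c * (W * (A * g)) ≤ c * (W * (A * 1)) :=
      mul_le_mul_of_nonneg_left (mul_le_mul_of_nonneg_left (mul_le_mul_of_nonneg_left h8 hA0) hW)
        hc.le
    have h11 : c * A ≤ c * V₁ ^ (i + 1) := mul_le_mul_of_nonneg_left h9 hc.le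
    have h12 : 0 ≤ η * A := mul_nonneg hη.le hA0
    have h13 : W * (c * A) ≤ W * (η * A + c * V₁ ^ (i + 1)) :=
      mul_le_mul_of_nonneg_left (by linarith) hW
    have h14 : c * (W * (A * 1)) = W * (c * A) := by ring
    linarith

private lemma phs_lin {V W p R : ℝ} (hW : 0 ≤ W) (hWR : W ≤ R) (hR : 1 ≤ R) (hVR : 4 * (1 + R) ≤ V)
    (hcs : p ^ 2 ≤ V * W) : 0 < V + W - 2 * p ∧ V + W - 2 * p ≤ 4 * V := by
  constructor
  · nlinarith [sq_nonneg (V - W)]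
  · nlinarith [sq_nonneg (V + W + 2 * p), sq_nonneg (V - W)]

/-- the negative part -/
private lemma phs_neg {δ γ V W Z p R : ℝ} (i : ℕ) (h1 : -2 < γ) (h2 : γ < 0) (hR : 1 ≤ R)
    (hd1 : 1 ≤ δ) (hW : 0 ≤ W) (hZe : Z = V + W - 2 * p) (hcs : p ^ 2 ≤ V * W)
    (hWR : W ≤ R) (hVR : 4 * (1 + R) ≤ V) :
    1 / 8 * (1 + V) ^ (i + 1) ≤ 2 * ((i : ℝ) + 2) * Z ^ (γ / 2) *
      (δ * ((1 + V) ^ (i + 1) - (1 + W) ^ (i + 1)) * (V - W)) := by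
  obtain ⟨hZ0, hZ4⟩ := phs_lin hW hWR hR hVR hcs
  rw [← hZe] at hZ0 hZ4
  have h4 : (4 * V) ^ (γ / 2) ≤ Z ^ (γ / 2) :=
    Real.rpow_le_rpow_of_nonpos hZ0 hZ4 (by linarith)
  have hV1 : 1 ≤ V := by linarith
  have hV0 : 0 < V := by linarith
  have h5 : 1 / 4 ≤ (4 * V) ^ (γ / 2) * V := by
    rw [Real.mul_rpow (by norm_num) hV0.le, mul_assoc]
    have h6 : V ^ (γ / 2) * V = V ^ (1 + γ / 2) := by
      rw [Real.rpow_add hV0, Real.rpow_one]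
      ring
    rw [h6]
    have h7 : 1 ≤ V ^ (1 + γ / 2) := Real.one_le_rpow hV1 (by linarith)
    have h8 : (1 / 4 : ℝ) ≤ 4 ^ (γ / 2) := by
      calc (1 / 4 : ℝ) = 4 ^ (-1 : ℝ) := by rw [Real.rpow_neg_one]; norm_num
        _ ≤ 4 ^ (γ / 2) := Real.rpow_le_rpow_of_exponent_le (by norm_num) (by linarith)
    have h9 := mul_le_mul h8 h7 zero_le_one ((by norm_num : (0 : ℝ) ≤ 1 / 4).trans h8)
    linarith
  have h9 : 1 / 4 ≤ Z ^ (γ / 2) * V := h5.trans (mul_le_mul_of_nonneg_right h4 hV0.le)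
  have h12 : (2 * (1 + W)) ^ (i + 1) ≤ (1 + V) ^ (i + 1) :=
    pow_le_pow_left₀ (by linarith) (by linarith) _
  rw [mul_pow] at h12
  have h13 : (2 : ℝ) ≤ 2 ^ (i + 1) := by
    calc (2 : ℝ) = 2 ^ 1 := (pow_one 2).symm
      _ ≤ 2 ^ (i + 1) := pow_le_pow_right₀ (by norm_num) (by omega)
  have hA'0 : 0 ≤ (1 + W) ^ (i + 1) := by positivity
  have h14 : 2 * (1 + W) ^ (i + 1) ≤ 2 ^ (i + 1) * (1 + W) ^ (i + 1) :=
    mul_le_mul_of_nonneg_right h13 hA'0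
  have hY : 0 ≤ Z ^ (γ / 2) := Real.rpow_nonneg hZ0.le _
  have hi : (0 : ℝ) ≤ i := Nat.cast_nonneg i
  obtain ⟨Y, hYe⟩ : ∃ Y, Y = Z ^ (γ / 2) := ⟨_, rfl⟩
  obtain ⟨A, hAe⟩ : ∃ A, A = (1 + V) ^ (i + 1) := ⟨_, rfl⟩
  obtain ⟨A', hAe'⟩ : ∃ A', A' = (1 + W) ^ (i + 1) := ⟨_, rfl⟩
  rw [← hYe] at h9 hY
  rw [← hAe, ← hAe'] at h12
  rw [← hAe'] at hA'0 h14
  rw [← hYe, ← hAe, ← hAe']
  have h10 : A / 2 ≤ A - A' := by linarith
  have hA : 0 ≤ A := by linarith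
  have h15 : V / 2 ≤ V - W := by linarith
  have h16 : 0 ≤ A - A' := by linarith
  have h18 : (1 * (A / 2)) * (V / 2) ≤ δ * (A - A') * (V - W) := by
    refine mul_le_mul (mul_le_mul hd1 h10 (by linarith) (by linarith)) h15 (by linarith) ?_
    exact mul_nonneg (by linarith) h16
  have h19 : 4 * Y ≤ 2 * ((i : ℝ) + 2) * Y := mul_le_mul_of_nonneg_right (by linarith) hY
  have h20 : 4 * Y * ((1 * (A / 2)) * (V / 2)) ≤
      2 * ((i : ℝ) + 2) * Y * (δ * (A - A') * (V - W)) :=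
    mul_le_mul h19 h18 (by positivity) (by positivity)
  have h21 : 4 * Y * ((1 * (A / 2)) * (V / 2)) = (Y * V) * A := by ring
  have h22 : 1 / 4 * A ≤ (Y * V) * A := mul_le_mul_of_nonneg_right h9 hA
  linarith

private lemma phs_fin {P N V W A A' η c₂ c₃ R : ℝ} (hP : P ≤ W * (η * A + c₂)) (hN0 : 0 ≤ N)
    (hN : W ≤ R → 4 * (1 + R) ≤ V → 1 / 8 * A ≤ N) (hW : 0 ≤ W) (hwv : W ≤ V) (hR : 1 ≤ R)
    (hA : 1 ≤ A) (hAA : A' ≤ A) (hη : 0 < η) (hA'1 : 0 ≤ A')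
    (hc₂ : 0 ≤ c₂) (hc₃ : 0 ≤ c₃) (hAc : V < 4 * (1 + R) → A ≤ c₃) :
    P - N ≤ (1 + W) * (η * A + (c₂ + c₃)) + (1 + V) * (η * A' + (c₂ + c₃)) -
      (if W ≤ R then 1 / 8 * A else 0) - (if V ≤ R then 1 / 8 * A' else 0) := by
  have hVn : 0 ≤ V := hW.trans hwv
  have k1 : 0 ≤ η * A := by positivity
  have k2 : 0 ≤ η * A' := by positivity
  have k3 : 0 ≤ W * c₃ := mul_nonneg hW hc₃
  have k4 : 0 ≤ V * (η * A' + (c₂ + c₃)) := by positivity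
  have hr1 : W * (η * A + c₂) + c₃ ≤ (1 + W) * (η * A + (c₂ + c₃)) := by linarith
  have hr2 : c₃ ≤ (1 + V) * (η * A' + (c₂ + c₃)) := by linarith
  by_cases hWR : W ≤ R
  · rw [if_pos hWR]
    by_cases hVR : 4 * (1 + R) ≤ V
    · have h3 := hN hWR hVR
      rw [if_neg (by linarith : ¬ V ≤ R)]
      linarith
    · push Not at hVR
      have h3 : A ≤ c₃ := hAc hVR
      have h4 : (if V ≤ R then 1 / 8 * A' else 0) ≤ 1 / 8 * A := by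
        split_ifs
        · linarith
        · linarith
      linarith
  · rw [if_neg hWR, if_neg (by linarith : ¬ V ≤ R)]
    linarith

/-- the half with `|w| ≤ |v|` -/
private lemma phs_half (hd : 2 ≤ d) {γ : ℝ} (h1 : -2 < γ) (h2 : γ < 0) (i : ℕ) {R η V₁ : ℝ}
    (hR : 1 ≤ R) (hη : 0 < η) (hV₁ : 1 ≤ V₁)
    (hV : ∀ x : ℝ, V₁ ≤ x → x ^ (γ / 2) ≤ η / (32 * ((i : ℝ) + 2) * ((i : ℝ) + 1)))
    (v w : Vec d) (hwv : nsq w ≤ nsq v) : Ph γ i v w + Ph γ i w v ≤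
      (1 + nsq w) * (η * (1 + nsq v) ^ (i + 1) +
        (32 * ((i : ℝ) + 2) * ((i : ℝ) + 1) * V₁ ^ (i + 1) + (5 + 4 * R) ^ (i + 1))) +
      (1 + nsq v) * (η * (1 + nsq w) ^ (i + 1) +
        (32 * ((i : ℝ) + 2) * ((i : ℝ) + 1) * V₁ ^ (i + 1) + (5 + 4 * R) ^ (i + 1))) -
        (if nsq w ≤ R then 1 / 8 * (1 + nsq v) ^ (i + 1) else 0) -
        (if nsq v ≤ R then 1 / 8 * (1 + nsq w) ^ (i + 1) else 0) := by
  have hW : 0 ≤ nsq w := sq_nonneg' w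
  have hVn : 0 ≤ nsq v := sq_nonneg' v
  have hZ : 0 ≤ nsq (v - w) := sq_nonneg' _
  have hcs := dot_sq_le v w
  have hZe := nsq_sub v w
  rw [ph_sym]
  have hd1 : (1 : ℝ) ≤ (d : ℝ) - 1 := by
    have : (2 : ℝ) ≤ d := by exact_mod_cast hd
    linarith
  obtain ⟨V, hVd⟩ : ∃ V, V = nsq v := ⟨_, rfl⟩
  obtain ⟨W, hWd⟩ : ∃ W, W = nsq w := ⟨_, rfl⟩
  obtain ⟨Z, hZd⟩ : ∃ Z, Z = nsq (v - w) := ⟨_, rfl⟩
  obtain ⟨p, hpd⟩ : ∃ p, p = dot v w := ⟨_, rfl⟩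
  rw [← hVd, ← hWd] at hwv hcs hZe
  rw [← hZd, ← hpd] at hZe
  rw [← hpd] at hcs
  rw [← hVd] at hVn
  rw [← hWd] at hW
  rw [← hZd] at hZ
  rw [← hVd, ← hWd, ← hZd, ← hpd]
  have hD : 0 ≤ V * W - p ^ 2 := by linarith
  have hDV : V * W - p ^ 2 ≤ V * W := by
    have := sq_nonneg p
    linarith
  have hDZ : V * W - p ^ 2 ≤ Z * W := by
    have := sq_nonneg (p - W)
    have e : Z * W - (V * W - p ^ 2) = (p - W) ^ 2 := by
      rw [hZe]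
      ring
    linarith
  have hA'1 : 1 ≤ (1 + W) ^ (i + 1) := one_le_pow₀ (by linarith)
  have hAA : (1 + W) ^ (i + 1) ≤ (1 + V) ^ (i + 1) :=
    pow_le_pow_left₀ (by linarith) (by linarith) _
  have hP := phs_pos i h1 h2 hη hV₁ hV hW hwv hZ hDV hDZ hD
  have hY : 0 ≤ Z ^ (γ / 2) := Real.rpow_nonneg hZ _
  have hN0 : 0 ≤ 2 * ((i : ℝ) + 2) * Z ^ (γ / 2) *
      (((d : ℝ) - 1) * ((1 + V) ^ (i + 1) - (1 + W) ^ (i + 1)) * (V - W)) := by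
    have h3 : 0 ≤ (1 + V) ^ (i + 1) - (1 + W) ^ (i + 1) := by linarith
    have h4 : 0 ≤ V - W := by linarith
    have h5 : 0 ≤ (d : ℝ) - 1 := by linarith
    positivity
  have hN := fun (h : W ≤ R) (h' : 4 * (1 + R) ≤ V) =>
    phs_neg (δ := (d : ℝ) - 1) (Z := Z) i h1 h2 hR hd1 hW (by linarith) hcs h h'
  have hAc : V < 4 * (1 + R) → (1 + V) ^ (i + 1) ≤ (5 + 4 * R) ^ (i + 1) := fun h =>
    pow_le_pow_left₀ (by linarith) (by linarith) _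
  have key := phs_fin hP hN0 hN hW hwv hR (hA'1.trans hAA) hAA hη (by linarith)
    (by positivity : 0 ≤ 32 * ((i : ℝ) + 2) * ((i : ℝ) + 1) * V₁ ^ (i + 1))
    (by positivity : (0 : ℝ) ≤ (5 + 4 * R) ^ (i + 1)) hAc
  refine le_trans (le_of_eq ?_) key
  ring

theorem ph_le (hd : 2 ≤ d) (h1 : -2 < γ) (h2 : γ < 0) (i : ℕ) {R : ℝ} (hR : 1 ≤ R) :
    ∃ c > 0, ∀ η > 0, ∃ C : ℝ, 0 ≤ C ∧ ∀ v w : Vec d, Ph γ i v w + Ph γ i w v ≤
      (1 + nsq w) * (η * (1 + nsq v) ^ (i + 1) + C) + (1 + nsq v) * (η * (1 + nsq w) ^ (i + 1) + C) -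
        (if nsq w ≤ R then c * (1 + nsq v) ^ (i + 1) else 0) -
        (if nsq v ≤ R then c * (1 + nsq w) ^ (i + 1) else 0) := by
  refine ⟨1 / 8, by norm_num, fun η hη => ?_⟩
  have hc₁ : 0 < 32 * ((i : ℝ) + 2) * ((i : ℝ) + 1) := by positivity
  obtain ⟨V₁, hV₁, hV⟩ := phs_b (γ := γ) h2 (div_pos hη hc₁)
  refine ⟨32 * ((i : ℝ) + 2) * ((i : ℝ) + 1) * V₁ ^ (i + 1) + (5 + 4 * R) ^ (i + 1),
    by positivity, fun v w => ?_⟩
  rcases le_total (nsq w) (nsq v) with h | h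
  · exact phs_half hd h1 h2 i hR hη hV₁ hV v w h
  · have h3 := phs_half hd h1 h2 i hR hη hV₁ hV w v h
    linarith

end Pool.Agent.H37.LN
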