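import Pool.Agent.H37.LN.WkF
import Pool.Agent.H37.LN.PhS

/-!
# Module MoQ: moments of the collision operator

`E ≥ ∫ g (1+|v|²) ≥ ∫ g ≥ m > 0` (otherwise nothing to prove). `R = max 1 (2E/m)`: `∫_{nsq > R} g ≤ E/R ≤ m/2`, so `∫_{nsq ≤ R} g ≥ m/2`. `c₁` = the constant of `ph_le`, `η = c₁ m/(4E)`, `C₁`. By `wk_form`, symmetrisation of the double integral
(`integral_prod_swap`), `∫ Q φ = (1/2) ∫∫ (Ph + Phᵀ) g g ≤ ∫∫ [(1+nsq w)(η (1+nsq v)^(i+1) + C₁) - 1_{nsq w ≤ R} c₁ (1+nsq v)^(i+1)] g(v) g(w) = E' (η J + C₁ M) - c₁ (∫_{nsq ≤ R} g) J ≤ -(c₁ m/4) J + C₁ E²`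
with `J = JM (i+1) g`, `E' = ∫ g (1+nsq) ≤ E`, `M = ∫ g ≤ E`. Integrability of `g` times polynomials: `RD.mul_PG`, `RD.integrable`; products: `Integrable.mul_prod`.
-/

set_option autoImplicit false

open MeasureTheory Set Filter Topology Pool.Agent.H25.Kin Pool.Agent.H48.PR

namespace Pool.Agent.H37.LN

variable {d : ℕ} {γ : ℝ}

private lemma moQ_PG (k : ℕ) : PG fun v : Vec d => (1 + nsq v) ^ k := by
  refine ⟨2 * k, ((d : ℝ) + 1) ^ k, fun v => ?_⟩
  have h3 := one_add_sq_le v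
  have h4 := sq_nonneg' v
  rw [Real.norm_eq_abs, abs_of_nonneg (by positivity)]
  calc (1 + nsq v) ^ k ≤ (((d : ℝ) + 1) * (1 + ‖v‖) ^ 2) ^ k :=
        pow_le_pow_left₀ (by linarith) h3 _
    _ = _ := by rw [mul_pow, ← pow_mul]

private lemma moQ_cont (k : ℕ) : Continuous fun v : Vec d => (1 + nsq v) ^ k := by
  have h : Continuous fun v : Vec d => nsq v := continuous_sq
  exact (continuous_const.add h).pow k

private lemma moQ_int {g : Vec d → ℝ} (hg : Nice g) (k : ℕ) :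
    Integrable fun v => g v * (1 + nsq v) ^ k :=
  (hg.rd.mul_PG (moQ_PG k)).integrable (hg.cont.mul (moQ_cont k)).aestronglyMeasurable

private lemma moQ_int0 {g : Vec d → ℝ} (hg : Nice g) : Integrable g := by
  simpa using moQ_int hg 0

private lemma moQ_int1 {g : Vec d → ℝ} (hg : Nice g) : Integrable fun v => g v * (1 + nsq v) := by
  simpa using moQ_int hg 1

private lemma moQ_indI {g : Vec d → ℝ} (hg : Nice g) (R : ℝ) :
    Integrable fun v => if nsq v ≤ R then g v else 0 := by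
  have h : Continuous fun v : Vec d => nsq v := continuous_sq
  have hs : MeasurableSet {v : Vec d | nsq v ≤ R} := (isClosed_le h continuous_const).measurableSet
  have := (moQ_int0 hg).indicator hs
  refine this.congr (Eventually.of_forall fun v => ?_)
  simp [Set.indicator, Set.mem_setOf_eq]

private lemma moQ_G {g : Vec d → ℝ} (hg : Nice g) (hn : ∀ v, 0 ≤ g v) {m E R : ℝ} (hm : 0 < m)
    (hR : 0 < R) (hRE : E ≤ R * (m / 2)) (hM : m ≤ ∫ v, g v) (hE : ∫ v, g v * (1 + nsq v) ≤ E) :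
    m / 2 ≤ ∫ v, (if nsq v ≤ R then g v else 0) := by
  have h1 : ∫ v, g v ≤ ∫ v, ((if nsq v ≤ R then g v else 0) + R⁻¹ * (g v * (1 + nsq v))) := by
    refine integral_mono (moQ_int0 hg) ((moQ_indI hg R).add ((moQ_int1 hg).const_mul _)) fun v => ?_
    have h4 := sq_nonneg' v
    have h5 := hn v
    show g v ≤ (if nsq v ≤ R then g v else 0) + R⁻¹ * (g v * (1 + nsq v))
    split_ifs with h
    · have : 0 ≤ R⁻¹ * (g v * (1 + nsq v)) := by positivity
      linarith
    · push Not at h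
      rw [zero_add, inv_mul_eq_div, le_div_iff₀ hR]
      exact mul_le_mul_of_nonneg_left (by linarith) h5
  rw [integral_add (moQ_indI hg R) ((moQ_int1 hg).const_mul _), integral_const_mul] at h1
  have h2 : R⁻¹ * ∫ v, g v * (1 + nsq v) ≤ m / 2 := by
    rw [inv_mul_eq_div, div_le_iff₀ hR]
    linarith
  linarith

private lemma moQ_main (h1 : -2 < γ) (h2 : γ < 0) {i : ℕ} {c η C R : ℝ}
    (hS : ∀ v w : Vec d, Ph γ i v w + Ph γ i w v ≤
      (1 + nsq w) * (η * (1 + nsq v) ^ (i + 1) + C) + (1 + nsq v) * (η * (1 + nsq w) ^ (i + 1) + C) -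
        (if nsq w ≤ R then c * (1 + nsq v) ^ (i + 1) else 0) -
        (if nsq v ≤ R then c * (1 + nsq w) ^ (i + 1) else 0))
    {g : Vec d → ℝ} (hg : Nice g) (hn : ∀ v, 0 ≤ g v) :
    ∫ p : Vec d × Vec d, Ph γ i p.1 p.2 * (g p.1 * g p.2) ∂(volume.prod volume) ≤
      (η * JM (i + 1) g + C * ∫ v, g v) * (∫ v, g v * (1 + nsq v)) -
        c * JM (i + 1) g * ∫ v, (if nsq v ≤ R then g v else 0) := by
  have hI := ph_int h1 h2.le hg i
  have hI' : Integrable (fun p : Vec d × Vec d => Ph γ i p.2 p.1 * (g p.2 * g p.1))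
      (volume.prod volume) := hI.swap
  have hsw : ∫ p : Vec d × Vec d, Ph γ i p.2 p.1 * (g p.2 * g p.1) ∂(volume.prod volume) =
      ∫ p : Vec d × Vec d, Ph γ i p.1 p.2 * (g p.1 * g p.2) ∂(volume.prod volume) :=
    integral_prod_swap (μ := volume) (ν := volume)
      (fun p : Vec d × Vec d => Ph γ i p.1 p.2 * (g p.1 * g p.2))
  -- the four products
  have iA : Integrable fun v => η * (g v * (1 + nsq v) ^ (i + 1)) + C * g v :=
    ((moQ_int hg (i + 1)).const_mul η).add ((moQ_int0 hg).const_mul C)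
  have iB := moQ_int1 hg
  have iJ := moQ_int hg (i + 1)
  have iG := moQ_indI hg R
  have p1 : Integrable (fun p : Vec d × Vec d => (η * (g p.1 * (1 + nsq p.1) ^ (i + 1)) + C * g p.1) *
      (g p.2 * (1 + nsq p.2))) (volume.prod volume) := iA.mul_prod iB
  have p2 : Integrable (fun p : Vec d × Vec d => (g p.1 * (1 + nsq p.1)) *
      (η * (g p.2 * (1 + nsq p.2) ^ (i + 1)) + C * g p.2)) (volume.prod volume) := iB.mul_prod iA
  have p3 : Integrable (fun p : Vec d × Vec d => (g p.1 * (1 + nsq p.1) ^ (i + 1)) *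
      (if nsq p.2 ≤ R then g p.2 else 0)) (volume.prod volume) := iJ.mul_prod iG
  have p4 : Integrable (fun p : Vec d × Vec d => (if nsq p.1 ≤ R then g p.1 else 0) *
      (g p.2 * (1 + nsq p.2) ^ (i + 1))) (volume.prod volume) := iG.mul_prod iJ
  have q1 := integral_prod_mul (μ := volume) (ν := volume)
    (fun v : Vec d => η * (g v * (1 + nsq v) ^ (i + 1)) + C * g v) (fun v => g v * (1 + nsq v))
  have q2 := integral_prod_mul (μ := volume) (ν := volume) (fun v : Vec d => g v * (1 + nsq v))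
    (fun v : Vec d => η * (g v * (1 + nsq v) ^ (i + 1)) + C * g v)
  have q3 := integral_prod_mul (μ := volume) (ν := volume)
    (fun v : Vec d => g v * (1 + nsq v) ^ (i + 1)) (fun v : Vec d => if nsq v ≤ R then g v else 0)
  have q4 := integral_prod_mul (μ := volume) (ν := volume)
    (fun v : Vec d => if nsq v ≤ R then g v else 0) (fun v : Vec d => g v * (1 + nsq v) ^ (i + 1))
  have eA : ∫ v : Vec d, (η * (g v * (1 + nsq v) ^ (i + 1)) + C * g v) =
      η * JM (i + 1) g + C * ∫ v, g v := by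
    rw [integral_add ((moQ_int hg (i + 1)).const_mul η) ((moQ_int0 hg).const_mul C),
      integral_const_mul, integral_const_mul]
    rfl
  have eJ : ∫ v : Vec d, g v * (1 + nsq v) ^ (i + 1) = JM (i + 1) g := rfl
  rw [eA] at q1 q2
  rw [eJ] at q3 q4
  have hmono : ∫ p : Vec d × Vec d, (Ph γ i p.1 p.2 * (g p.1 * g p.2) + Ph γ i p.2 p.1 * (g p.2 * g p.1))
        ∂(volume.prod volume) ≤
      ∫ p : Vec d × Vec d, ((((η * (g p.1 * (1 + nsq p.1) ^ (i + 1)) + C * g p.1) *
        (g p.2 * (1 + nsq p.2))) + ((g p.1 * (1 + nsq p.1)) *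
        (η * (g p.2 * (1 + nsq p.2) ^ (i + 1)) + C * g p.2))) -
        c * ((g p.1 * (1 + nsq p.1) ^ (i + 1)) * (if nsq p.2 ≤ R then g p.2 else 0)) -
        c * ((if nsq p.1 ≤ R then g p.1 else 0) * (g p.2 * (1 + nsq p.2) ^ (i + 1))))
        ∂(volume.prod volume) := by
    refine integral_mono (hI.add hI') (((p1.add p2).sub (p3.const_mul c)).sub (p4.const_mul c))
      fun p => ?_
    obtain ⟨v, w⟩ := p
    have h3 := mul_le_mul_of_nonneg_right (hS v w) (mul_nonneg (hn v) (hn w))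
    have h4 : Ph γ i v w * (g v * g w) + Ph γ i w v * (g w * g v) =
        (Ph γ i v w + Ph γ i w v) * (g v * g w) := by ring
    show Ph γ i v w * (g v * g w) + Ph γ i w v * (g w * g v) ≤
      (((η * (g v * (1 + nsq v) ^ (i + 1)) + C * g v) * (g w * (1 + nsq w))) +
        ((g v * (1 + nsq v)) * (η * (g w * (1 + nsq w) ^ (i + 1)) + C * g w))) -
        c * ((g v * (1 + nsq v) ^ (i + 1)) * (if nsq w ≤ R then g w else 0)) -
        c * ((if nsq v ≤ R then g v else 0) * (g w * (1 + nsq w) ^ (i + 1)))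
    rw [h4]
    refine h3.trans (le_of_eq ?_)
    split_ifs <;> ring
  rw [integral_add hI hI', hsw] at hmono
  have e5 : ∫ p : Vec d × Vec d, ((((η * (g p.1 * (1 + nsq p.1) ^ (i + 1)) + C * g p.1) *
        (g p.2 * (1 + nsq p.2))) + ((g p.1 * (1 + nsq p.1)) *
        (η * (g p.2 * (1 + nsq p.2) ^ (i + 1)) + C * g p.2))) -
        c * ((g p.1 * (1 + nsq p.1) ^ (i + 1)) * (if nsq p.2 ≤ R then g p.2 else 0)) -
        c * ((if nsq p.1 ≤ R then g p.1 else 0) * (g p.2 * (1 + nsq p.2) ^ (i + 1))))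
        ∂(volume.prod volume) =
      (η * JM (i + 1) g + C * ∫ v, g v) * (∫ v, g v * (1 + nsq v)) +
        (∫ v, g v * (1 + nsq v)) * (η * JM (i + 1) g + C * ∫ v, g v) -
        c * (JM (i + 1) g * ∫ v, (if nsq v ≤ R then g v else 0)) -
        c * ((∫ v, (if nsq v ≤ R then g v else 0)) * JM (i + 1) g) := by
    have a1 := integral_sub ((p1.add p2).sub (p3.const_mul c)) (p4.const_mul c)
    have a2 := integral_sub (p1.add p2) (p3.const_mul c)
    have a3 := integral_add p1 p2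
    refine (a1.trans (congrArg (· - _) (a2.trans (congrArg (· - _) a3)))).trans ?_
    rw [integral_const_mul, integral_const_mul, q1, q2, q3, q4]
  rw [e5] at hmono
  linarith

theorem mo_Q (hd : 2 ≤ d) (h1 : -2 < γ) (h2 : γ < 0) {m : ℝ} (hm : 0 < m) (E : ℝ) (i : ℕ) :
    ∃ c > 0, ∃ C : ℝ, 0 ≤ C ∧ ∀ g : Vec d → ℝ, Nice g → (∀ v, 0 ≤ g v) → m ≤ ∫ v, g v →
      ∫ v, g v * (1 + nsq v) ≤ E →
      ∫ v, landauQ γ g v * (1 + nsq v) ^ (i + 2) ≤ -(c * JM (i + 1) g) + C := by
  have hME : ∀ g : Vec d → ℝ, Nice g → (∀ v, 0 ≤ g v) →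
      ∫ v, g v ≤ ∫ v, g v * (1 + nsq v) := fun g hg hn =>
    integral_mono (moQ_int0 hg) (moQ_int1 hg) fun v => by
      have h4 := sq_nonneg' v
      have h5 := hn v
      show g v ≤ g v * (1 + nsq v)
      nlinarith [mul_nonneg h5 h4]
  rcases lt_or_ge E m with hE | hE
  · refine ⟨1, one_pos, 0, le_rfl, fun g hg hn hM hEg => ?_⟩
    have := hME g hg hn
    linarith
  have hE0 : 0 < E := hm.trans_le hE
  obtain ⟨c, hc, hph⟩ := ph_le hd h1 h2 i (R := max 1 (2 * E / m)) (le_max_left _ _)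
  obtain ⟨C, hC, hS⟩ := hph (c * m / (4 * E)) (by positivity)
  refine ⟨c * m / 4, by positivity, C * E ^ 2, by positivity, fun g hg hn hM hEg => ?_⟩
  rw [wk_form (by omega) h1 h2 hg i]
  refine (moQ_main h1 h2 hS hg hn).trans ?_
  have hR : 0 < max 1 (2 * E / m) := lt_of_lt_of_le one_pos (le_max_left _ _)
  have hRE : E ≤ max 1 (2 * E / m) * (m / 2) := by
    have h3 : 2 * E / m ≤ max 1 (2 * E / m) := le_max_right _ _
    have h4 : 2 * E / m * (m / 2) = E := by field_simp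
    have h5 := mul_le_mul_of_nonneg_right h3 (by positivity : (0 : ℝ) ≤ m / 2)
    linarith
  have hG := moQ_G hg hn hm hR hRE hM hEg
  have hM' := hME g hg hn
  have hM0 : 0 ≤ ∫ v, g v := hm.le.trans hM
  have hJ : 0 ≤ JM (i + 1) g := integral_nonneg fun v => by
    have h4 := sq_nonneg' v
    have h5 := hn v
    show 0 ≤ g v * (1 + nsq v) ^ (i + 1)
    positivity
  set J := JM (i + 1) g
  set M := ∫ v, g v
  set E' := ∫ v, g v * (1 + nsq v)
  set G := ∫ v, (if nsq v ≤ max 1 (2 * E / m) then g v else 0)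
  have hE'0 : 0 ≤ E' := hM0.trans hM'
  have k1 : (c * m / (4 * E) * J + C * M) * E' ≤ (c * m / (4 * E) * J + C * E) * E := by
    refine mul_le_mul ?_ hEg hE'0 (by positivity)
    have : C * M ≤ C * E := mul_le_mul_of_nonneg_left (hM'.trans hEg) hC
    linarith
  have k2 : (c * m / (4 * E) * J + C * E) * E = c * m / 4 * J + C * E ^ 2 := by
    field_simp
  have k3 : c * J * (m / 2) ≤ c * J * G := mul_le_mul_of_nonneg_left hG (by positivity)
  have k4 : c * J * (m / 2) = 2 * (c * m / 4 * J) := by ring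
  linarith

end Pool.Agent.H37.LN
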