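import Pool.Agent.H37.LN.MoQ
import Pool.Agent.H37.LN.MoD
import Pool.Agent.H25.Kin.Focus
import Pool.Agent.H25.Kin.Slice

/-!
# Module MoT: growth of the moments in time

`Good m N (f t x)` gives `m ≤ ∫ f`, `∫ f (1+nsq) ≤ 2N`. `mo_Q` with `E = 2N` at every `(t,x)`, integrated over `x` (`mo_hasDeriv`; `JM (i+1) (f t x)` is integrable in `x` with integral `mo (i+1) (f t)`: `nu = volume.prod muD`, `integral_prod_symm`; `muD` is a probability measure, `muD_univ`):
`d/dt mo (i+2) (f t) ≤ -c mo (i+1) (f t) + C` for `t ∈ (0,T)`. Both moments are continuous on `[0,T)` (`mo_cont`). So `t ↦ mo (i+2) (f t) + c ∫_s^t mo (i+1) (f r) dr - C t` has nonpositive derivative in `(s,t)` and is continuous: antitone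
(`antitoneOn_of_deriv_nonpos`; `intervalIntegral.integral_hasDerivAt_right` or the FTC for continuous functions). Slices `f t x`, `t > 0`, are `Nice` (`IsClassicalSol.nice` or `hf.nice`).
-/

set_option autoImplicit false

open MeasureTheory Set Filter Topology Pool.Agent.H25.Kin Pool.Agent.H48.PR
open Pool.Agent.H15.AV (Good)

namespace Pool.Agent.H37.LN

variable {d : ℕ} {γ : ℝ}

private lemma MoT_pg (j : ℕ) : PG (fun v : Vec d => (1 + nsq v) ^ j) := by
  induction j with
  | zero => simpa using PG.one (d := d)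
  | succ j ih => simpa only [pow_succ] using ih.mul (PG.one.add PG.nsq)

private lemma MoT_cont (j : ℕ) : Continuous (fun v : Vec d => (1 + nsq v) ^ j) := by
  unfold nsq
  fun_prop

private lemma MoT_muD : (muD d) univ = 1 := by
  unfold muD
  rw [Measure.restrict_apply_univ, Real.volume_Icc_pi]
  simp

private lemma MoT_iter {T : ℝ} {f : ℝ → Vec d → Vec d → ℝ} (hf : IsLandauSol γ T f) (j : ℕ)
    {t : ℝ} (ht : t ∈ Ico 0 T) :
    Integrable (fun x => JM j (f t x)) (muD d) ∧ mo j (f t) = ∫ x, JM j (f t x) ∂(muD d) := by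
  obtain ⟨h1, h2⟩ := mom_iter (c := fun _ => 1) (A := 1) (fun _ => by simp) continuous_const
    (MoT_pg j) (MoT_cont j) hf ht
  have e : (fun q : Vec d × Vec d => (1 : ℝ) * (1 + nsq q.1) ^ j * f t q.2 q.1) =
      fun q => f t q.2 q.1 * (1 + nsq q.1) ^ j := by
    funext q; ring
  rw [e] at h1
  refine ⟨?_, ?_⟩
  · have h3 : Integrable (fun x => ∫ v, f t x v * (1 + nsq v) ^ j) (muD d) := by
      unfold nu at h1
      exact h1.integral_prod_right
    exact h3
  · unfold mo nu
    unfold nu at h1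
    rw [integral_prod_symm _ h1]
    rfl

theorem mo_grow (hd : 2 ≤ d) (h1 : -2 < γ) (h2 : γ < 0) {m : ℝ} (hm : 0 < m) (N : ℝ) (i : ℕ) :
    ∃ c > 0, ∃ C : ℝ, 0 ≤ C ∧ ∀ (T : ℝ) (f : ℝ → Vec d → Vec d → ℝ), IsLandauSol γ T f →
      (∀ t ∈ Ico 0 T, ∀ x, Good m N (f t x)) → ∀ s t : ℝ, 0 ≤ s → s ≤ t → t < T →
      mo (i + 2) (f t) + c * ∫ r in s..t, mo (i + 1) (f r) ≤ mo (i + 2) (f s) + C * (t - s) := by
  obtain ⟨c, hc, C, hC0, hQ⟩ := mo_Q (γ := γ) hd h1 h2 hm (2 * N) i
  refine ⟨c, hc, C, hC0, fun T f hf hG s t hs hst htT => ?_⟩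
  have hA : ContinuousOn (fun r => mo (i + 2) (f r)) (Ico 0 T) :=
    mo_cont hf (MoT_pg (i + 2)) (MoT_cont (i + 2))
  have hB : ContinuousOn (fun r => mo (i + 1) (f r)) (Ico 0 T) :=
    mo_cont hf (MoT_pg (i + 1)) (MoT_cont (i + 1))
  have hsub : Icc s t ⊆ Ico 0 T := fun r hr => ⟨hs.trans hr.1, hr.2.trans_lt htT⟩
  have hfin : IsFiniteMeasure (muD d) := ⟨by rw [MoT_muD]; exact ENNReal.one_lt_top⟩
  -- derivative bound
  have hder : ∀ r ∈ Ioo 0 T, ∃ D, HasDerivAt (fun r => mo (i + 2) (f r)) D r ∧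
      D ≤ -(c * mo (i + 1) (f r)) + C := by
    intro r hr
    have hr' : r ∈ Ico 0 T := ⟨hr.1.le, hr.2⟩
    obtain ⟨a1, a2⟩ := mo_hasDeriv hf (MoT_pg (i + 2)) (MoT_cont (i + 2)) hr
    refine ⟨_, a2, ?_⟩
    obtain ⟨b1, b2⟩ := MoT_iter hf (i + 1) hr'
    have key : ∀ x, ∫ v, landauQ γ (f r x) v * (1 + nsq v) ^ (i + 2) ≤
        -(c * JM (i + 1) (f r x)) + C := by
      intro x
      have hn : Nice (f r x) := IsClassicalSol.nice hf hr x
      have hg := hG r hr' x
      refine hQ (f r x) hn (fun v => hf.nonneg r hr' x v) hg.mass ?_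
      have i1 : Integrable (f r x) := hn.rd.integrable hn.cont.aestronglyMeasurable
      have i2 : Integrable (fun v => f r x v * nsq v) :=
        (hn.rd.mul_PG PG.nsq).integrable (hn.cont.mul continuous_sq).aestronglyMeasurable
      have e : (fun v => f r x v * (1 + nsq v)) = fun v => f r x v + f r x v * nsq v := by
        funext v; ring
      rw [e, integral_add i1 i2]
      linarith [hg.massU, hg.energy]
    calc ∫ x, (∫ v, landauQ γ (f r x) v * (1 + nsq v) ^ (i + 2)) ∂(muD d)
        ≤ ∫ x, (-(c * JM (i + 1) (f r x)) + C) ∂(muD d) :=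
          integral_mono a1 (((b1.const_mul c).neg).add (integrable_const C)) key
      _ = -(c * mo (i + 1) (f r)) + C := by
          have e1 : ∫ x, (-(c * JM (i + 1) (f r x)) + C) ∂(muD d) =
              (∫ x, -(c * JM (i + 1) (f r x)) ∂(muD d)) + ∫ _x, C ∂(muD d) :=
            integral_add ((b1.const_mul c).neg) (integrable_const C)
          have e2 : (∫ x, -(c * JM (i + 1) (f r x)) ∂(muD d)) =
              -(c * ∫ x, JM (i + 1) (f r x) ∂(muD d)) := by
            rw [integral_neg, integral_const_mul]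
          have e3 : (∫ _x, C ∂(muD d)) = C := by
            rw [integral_const, measureReal_def, MoT_muD]
            simp
          rw [e1, e2, e3, b2]
  have hBi : ∀ r ∈ Icc s t, IntervalIntegrable (fun r => mo (i + 1) (f r)) volume s r := by
    intro r hr
    refine (hB.mono ?_).intervalIntegrable
    rw [uIcc_of_le hr.1]
    exact fun u hu => hsub ⟨hu.1, hu.2.trans hr.2⟩
  have hant : AntitoneOn (fun r => mo (i + 2) (f r) + c * (∫ u in s..r, mo (i + 1) (f u)) -
      C * (r - s)) (Icc s t) := by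
    have hd' : ∀ r ∈ Ioo s t, ∃ D, HasDerivAt (fun r => mo (i + 2) (f r) +
        c * (∫ u in s..r, mo (i + 1) (f u)) - C * (r - s)) D r ∧ D ≤ 0 := by
      intro r hr
      have hr0 : r ∈ Ioo 0 T := ⟨hs.trans_lt hr.1, hr.2.trans htT⟩
      obtain ⟨D, hD, hDle⟩ := hder r hr0
      have hBc : ContinuousAt (fun r => mo (i + 1) (f r)) r :=
        hB.continuousAt (Ico_mem_nhds hr0.1 hr0.2)
      have hI : HasDerivAt (fun r => ∫ u in s..r, mo (i + 1) (f u)) (mo (i + 1) (f r)) r := by
        refine intervalIntegral.integral_hasDerivAt_right (hBi r ⟨hr.1.le, hr.2.le⟩) ?_ hBc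
        exact hB.stronglyMeasurableAtFilter_nhdsWithin measurableSet_Ico r |>.filter_mono (by
          rw [nhdsWithin_eq_nhds.2 (Ico_mem_nhds hr0.1 hr0.2)])
      refine ⟨_, (hD.add (hI.const_mul c)).sub (((hasDerivAt_id' r).sub_const s).const_mul C), ?_⟩
      linarith
    refine antitoneOn_of_deriv_nonpos (convex_Icc s t) ?_ ?_ ?_
    · refine ((hA.mono hsub).add (continuousOn_const.mul ?_)).sub (by fun_prop)
      have := intervalIntegral.continuousOn_primitive_interval (μ := volume) (a := s) (b := t)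
        (f := fun r => mo (i + 1) (f r)) (by
          rw [uIcc_of_le hst]
          exact (hB.mono hsub).integrableOn_compact isCompact_Icc)
      rwa [uIcc_of_le hst] at this
    · intro r hr
      rw [interior_Icc] at hr
      obtain ⟨D, hD, -⟩ := hd' r hr
      exact hD.differentiableAt.differentiableWithinAt
    · intro r hr
      rw [interior_Icc] at hr
      obtain ⟨D, hD, hle⟩ := hd' r hr
      rw [hD.deriv]
      exact hle
  have h := hant ⟨le_refl s, hst⟩ ⟨hst, le_refl t⟩ hst
  simp only [intervalIntegral.integral_same, mul_zero, add_zero, sub_self, sub_zero] at h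
  linarith

end Pool.Agent.H37.LN
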