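import Pool.Agent.H37.LN.SupM
import Pool.Agent.H37.LN.MoT
import Pool.Agent.H37.LN.GoodX
import Pool.Agent.H37.LN.DecS
import Pool.Agent.H37.LN.BootP
import Pool.Agent.H37.LN.IniB
import Pool.Agent.H48.LN.ReL
import Pool.Agent.H48.PI.Shift
import Pool.Agent.H15.AV.Ent
import Pool.Agent.H15.AV.LH

/-!
# Module NsupL: decay constants on bounded time intervals

Bootstrap (`boot_P`) with the weight `Wp (d+11)`: as long as `f ≤ K₁ Wp (d+11)`, `good_x` gives the hydrodynamic bounds at every position, `mo_grow` the moments, `sup_L` (whose constant does not depend on `K₁`) and `PrpL` the bound `f ≤ S' Wp (d+10)`, `dec_S` the decay constants `Cl`, and `K₁` is twice the constant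
of `Wp (d+11)` which follows from them.
-/

set_option autoImplicit false

open MeasureTheory Set Filter Topology Pool.Agent.H25.Kin Pool.Agent.H48.PR
open Pool.Agent.H15.AV (Good sol_slice mass_const energy_const entropy_le hth_landau)
open Pool.Agent.H48.LN (KMod landau_inv)

namespace Pool.Agent.H37.LN

variable {d : ℕ} {γ : ℝ}

lemma wp_anti {p q : ℕ} (h : p ≤ q) (v : Vec d) : Wp q v ≤ Wp p v := by
  unfold Wp
  have h1 : 1 ≤ 1 + nsq v := by linarith [sq_nonneg' v]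
  exact inv_anti₀ (pow_pos (by linarith) _) (pow_le_pow_right₀ h1 h)

lemma mo_nonneg (j : ℕ) {F : Vec d → Vec d → ℝ} (hF : ∀ x v, 0 ≤ F x v) : 0 ≤ mo j F := by
  unfold mo
  refine integral_nonneg fun q => mul_nonneg (hF _ _) (pow_nonneg ?_ _)
  linarith [sq_nonneg' q.1]

theorem nsup_L (hK : KMod d) (hP : PrpL d γ) (hd : 2 ≤ d) (h1 : -2 < γ) (h2 : γ < 0) (B : ℕ → ℝ)
    {m : ℝ} (hm : 0 < m) : ∃ N : ℝ, ∀ T₀ : ℝ, ∃ κ₁ > 0, ∃ U : ℕ → ℝ, ∀ T ≤ T₀,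
      ∀ f : ℝ → Vec d → Vec d → ℝ, IsLandauSol γ T f → DC B (f 0) →
      m ≤ ∫ q, f 0 q.2 q.1 ∂(nu d) → (∀ t ∈ Ico 0 T, NH κ₁ (f t)) →
      ∀ t ∈ Ico 0 T, DC U (f t) ∧ ∀ x, Good (m / 2) N (f t x) := by
  obtain ⟨N₀, hN₀⟩ := ini_tot (d := d) B
  obtain ⟨N, hN⟩ : ∃ N : ℝ, N = N₀ + 1 := ⟨_, rfl⟩
  refine ⟨N, fun T₀ => ?_⟩
  obtain ⟨k, hk⟩ := sup_L hK hd h1 h2.le (half_pos hm) N
  obtain ⟨c, hc, C, hC, hgrow⟩ := mo_grow hd h1 h2 (half_pos hm) N k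
  obtain ⟨M₀, hM₀⟩ := ini_mo (d := d) B (k + 2)
  obtain ⟨θ, hθ, U₁, hU₁⟩ := hP B
  obtain ⟨X, hX⟩ : ∃ X : ℝ, X = M₀ + C * max T₀ 0 := ⟨_, rfl⟩
  obtain ⟨S, hS, hsup⟩ := hk X
  obtain ⟨C₁, hC₁, hC₁'⟩ := ini_wp (d := d) U₁ (d + 10)
  obtain ⟨S', hS'a, hS'b⟩ : ∃ S' : ℝ, S * (1 + 1 / θ) ^ d ≤ S' ∧ C₁ ≤ S' :=
    ⟨max (S * (1 + 1 / θ) ^ d) C₁, le_max_left _ _, le_max_right _ _⟩
  obtain ⟨Cl, hCl⟩ := dec_S hd h1 h2.le (half_pos hm) S' B
  obtain ⟨K', hK'0, hK'⟩ := ini_wp (d := d) Cl (d + 11)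
  obtain ⟨K'', hK''0, hK''⟩ := ini_wp (d := d) B (d + 11)
  obtain ⟨K₁, hK₁0, hK₁a, hK₁b⟩ : ∃ K₁ : ℝ, 0 < K₁ ∧ K' ≤ K₁ / 2 ∧ K'' ≤ K₁ / 2 := by
    refine ⟨2 * (K' + K''), by positivity, ?_, ?_⟩ <;> linarith
  obtain ⟨κa, hκa, hsa⟩ := hsup (d + 11) K₁ (by omega)
  obtain ⟨κb, hκb, hgx⟩ := good_x (d := d) hm N₀ K₁
  obtain ⟨κ₁, hκ₁, hκ₁a, hκ₁b⟩ : ∃ κ₁ : ℝ, 0 < κ₁ ∧ κ₁ ≤ κa ∧ κ₁ ≤ κb :=
    ⟨min κa κb, lt_min hκa hκb, min_le_left _ _, min_le_right _ _⟩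
  refine ⟨κ₁, hκ₁, Cl, fun T hT f hf hB hmass hNH => ?_⟩
  have hfc : IsClassicalSol T (fun t x => landauQ γ (f t x)) f := hf
  have hI := landau_inv hd h1 h2.le hf
  have hNHm : ∀ κ, κ₁ ≤ κ → ∀ t ∈ Ico 0 T, NH κ (f t) := fun κ hκ t ht x y v =>
    (hNH t ht x y v).trans (mul_le_mul_of_nonneg_right hκ (Wp_pos _ _).le)
  -- main step
  have key : ∀ T' : ℝ, 0 < T' → T' ≤ T → (∀ t ∈ Ico 0 T', ∀ x v, f t x v ≤ K₁ * Wp (d + 11) v) →
      ∀ t ∈ Ico 0 T', DC Cl (f t) ∧ ∀ x, Good (m / 2) N (f t x) := by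
    intro T' hT'0 hT'T hb
    have hf' : IsLandauSol γ T' f := Pool.Agent.H48.PI.sol_restrict hfc hT'T
    have hfc' : IsClassicalSol T' (fun t x => landauQ γ (f t x)) f := hf'
    have hmem : ∀ t ∈ Ico 0 T', t ∈ Ico 0 T := fun t ht => ⟨ht.1, ht.2.trans_le hT'T⟩
    have h0T : (0 : ℝ) ∈ Ico 0 T := ⟨le_rfl, hT'0.trans_le hT'T⟩
    have hS0 : Pool.Agent.H15.AV.Slice (f 0) := sol_slice hfc h0T
    have hgood : ∀ t ∈ Ico 0 T', ∀ x, Good (m / 2) N (f t x) := by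
      intro t ht x
      have hSt : Pool.Agent.H15.AV.Slice (f t) := sol_slice hfc (hmem t ht)
      have e1 := mass_const hfc hI (hmem t ht)
      have e2 := energy_const hfc hI (hmem t ht)
      have e3 := entropy_le (hth_landau h1 h2.le) hfc hI (hmem t ht)
      obtain ⟨g1, g2, g3⟩ := hN₀ (f 0) hS0 hB
      have := hgx (f t) hSt (hNHm κb hκ₁b t (hmem t ht))
        (fun x v => (hb t ht x v).trans (mul_le_mul_of_nonneg_left (wp_anti (by omega) v) hK₁0.le))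
        (by rw [e1]; exact hmass) (by rw [e1]; exact g1) (by rw [e2]; exact g2) (e3.trans g3) x
      rw [← hN] at this
      exact this
    have hmo : ∀ t ∈ Ico 0 T', mo k (f t) ≤ X := by
      intro t ht
      have h3 := hgrow T' f hf' hgood 0 t le_rfl ht.1 ht.2
      have h4 : 0 ≤ ∫ r in (0 : ℝ)..t, mo (k + 1) (f r) :=
        intervalIntegral.integral_nonneg ht.1 fun r hr =>
          mo_nonneg _ (hfc.nonneg r ⟨hr.1, hr.2.trans_lt (hmem t ht).2⟩)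
      have h5 := hM₀ (f 0) hS0 hB
      have h6 : mo k (f t) ≤ mo (k + 2) (f t) := mo_mono (by omega) (sol_slice hfc (hmem t ht))
      have h7 : C * (t - 0) ≤ C * max T₀ 0 :=
        mul_le_mul_of_nonneg_left (by
          rw [sub_zero]
          exact (ht.2.le.trans (hT'T.trans hT)).trans (le_max_left _ _)) hC
      have h8 : 0 ≤ c * ∫ r in (0 : ℝ)..t, mo (k + 1) (f r) := mul_nonneg hc.le h4
      rw [hX]
      linarith
    have hs := hsa T' f hf' hgood hmo hb (fun t ht => hNHm κa hκ₁a t (hmem t ht))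
    have hS'b' : ∀ t ∈ Ico 0 T', ∀ x v, f t x v ≤ S' * Wp (d + 10) v := by
      intro t ht x v
      rcases lt_or_ge t θ with htθ | htθ
      · have h3 := hU₁ T f hf hB t (hmem t ht) htθ
        exact (hC₁' (f t) (hfc.nonneg t (hmem t ht)) h3 x v).trans
          (mul_le_mul_of_nonneg_right hS'b (Wp_pos _ _).le)
      · have ht0 : 0 < t := hθ.trans_le htθ
        refine (hs t ⟨ht0, ht.2⟩ x v).trans (mul_le_mul_of_nonneg_right (le_trans ?_ hS'a) (Wp_pos _ _).le)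
        refine mul_le_mul_of_nonneg_left (pow_le_pow_left₀ (by positivity) ?_ d) (by linarith)
        have : 1 / t ≤ 1 / θ := one_div_le_one_div_of_le hθ htθ
        linarith
    have hdec := hCl T' f hf' hB (fun t ht x => (hgood t ht x).mass) hS'b'
    exact fun t ht => ⟨hdec t ht, hgood t ht⟩
  rcases lt_or_ge 0 T with hT0 | hT0
  · have h0T : (0 : ℝ) ∈ Ico 0 T := ⟨le_rfl, hT0⟩
    have hboot := boot_P hfc (d + 11) hK₁0 (fun x v =>
      (hK'' (f 0) (hfc.nonneg 0 h0T) hB x v).trans (mul_le_mul_of_nonneg_right hK₁b (Wp_pos _ _).le))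
      fun T' hT'0 hT'T hb t ht x v =>
        (hK' (f t) (hfc.nonneg t ⟨ht.1, ht.2.trans_le hT'T⟩) (key T' hT'0 hT'T hb t ht).1 x v).trans
          (mul_le_mul_of_nonneg_right hK₁a (Wp_pos _ _).le)
    exact key T hT0 le_rfl hboot
  · exact fun t ht => absurd (ht.1.trans_lt ht.2) (not_lt.2 hT0)

end Pool.Agent.H37.LN
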