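import Pool.Agent.H37.LN.Defs

/-!
# Module SupA: the weighted supremum is attained

`φ(t,x,v) = f t x v (1+nsq v)^q (t/(1+t))^n` on `K = [0,T'] × [0,1]^d × closedBall 0 R`: continuous (`hf.isCont`), so it has a maximum point on the compact `K` (`IsCompact.exists_isMaxOn`). If the supremum over `(0,T'] × ℝ^d × ℝ^d` is `0` any point with `t = T'` works. Otherwise there is a point with `φ > 0`,
value `s`; by `hf.decay T' hT (2q+1)`, `φ ≤ C (1+‖v‖)^(-1)·const < s` for `‖v‖ > R`, `R` large (`1 + nsq v ≤ (d+1)(1+‖v‖)²`, `one_add_sq_le`); by periodicity every `x` can be moved to the unit cube (copy `Boot_per` of H37/GH/Boot.lean and `hf.periodic`); at `t = 0` the value is `0` since `n ≥ 1`, so the maximum point has `t > 0`.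
-/

set_option autoImplicit false

open MeasureTheory Set Filter Topology Pool.Agent.H25.Kin Pool.Agent.H48.PR

namespace Pool.Agent.H37.LN

variable {d : ℕ} {T : ℝ} {Q f : ℝ → Vec d → Vec d → ℝ}

/-- reduction of the position to the unit cube -/
private lemma SupA_per {F : Vec d → ℝ} (hF : Per F) (x : Vec d) :
    ∃ y ∈ Icc (0 : Vec d) 1, F y = F x := by
  refine ⟨fun i => Int.fract (x i), ⟨fun i => Int.fract_nonneg _, fun i => (Int.fract_lt_one _).le⟩, ?_⟩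
  have hl : (fun i => (-(⌊x i⌋ : ℤ) : ℝ)) ∈
      Submodule.span ℤ (Set.range (Pi.basisFun ℝ (Fin d))) := by
    have e : (fun i => (-(⌊x i⌋ : ℤ) : ℝ)) = ∑ i, (-⌊x i⌋ : ℤ) • (Pi.basisFun ℝ (Fin d) i) := by
      funext j
      rw [Finset.sum_apply]
      simp only [Pi.basisFun_apply, Pi.smul_apply, Pi.single_apply]
      rw [Finset.sum_eq_single j]
      · simp
      · intro b _ hb
        simp [Ne.symm hb]
      · intro h
        exact absurd (Finset.mem_univ _) h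
    rw [e]
    exact Submodule.sum_mem _ fun i _ => Submodule.smul_mem _ _
      (Submodule.subset_span (Set.mem_range_self i))
  have h := hF.span hl x
  have e2 : (fun i => (-(⌊x i⌋ : ℤ) : ℝ)) + x = fun i => Int.fract (x i) := by
    funext i
    simp only [Pi.add_apply, Int.fract]
    ring
  rw [e2] at h
  exact h

/-- velocities with a large value of `F` are bounded -/
private lemma SupA_bdd (hf : IsClassicalSol T Q f) (p : ℕ)
    {T₁ : ℝ} (hT₁ : T₁ < T) {β : ℝ} (hβ : 0 < β) :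
    ∃ R : ℝ, ∀ t ∈ Icc 0 T₁, ∀ x v, β ≤ f t x v * (1 + nsq v) ^ p → ‖v‖ ≤ R := by
  obtain ⟨C, hC⟩ := hf.decay T₁ hT₁ (2 * p + 1)
  refine ⟨((d : ℝ) + 1) ^ p * C / β, fun t ht x v h => ?_⟩
  have h0 : 0 ≤ f t x v := hf.nonneg t ⟨ht.1, ht.2.trans_lt hT₁⟩ x v
  have h1 := hC t ht x v
  have hn := norm_nonneg v
  have hs0 : 0 ≤ nsq v := Finset.sum_nonneg fun i _ => sq_nonneg _
  have h2 : 1 + nsq v ≤ ((d : ℝ) + 1) * (1 + ‖v‖) ^ 2 := one_add_sq_le v
  have h5 : (1 + nsq v) ^ p ≤ ((d : ℝ) + 1) ^ p * (1 + ‖v‖) ^ (2 * p) := by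
    rw [pow_mul, ← mul_pow]
    exact pow_le_pow_left₀ (by linarith) h2 p
  have h6 : f t x v * (1 + nsq v) ^ p ≤ f t x v * (((d : ℝ) + 1) ^ p * (1 + ‖v‖) ^ (2 * p)) :=
    mul_le_mul_of_nonneg_left h5 h0
  rw [le_div_iff₀ hβ]
  have h7 : β * (1 + ‖v‖) ≤ ((d : ℝ) + 1) ^ p * C := by
    calc β * (1 + ‖v‖) ≤ (f t x v * (((d : ℝ) + 1) ^ p * (1 + ‖v‖) ^ (2 * p))) * (1 + ‖v‖) := by
          gcongr
          exact h.trans h6
      _ = ((d : ℝ) + 1) ^ p * ((1 + ‖v‖) ^ (2 * p + 1) * f t x v) := by ring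
      _ ≤ ((d : ℝ) + 1) ^ p * C := by gcongr
  nlinarith

theorem sup_att (hf : IsClassicalSol T Q f) {T' : ℝ} (h0 : 0 < T') (hT : T' < T) {n : ℕ} (hn : 1 ≤ n)
    (q : ℕ) : ∃ t₀ ∈ Ioc 0 T', ∃ x₀ v₀ : Vec d, ∀ t ∈ Ioc 0 T', ∀ x v : Vec d,
      f t x v * (1 + nsq v) ^ q * (t / (1 + t)) ^ n ≤
        f t₀ x₀ v₀ * (1 + nsq v₀) ^ q * (t₀ / (1 + t₀)) ^ n := by
  set φ : ℝ → Vec d → Vec d → ℝ := fun t x v => f t x v * (1 + nsq v) ^ q * (t / (1 + t)) ^ n with hφ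
  have hs0 : ∀ v : Vec d, 0 ≤ nsq v := fun v => Finset.sum_nonneg fun i _ => sq_nonneg _
  have hsub : Icc (0 : ℝ) T' ⊆ Ico 0 T := fun t ht => ⟨ht.1, ht.2.trans_lt hT⟩
  have hφ0 : ∀ t ∈ Icc (0 : ℝ) T', ∀ x v, 0 ≤ φ t x v := by
    intro t ht x v
    have h1 := hf.nonneg t (hsub ht) x v
    have h2 := hs0 v
    have h3 : 0 ≤ t / (1 + t) := div_nonneg ht.1 (by linarith [ht.1])
    simp only [hφ]
    positivity
  by_cases hz : ∀ t ∈ Ioc 0 T', ∀ x v : Vec d, φ t x v ≤ 0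
  · refine ⟨T', ⟨h0, le_refl _⟩, 0, 0, fun t ht x v => ?_⟩
    exact (hz t ht x v).trans (hφ0 T' ⟨h0.le, le_refl _⟩ 0 0)
  push Not at hz
  obtain ⟨t₁, ht₁, x₁, v₁, hpos⟩ := hz
  obtain ⟨R, hR⟩ := SupA_bdd hf q hT hpos
  have hle : ∀ t ∈ Icc (0 : ℝ) T', ∀ x v, φ t x v ≤ f t x v * (1 + nsq v) ^ q := by
    intro t ht x v
    have h1 := hf.nonneg t (hsub ht) x v
    have h2 := hs0 v
    have h3 : 0 ≤ t / (1 + t) := div_nonneg ht.1 (by linarith [ht.1])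
    have h4 : t / (1 + t) ≤ 1 := by
      rw [div_le_one (by linarith [ht.1])]; linarith
    have h5 : (t / (1 + t)) ^ n ≤ 1 := pow_le_one₀ h3 h4
    simp only [hφ]
    exact mul_le_of_le_one_right (by positivity) h5
  have hper : ∀ t ∈ Icc (0 : ℝ) T', ∀ v : Vec d, Per fun x => φ t x v := fun t ht v x i => by
    show f t (x + Pi.single i 1) v * (1 + nsq v) ^ q * (t / (1 + t)) ^ n =
      f t x v * (1 + nsq v) ^ q * (t / (1 + t)) ^ n
    rw [hf.periodic t (hsub ht) x v i]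
  set K : Set (ℝ × Vec d × Vec d) := Icc 0 T' ×ˢ (Icc (0 : Vec d) 1 ×ˢ Metric.closedBall (0 : Vec d) R)
    with hK
  have hKc : IsCompact K := isCompact_Icc.prod (isCompact_Icc.prod (isCompact_closedBall _ _))
  have hmemK : ∀ t ∈ Icc (0 : ℝ) T', ∀ x v, φ t₁ x₁ v₁ ≤ φ t x v →
      ∃ y, (t, y, v) ∈ K ∧ φ t y v = φ t x v := by
    intro t ht x v h
    obtain ⟨y, hy, hyx⟩ := SupA_per (hper t ht v) x
    refine ⟨y, ⟨ht, hy, ?_⟩, hyx⟩
    rw [Metric.mem_closedBall, dist_zero_right]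
    exact hR t ht x v (h.trans (hle t ht x v))
  have hcont : ContinuousOn (fun p : ℝ × Vec d × Vec d => φ p.1 p.2.1 p.2.2) K := by
    have h1 : ContinuousOn (unc f) K :=
      (show ContinuousOn (unc f) (Ico 0 T ×ˢ univ) from hf.isCont).mono
        fun p hp => ⟨hsub hp.1, mem_univ _⟩
    have h2 : Continuous (fun p : ℝ × Vec d × Vec d => (1 + nsq p.2.2) ^ q) := by
      unfold nsq
      fun_prop
    have h3 : ContinuousOn (fun p : ℝ × Vec d × Vec d => (p.1 / (1 + p.1)) ^ n) K := by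
      apply ContinuousOn.pow
      apply ContinuousOn.div continuous_fst.continuousOn
        (continuous_const.add continuous_fst).continuousOn
      intro p hp
      have := hp.1.1
      show (1 : ℝ) + p.1 ≠ 0
      linarith
    exact (h1.mul h2.continuousOn).mul h3
  have ht₁' : t₁ ∈ Icc (0 : ℝ) T' := ⟨ht₁.1.le, ht₁.2⟩
  obtain ⟨y₁, hy₁, hy₁e⟩ := hmemK t₁ ht₁' x₁ v₁ (le_refl _)
  obtain ⟨p₀, hp₀, hmax⟩ := hKc.exists_isMaxOn ⟨_, hy₁⟩ hcont
  obtain ⟨t₀, x₀, v₀⟩ := p₀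
  have hm1 : φ t₁ x₁ v₁ ≤ φ t₀ x₀ v₀ := by
    rw [← hy₁e]
    exact hmax hy₁
  have ht₀ : 0 < t₀ := by
    rcases eq_or_lt_of_le hp₀.1.1 with h | h
    · exfalso
      have h' : t₀ = 0 := h.symm
      have hz0 : φ t₀ x₀ v₀ = 0 := by
        simp only [hφ, h']
        rw [zero_div, zero_pow (by omega), mul_zero]
      rw [hz0] at hm1
      linarith
    · exact h
  refine ⟨t₀, ⟨ht₀, hp₀.1.2⟩, x₀, v₀, fun t ht x v => ?_⟩
  show φ t x v ≤ φ t₀ x₀ v₀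
  have ht' : t ∈ Icc (0 : ℝ) T' := ⟨ht.1.le, ht.2⟩
  rcases le_total (φ t₁ x₁ v₁) (φ t x v) with h | h
  · obtain ⟨y, hy, hye⟩ := hmemK t ht' x v h
    rw [← hye]
    exact hmax hy
  · exact h.trans hm1

end Pool.Agent.H37.LN
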