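import Pool.Agent.H37.LN.Defs
import Pool.Agent.H48.LN.Nd
import Pool.Agent.H48.LN.Bd
import Pool.Agent.H48.LN.AbU
import Pool.Agent.H48.LN.AbH
import Pool.Agent.H48.LN.CoA
import Pool.Agent.H48.LN.CbN

/-!
# Module SupK: the kinetic modulus at a point where the density is large

Apply `hK` to `u = f/(C₁ n)`, `A = ab γ (f t x) i j v`, `η = 1/(2C₁)`, with `V = 1 + nsq v₀`; for `len (v - v₀) ≤ 2r ≤ 1`: `1 + nsq v ≤ 4V`, `V ≤ 4(1 + nsq v)`. `f t x ≥ 0` is `Nice` for `t > 0` (`IsClassicalSol.nice`).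
* `|u| ≤ 1`: hypothesis. Periodicity, `C2On`: scalar multiple.
* symmetry of `ab`; ellipticity: `coercA`: `c₂ (1+nsq v)^(γ/2) nsq ξ ≤ A[ξ,ξ]`, and `(1+nsq v)^(γ/2) ≥ (1+nsq v)^(-1) ≥ 1/(4V)`; trace: `abU`: `∑ |ab i i| ≤ d · 2 · 4V · 2N`. So `lam = c₃/V` with `c₃ ≤ 1` small (depending on `c₂, N, d`) gives `2 lam ≤ c₂/(4V)`, `trace ≤ 1/lam`.
* oscillation: `A[f(t,x)](v) - A[f(t,y)](v) = ab (f t x - f t y)` (`ab_sub`, `ab_bd` with `q = d+10`, `C = κ`, `CW (d+10) κ`): `≤ K κ 4V` per entry, times `d nsq ξ`; `A[f(t,y)](v) - A[f(t,y)](w)`: `abH`: `192 (2r)^θ · 4V · 2N`, `θ = min 1 (γ+2)`, per entry. KMod requires the oscillation `≤ lam ^ 2 / C₀ * nsq ξ` (helper15, 13:50Z; `lam = c₃/V`): both are `≤ lam^2/(2 C₀) nsq ξ / d`-ish as soon as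
  `κ V³ ≤ c` and `r V^a ≤ c` with `a θ ≥ 3`, `c` small (`r^θ V³ ≤ (r V^a)^θ ≤ c^θ`). (`f t x ∈ CW` with some constant: decay of the solution.)
* equation: `transport u = landauQ/(C₁ n) = ∑ A ∂∂u + cb u` (`landau_nd`, `ctr`), `0 ≤ cb u ≤ cb`; `cb_near` with `ρ = R = r`, `n := C₁ n`: `cb ≤ K (C₁ n r^(d+γ) + 2 r^γ N) ≤ K (C₁ + 2N) r^(-2)` since `n r^(d+γ) = n r^(d+γ+2) r^(-2) ≤ r^(-2)` and `r^γ ≤ r^(-2)`. `G = max 1 (K (C₁+2N))`.
Conclusion with `x = y`: `len (w - v₀) ≤ (lam η/G)^m₀/C₀ r` where `(lam η/G)^m₀/C₀ = c₄ V^(-m₀)`: take `a ≥ m₀`, `c ≤ c₄`. `|u - u| ≤ 1/(2C₁)` is `|f - f| ≤ n/2`.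
-/

set_option autoImplicit false

open MeasureTheory Set Filter Topology Pool.Agent.H25.Kin Pool.Agent.H48.PR
open Pool.Agent.H15.AV (Good)
open Pool.Agent.H48.LN (KMod)

namespace Pool.Agent.H37.LN

variable {d : ℕ} {γ : ℝ}

private lemma SupK_V {v v₀ : Vec d} (h : len (v - v₀) ≤ 1) : 1 + nsq v ≤ 4 * (1 + nsq v₀) := by
  have h1 : nsq (v - v₀) ≤ 1 := by
    rw [← len_sq]
    exact pow_le_one₀ (len_nonneg _) h
  have h2 : nsq v ≤ 2 * nsq v₀ + 2 * nsq (v - v₀) := by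
    unfold nsq
    rw [Finset.mul_sum, Finset.mul_sum, ← Finset.sum_add_distrib]
    refine Finset.sum_le_sum fun i _ => ?_
    simp only [Pi.sub_apply]
    nlinarith [sq_nonneg (v i - 2 * v₀ i)]
  linarith [sq_nonneg' v₀]

private lemma SupK_quad {a : Fin d → Fin d → ℝ} {E : ℝ} (ha : ∀ i j, |a i j| ≤ E) (ξ : Vec d) :
    |∑ i, ∑ j, a i j * (ξ i * ξ j)| ≤ E * d * nsq ξ := by
  have h1 : |∑ i, ∑ j, a i j * (ξ i * ξ j)| ≤ ∑ i, ∑ j, E * ((ξ i ^ 2 + ξ j ^ 2) / 2) := by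
    refine (Finset.abs_sum_le_sum_abs _ _).trans (Finset.sum_le_sum fun i _ => ?_)
    refine (Finset.abs_sum_le_sum_abs _ _).trans (Finset.sum_le_sum fun j _ => ?_)
    rw [abs_mul]
    have h2 : |ξ i * ξ j| ≤ (ξ i ^ 2 + ξ j ^ 2) / 2 := by
      rw [abs_le]
      constructor <;> nlinarith [sq_nonneg (ξ i - ξ j), sq_nonneg (ξ i + ξ j)]
    exact mul_le_mul (ha i j) h2 (abs_nonneg _) ((abs_nonneg _).trans (ha i j))
  refine h1.trans (le_of_eq ?_)
  have h3 : ∀ i : Fin d, ∑ j, E * ((ξ i ^ 2 + ξ j ^ 2) / 2) =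
      E * d / 2 * ξ i ^ 2 + E / 2 * nsq ξ := by
    intro i
    have h4 : ∀ j : Fin d, E * ((ξ i ^ 2 + ξ j ^ 2) / 2) = E / 2 * ξ i ^ 2 + E / 2 * ξ j ^ 2 := by
      intro j
      ring
    simp_rw [h4]
    rw [Finset.sum_add_distrib, Finset.sum_const, Finset.card_univ, Fintype.card_fin,
      nsmul_eq_mul, ← Finset.mul_sum, nsq]
    ring
  simp_rw [h3]
  rw [Finset.sum_add_distrib, ← Finset.mul_sum, Finset.sum_const, Finset.card_univ,
    Fintype.card_fin, nsmul_eq_mul, nsq]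
  ring

private lemma SupK_CW {g : Vec d → ℝ} (hg : Nice g) (q : ℕ) : ∃ C, Pool.Agent.H48.LN.CW q C g := by
  obtain ⟨C, hC0, hC⟩ := hg.rd.bound (2 * q)
  refine ⟨C * ((d : ℝ) + 1) ^ q, hg.cont, fun v => ?_⟩
  have hs := sq_nonneg' v
  have hv := norm_nonneg v
  have h1 := one_add_sq_le v
  have h2 : (1 + nsq v) ^ q ≤ ((d : ℝ) + 1) ^ q * (1 + ‖v‖) ^ (2 * q) := by
    rw [pow_mul, ← mul_pow]
    exact pow_le_pow_left₀ (by positivity) h1 q
  have h3 := hC v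
  rw [Real.norm_eq_abs] at h3
  have h4 : ((1 + ‖v‖) ^ (2 * q))⁻¹ ≤ ((d : ℝ) + 1) ^ q * Wp q v := by
    unfold Wp
    rw [← one_div, ← div_eq_mul_inv, div_le_div_iff₀ (by positivity) (by positivity), one_mul]
    exact h2
  calc |g v| ≤ C * ((1 + ‖v‖) ^ (2 * q))⁻¹ := h3
    _ ≤ C * (((d : ℝ) + 1) ^ q * Wp q v) := mul_le_mul_of_nonneg_left h4 hC0
    _ = _ := by ring

private lemma SupK_mom {g : Vec d → ℝ} (hg : Nice g) {m N : ℝ} (hG : Good m N g) :
    ∫ v, g v * (1 + nsq v) ≤ 2 * N := by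
  have i1 : Integrable g := hg.rd.integrable hg.cont.aestronglyMeasurable
  have i2 : Integrable fun v => g v * nsq v :=
    (hg.rd.mul_PG PG.nsq).integrable (hg.cont.mul continuous_sq).aestronglyMeasurable
  have e : (fun v => g v * (1 + nsq v)) = fun v => g v + g v * nsq v := by
    funext v
    ring
  rw [e, integral_add i1 i2]
  linarith [hG.massU, hG.energy]

private lemma SupK_symm (γ : ℝ) (g : Vec d → ℝ) (i j : Fin d) (v : Vec d) :
    Pool.Agent.H15.AV.ab γ g i j v = Pool.Agent.H15.AV.ab γ g j i v := by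
  unfold Pool.Agent.H15.AV.ab conv
  have h : ∀ z : Vec d, landauA γ z i j = landauA γ z j i := by
    intro z
    unfold landauA
    rw [mul_comm (z i)]
    by_cases hij : i = j
    · rw [hij]
    · rw [if_neg hij, if_neg (Ne.symm hij)]
  simp_rw [h]

private lemma SupK_pd (c : ℝ) {g : Vec d → ℝ} (hg : Nice g) (i j : Fin d) (v : Vec d) :
    pd i (pd j fun w => c * g w) v = c * pd i (pd j g) v := by
  have h1 : (pd j fun w => c * g w) = fun w => c * pd j g w := by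
    funext w
    unfold pd
    rw [fderiv_const_mul (hg.diff w)]
    rfl
  rw [h1]
  show fderiv ℝ (fun w => c * pd j g w) v (Pi.single i 1) =
    c * fderiv ℝ (pd j g) v (Pi.single i 1)
  rw [fderiv_const_mul (hg.pd_diff j v)]
  rfl

private lemma SupK_num {C₀ K₂ N₁ c₃ c κ V r θ E : ℝ} {a : ℕ} (hC₀ : 1 ≤ C₀)
    (hK₂ : 0 ≤ K₂) (hN : 1 ≤ N₁) (hd : 2 ≤ d) (hθ : 0 < θ) (hθ1 : θ ≤ 1) (hV : 1 ≤ V) (hr : 0 < r)
    (c3p : 0 < c₃) (hc : 0 < c) (hκV : κ * V ^ 3 ≤ c) (hra : r * V ^ a ≤ c)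
    (ha : 3 ≤ (a : ℝ) * θ) (hE : E = K₂ * κ * (4 * V) + 192 * (2 * r) ^ θ * (4 * V) * (2 * N₁))
    (e1 : c ≤ c₃ ^ 2 / (2 * C₀ * (4 * d * K₂ + 1)))
    (e2 : c ≤ (c₃ ^ 2 / (2 * C₀ * (3072 * d * N₁))) ^ (1 / θ)) :
    E * d ≤ (c₃ / V) ^ 2 / C₀ := by
  have hd0 : (2 : ℝ) ≤ d := by exact_mod_cast hd
  have hV0 : 0 < V := by linarith
  have hx : 0 < c₃ ^ 2 / (2 * C₀ * (3072 * d * N₁)) := by positivity
  have f1 : c ^ θ ≤ c₃ ^ 2 / (2 * C₀ * (3072 * d * N₁)) := by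
    have := Real.rpow_le_rpow hc.le e2 hθ.le
    rwa [← Real.rpow_mul hx.le, one_div, inv_mul_cancel₀ hθ.ne', Real.rpow_one] at this
  have f2 : (2 * r) ^ θ ≤ 2 * r ^ θ := by
    rw [Real.mul_rpow (by norm_num) hr.le]
    have : (2 : ℝ) ^ θ ≤ 2 := by
      calc (2 : ℝ) ^ θ ≤ 2 ^ (1 : ℝ) := Real.rpow_le_rpow_of_exponent_le (by norm_num) hθ1
        _ = 2 := Real.rpow_one 2
    exact mul_le_mul_of_nonneg_right this (Real.rpow_nonneg hr.le θ)
  have f3 : r ^ θ * V ^ 3 ≤ c ^ θ := by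
    have g1 : (r * V ^ a) ^ θ ≤ c ^ θ := Real.rpow_le_rpow (by positivity) hra hθ.le
    rw [Real.mul_rpow hr.le (by positivity), ← Real.rpow_natCast V a, ← Real.rpow_mul hV0.le] at g1
    refine le_trans (mul_le_mul_of_nonneg_left ?_ (Real.rpow_nonneg hr.le θ)) g1
    calc V ^ 3 = V ^ (3 : ℝ) := by
          rw [← Real.rpow_natCast V 3]
          norm_num
      _ ≤ V ^ ((a : ℝ) * θ) := Real.rpow_le_rpow_of_exponent_le hV ha
  have f4 : 4 * d * K₂ * (κ * V ^ 3) * C₀ ≤ c₃ ^ 2 / 2 := by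
    have g1 : 4 * d * K₂ * (κ * V ^ 3) ≤ (4 * d * K₂ + 1) * c := by
      have : 0 ≤ 4 * (d : ℝ) * K₂ := by positivity
      calc 4 * d * K₂ * (κ * V ^ 3) ≤ 4 * d * K₂ * c := mul_le_mul_of_nonneg_left hκV this
        _ ≤ _ := by
          rw [add_mul, one_mul]
          linarith
    rw [le_div_iff₀ (by positivity)] at e1
    calc 4 * d * K₂ * (κ * V ^ 3) * C₀ ≤ (4 * d * K₂ + 1) * c * C₀ :=
          mul_le_mul_of_nonneg_right g1 (by linarith)
      _ = c * (2 * C₀ * (4 * d * K₂ + 1)) / 2 := by ring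
      _ ≤ c₃ ^ 2 / 2 := by linarith
  have f5 : 3072 * d * N₁ * (r ^ θ * V ^ 3) * C₀ ≤ c₃ ^ 2 / 2 := by
    rw [le_div_iff₀ (by positivity)] at f1
    calc 3072 * d * N₁ * (r ^ θ * V ^ 3) * C₀ ≤ 3072 * d * N₁ * c ^ θ * C₀ := by
          gcongr
      _ = c ^ θ * (2 * C₀ * (3072 * d * N₁)) / 2 := by ring
      _ ≤ c₃ ^ 2 / 2 := by linarith
  rw [div_pow, div_div, le_div_iff₀ (by positivity)]
  have f6 : E * d * (V ^ 2 * C₀) ≤ 4 * d * K₂ * (κ * V ^ 3) * C₀ +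
      3072 * d * N₁ * (r ^ θ * V ^ 3) * C₀ := by
    rw [hE]
    have g1 : 192 * (2 * r) ^ θ * (4 * V) * (2 * N₁) * d * (V ^ 2 * C₀) ≤
        192 * (2 * r ^ θ) * (4 * V) * (2 * N₁) * d * (V ^ 2 * C₀) := by
      gcongr
    calc (K₂ * κ * (4 * V) + 192 * (2 * r) ^ θ * (4 * V) * (2 * N₁)) * d * (V ^ 2 * C₀)
        = 4 * d * K₂ * (κ * V ^ 3) * C₀ +
          192 * (2 * r) ^ θ * (4 * V) * (2 * N₁) * d * (V ^ 2 * C₀) := by ring
      _ ≤ 4 * d * K₂ * (κ * V ^ 3) * C₀ +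
          192 * (2 * r ^ θ) * (4 * V) * (2 * N₁) * d * (V ^ 2 * C₀) := by linarith
      _ = 4 * d * K₂ * (κ * V ^ 3) * C₀ + 3072 * d * N₁ * (r ^ θ * V ^ 3) * C₀ := by ring
  linarith

theorem sup_kmod (hK : KMod d) (hd : 2 ≤ d) (h1 : -2 < γ) (h2 : γ ≤ 0) {m : ℝ} (hm : 0 < m) (N : ℝ)
    {C₁ : ℝ} (hC : 1 ≤ C₁) : ∃ c > 0, c ≤ 1 ∧ ∃ a : ℕ, ∀ (T : ℝ) (f : ℝ → Vec d → Vec d → ℝ),
      IsLandauSol γ T f → ∀ (t₀ r n κ : ℝ) (v₀ : Vec d), 0 < r → r * (1 + nsq v₀) ^ a ≤ c →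
      r ^ 2 < t₀ → t₀ < T → 0 < n → n * r ^ ((d : ℝ) + γ + 2) ≤ 1 → 0 ≤ κ → κ * (1 + nsq v₀) ^ 3 ≤ c →
      (∀ t ∈ Icc (t₀ - r ^ 2) t₀, ∀ x, Good m N (f t x)) → (∀ t ∈ Icc (t₀ - r ^ 2) t₀, NH κ (f t)) →
      (∀ t ∈ Icc (t₀ - r ^ 2) t₀, ∀ x v, len (v - v₀) ≤ 2 * r → f t x v ≤ C₁ * n) →
      ∀ x w : Vec d, len (w - v₀) * (1 + nsq v₀) ^ a ≤ c * r → |f t₀ x v₀ - f t₀ x w| ≤ n / 2 := by
  obtain ⟨C₀, hC₀, m₀, hKM⟩ := hK
  obtain ⟨c₂, hc₂, hco⟩ := Pool.Agent.H48.LN.coercA hd h1 h2 hm N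
  obtain ⟨K₁, hK₁, hcb⟩ := Pool.Agent.H48.LN.cb_near (d := d) (γ := γ) hd h1 h2
  obtain ⟨K₂, hK₂, hab⟩ := Pool.Agent.H48.LN.ab_bd (d := d) h1 h2 (q := d + 10) (by omega)
  set N₁ : ℝ := |N| + 1 with hN₁
  have hN0 : 1 ≤ N₁ := by
    have := abs_nonneg N
    linarith
  have hNN : N ≤ N₁ := by
    have := le_abs_self N
    linarith
  have hd0 : (2 : ℝ) ≤ d := by exact_mod_cast hd
  set c₃ : ℝ := min 1 (min (c₂ / 8) (1 / (16 * d * N₁))) with hc₃
  have c3p : 0 < c₃ := lt_min one_pos (lt_min (by positivity) (by positivity))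
  have c3a : c₃ ≤ 1 := min_le_left _ _
  have c3b : c₃ ≤ c₂ / 8 := (min_le_right _ _).trans (min_le_left _ _)
  have c3c : c₃ ≤ 1 / (16 * d * N₁) := (min_le_right _ _).trans (min_le_right _ _)
  set G : ℝ := max 1 (K₁ * (C₁ + 2 * N₁)) with hG
  have G1 : 1 ≤ G := le_max_left _ _
  have G2 : K₁ * (C₁ + 2 * N₁) ≤ G := le_max_right _ _
  set η : ℝ := 1 / (2 * C₁) with hη
  have ηp : 0 < η := by positivity
  have η1 : η ≤ 1 := by
    rw [hη, div_le_one (by positivity)]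
    linarith
  set θ : ℝ := min 1 (γ + 2) with hθd
  have hθ : 0 < θ := lt_min one_pos (by linarith)
  have hθ1 : θ ≤ 1 := min_le_left _ _
  obtain ⟨a₀, ha₀⟩ := exists_nat_ge (3 / θ)
  set a : ℕ := max a₀ m₀ with had
  have ha1 : 3 ≤ (a : ℝ) * θ := by
    rw [div_le_iff₀ hθ] at ha₀
    have : (a₀ : ℝ) ≤ a := by exact_mod_cast le_max_left _ _
    exact ha₀.trans (mul_le_mul_of_nonneg_right this hθ.le)
  have ha2 : m₀ ≤ a := le_max_right _ _
  set e₁ : ℝ := c₃ ^ 2 / (2 * C₀ * (4 * d * K₂ + 1)) with he₁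
  set e₂ : ℝ := (c₃ ^ 2 / (2 * C₀ * (3072 * d * N₁))) ^ (1 / θ) with he₂
  set e₃ : ℝ := (c₃ * η / G) ^ m₀ / C₀ with he₃
  have e1p : 0 < e₁ := by positivity
  have e2p : 0 < e₂ := Real.rpow_pos_of_pos (by positivity) _
  have e3p : 0 < e₃ := by positivity
  refine ⟨min (1 / 2) (min e₁ (min e₂ e₃)), lt_min (by norm_num) (lt_min e1p (lt_min e2p e3p)),
    (min_le_left _ _).trans (by norm_num), a, ?_⟩
  set c : ℝ := min (1 / 2) (min e₁ (min e₂ e₃)) with hcd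
  have cp : 0 < c := lt_min (by norm_num) (lt_min e1p (lt_min e2p e3p))
  have c0 : c ≤ 1 / 2 := min_le_left _ _
  have c1 : c ≤ e₁ := (min_le_right _ _).trans (min_le_left _ _)
  have c2 : c ≤ e₂ := (min_le_right _ _).trans ((min_le_right _ _).trans (min_le_left _ _))
  have c3 : c ≤ e₃ := (min_le_right _ _).trans ((min_le_right _ _).trans (min_le_right _ _))
  intro T f hf t₀ r n κ v₀ hr hra ht0 htT hn hnr hκ hκV hgood hNH hsup x w hw
  set V : ℝ := 1 + nsq v₀ with hVd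
  have hV1 : 1 ≤ V := by
    have := sq_nonneg' v₀
    linarith
  have hVp : 0 < V := by linarith
  have hVa : 1 ≤ V ^ a := one_le_pow₀ hV1
  have hr2 : r ≤ 1 / 2 := by
    have : r * 1 ≤ r * V ^ a := mul_le_mul_of_nonneg_left hVa hr.le
    linarith
  have hCn : 0 < C₁ * n := by positivity
  have htm : ∀ t ∈ Icc (t₀ - r ^ 2) t₀, t ∈ Ioo 0 T := fun t ht =>
    ⟨by linarith [ht.1], by linarith [ht.2]⟩
  have hnice : ∀ t ∈ Icc (t₀ - r ^ 2) t₀, ∀ x, Nice (f t x) := fun t ht x =>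
    IsClassicalSol.nice hf (htm t ht) x
  have hnn : ∀ t ∈ Icc (t₀ - r ^ 2) t₀, ∀ x v, 0 ≤ f t x v := fun t ht =>
    hf.nonneg t ⟨(htm t ht).1.le, (htm t ht).2⟩
  have hmom : ∀ t ∈ Icc (t₀ - r ^ 2) t₀, ∀ x, ∫ v, f t x v * (1 + nsq v) ≤ 2 * N₁ :=
    fun t ht x => (SupK_mom (hnice t ht x) (hgood t ht x)).trans (by linarith)
  have hloc : ∀ v : Vec d, len (v - v₀) ≤ r → 1 + nsq v ≤ 4 * V := fun v hv =>
    SupK_V (by linarith)
  set lam : ℝ := c₃ / V with hlam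
  have lamp : 0 < lam := by positivity
  have lam1 : lam ≤ 1 := by
    rw [hlam, div_le_one hVp]
    linarith
  have key := hKM lam G η r T t₀ lamp lam1 G1 ηp η1 hr (by linarith) ht0 htT v₀
    (fun t x v => (C₁ * n)⁻¹ * f t x v) (fun t x v i j => Pool.Agent.H15.AV.ab γ (f t x) i j v)
    (contDiffOn_const.mul hf.isC2)
    (fun t ht x v i => by
      show (C₁ * n)⁻¹ * f t (x + Pi.single i 1) v = (C₁ * n)⁻¹ * f t x v
      rw [hf.periodic t ⟨ht.1.le, ht.2⟩ x v i])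
    (fun t ht x v hv => by
      show |(C₁ * n)⁻¹ * f t x v| ≤ 1
      rw [abs_of_nonneg (mul_nonneg (by positivity) (hnn t ht x v)), inv_mul_le_iff₀ hCn, mul_one]
      exact hsup t ht x v (by linarith))
    (fun t ht x v hv => by
      refine ⟨fun i j => SupK_symm γ _ i j v, fun ξ => ?_, ?_⟩
      · have q1 := hco (f t x) (hnice t ht x) (hnn t ht x) (hgood t ht x) v ξ
        refine le_trans ?_ q1
        have q2 : (4 * V)⁻¹ ≤ (1 + nsq v) ^ (γ / 2) := by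
          have q3 := hloc v hv
          have q4 := sq_nonneg' v
          calc (4 * V)⁻¹ ≤ (1 + nsq v)⁻¹ := inv_anti₀ (by linarith) q3
            _ = (1 + nsq v) ^ (-1 : ℝ) := (Real.rpow_neg_one _).symm
            _ ≤ (1 + nsq v) ^ (γ / 2) :=
              Real.rpow_le_rpow_of_exponent_le (by linarith) (by linarith)
        have q5 : 2 * lam ≤ c₂ * (1 + nsq v) ^ (γ / 2) := by
          calc 2 * lam ≤ c₂ * (4 * V)⁻¹ := by
                rw [hlam, ← div_eq_mul_inv, ← mul_div_assoc, div_le_div_iff₀ hVp (by positivity)]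
                have : c₃ * V ≤ c₂ / 8 * V := mul_le_mul_of_nonneg_right c3b hVp.le
                linarith
            _ ≤ _ := mul_le_mul_of_nonneg_left q2 hc₂.le
        exact mul_le_mul_of_nonneg_right q5 (sq_nonneg' ξ)
      · have q1 : ∀ i : Fin d, Pool.Agent.H15.AV.ab γ (f t x) i i v ≤ 16 * N₁ * V := by
          intro i
          refine (le_abs_self _).trans ((Pool.Agent.H48.LN.abU h1 h2 (hnice t ht x) (hnn t ht x)
            i i v).trans ?_)
          have q3 := hloc v hv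
          have q4 := hmom t ht x
          have q5 := sq_nonneg' v
          calc 2 * (1 + nsq v) * ∫ w, f t x w * (1 + nsq w) ≤ 2 * (4 * V) * (2 * N₁) := by
                refine mul_le_mul (by linarith) q4 (integral_nonneg fun w => ?_) (by positivity)
                exact mul_nonneg (hnn t ht x w) (by linarith [sq_nonneg' w])
            _ = _ := by ring
        calc ∑ i, Pool.Agent.H15.AV.ab γ (f t x) i i v ≤ ∑ _i : Fin d, 16 * N₁ * V :=
              Finset.sum_le_sum fun i _ => q1 i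
          _ = d * (16 * N₁ * V) := by
            rw [Finset.sum_const, Finset.card_univ, Fintype.card_fin, nsmul_eq_mul]
          _ ≤ 1 / lam := by
            rw [hlam, one_div_div, le_div_iff₀ c3p]
            rw [le_div_iff₀ (by positivity)] at c3c
            have : c₃ * (16 * d * N₁) * V ≤ 1 * V := mul_le_mul_of_nonneg_right c3c hVp.le
            linarith [show d * (16 * N₁ * V) * c₃ = c₃ * (16 * d * N₁) * V by ring])
    (fun t ht x v y w hv hw ξ => by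
      have q0 : ∑ i, ∑ j, Pool.Agent.H15.AV.ab γ (f t x) i j v * (ξ i * ξ j) -
          ∑ i, ∑ j, Pool.Agent.H15.AV.ab γ (f t y) i j w * (ξ i * ξ j) =
          ∑ i, ∑ j, (Pool.Agent.H15.AV.ab γ (f t x) i j v -
            Pool.Agent.H15.AV.ab γ (f t y) i j w) * (ξ i * ξ j) := by
        rw [← Finset.sum_sub_distrib]
        refine Finset.sum_congr rfl fun i _ => ?_
        rw [← Finset.sum_sub_distrib]
        refine Finset.sum_congr rfl fun j _ => ?_
        ring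
      rw [q0]
      obtain ⟨D, hD⟩ := SupK_CW (hnice t ht x) (d + 10)
      obtain ⟨D', hD'⟩ := SupK_CW (hnice t ht y) (d + 10)
      have q1 : ∀ i j : Fin d, |Pool.Agent.H15.AV.ab γ (f t x) i j v -
          Pool.Agent.H15.AV.ab γ (f t y) i j w| ≤
          K₂ * κ * (4 * V) + 192 * (2 * r) ^ θ * (4 * V) * (2 * N₁) := by
        intro i j
        have q2 := Pool.Agent.H48.LN.ab_sub h1 h2 (by omega) hD hD' i j v
        have q3 := hab κ (fun w => f t x w - f t y w)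
          ⟨(hnice t ht x).cont.sub (hnice t ht y).cont, fun v => hNH t ht x y v⟩ i j v
        rw [q2] at q3
        have q4 : len (v - w) ≤ 2 * r := by
          have e : v - w = (v - v₀) - (w - v₀) := by abel
          rw [e]
          exact (Pool.Agent.H48.PL.len_sub_le _ _).trans (by linarith)
        have q5 := Pool.Agent.H48.LN.abH h1 h2 (hnice t ht y) (hnn t ht y) i j v w (by linarith)
        have q6 := hloc v hv
        have q7 := sq_nonneg' v
        have q8 : K₂ * κ * (1 + nsq v) ≤ K₂ * κ * (4 * V) :=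
          mul_le_mul_of_nonneg_left q6 (mul_nonneg hK₂ hκ)
        have q9 : 192 * len (v - w) ^ min 1 (γ + 2) * (1 + nsq v) *
            ∫ z, f t y z * (1 + nsq z) ≤ 192 * (2 * r) ^ θ * (4 * V) * (2 * N₁) := by
          have q10 : len (v - w) ^ min 1 (γ + 2) ≤ (2 * r) ^ θ :=
            Real.rpow_le_rpow (len_nonneg _) q4 hθ.le
          refine mul_le_mul (mul_le_mul (mul_le_mul_of_nonneg_left q10 (by norm_num)) q6
            (by linarith) (by positivity)) (hmom t ht y) (integral_nonneg fun z => ?_)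
            (by positivity)
          exact mul_nonneg (hnn t ht y z) (by linarith [sq_nonneg' z])
        have q11 : Pool.Agent.H15.AV.ab γ (f t x) i j v - Pool.Agent.H15.AV.ab γ (f t y) i j w =
            (Pool.Agent.H15.AV.ab γ (f t x) i j v - Pool.Agent.H15.AV.ab γ (f t y) i j v) +
            (Pool.Agent.H15.AV.ab γ (f t y) i j v - Pool.Agent.H15.AV.ab γ (f t y) i j w) := by
          ring
        rw [q11]
        exact (abs_add_le _ _).trans (add_le_add (q3.trans q8) (q5.trans q9))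
      refine (SupK_quad q1 ξ).trans (mul_le_mul_of_nonneg_right ?_ (sq_nonneg' ξ))
      exact SupK_num hC₀ hK₂ hN0 hd hθ hθ1 hV1 hr c3p cp hκV hra ha1 rfl c1 c2)
    (fun t ht x v hv => by
      have hg := hnice t ht x
      have hs := hf.solves t (htm t ht) x v
      have hdiff : DifferentiableAt ℝ (unc f) (t, x, v) :=
        (hf.isC2.contDiffAt ((isOpen_Ioo.prod isOpen_univ).mem_nhds
          ⟨htm t ht, mem_univ _⟩)).differentiableAt (by norm_num)
      have q1 : transport (fun t x v => (C₁ * n)⁻¹ * f t x v) t x v =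
          (C₁ * n)⁻¹ * transport f t x v := by
        unfold transport
        have e : unc (fun t x v => (C₁ * n)⁻¹ * f t x v) = fun p => (C₁ * n)⁻¹ * unc f p := rfl
        rw [e, fderiv_const_mul hdiff]
        rfl
      have q2 : ∑ i, ∑ j, Pool.Agent.H15.AV.ab γ (f t x) i j v *
          pd i (pd j ((fun t x v => (C₁ * n)⁻¹ * f t x v) t x)) v =
          (C₁ * n)⁻¹ * Pool.Agent.H48.LN.ctr γ (f t x) (f t x) v := by
        unfold Pool.Agent.H48.LN.ctr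
        rw [Finset.mul_sum]
        refine Finset.sum_congr rfl fun i _ => ?_
        rw [Finset.mul_sum]
        refine Finset.sum_congr rfl fun j _ => ?_
        rw [show ((fun t x v => (C₁ * n)⁻¹ * f t x v) t x) = fun w => (C₁ * n)⁻¹ * f t x w from rfl,
          SupK_pd _ hg]
        ring
      rw [q1, q2, hs, Pool.Agent.H48.LN.landau_nd hd h1 h2 hg v, ← mul_sub, add_sub_cancel_left]
      have q3 := Pool.Agent.H48.LN.cb_nn (γ := γ) hd h1 (hnn t ht x) v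
      have q4 := hcb (f t x) hg (hnn t ht x) v (C₁ * n) r r hr le_rfl (fun z hz => by
        refine hsup t ht x (v - z) ?_
        have e : v - z - v₀ = (v - v₀) - z := by abel
        rw [e]
        exact (Pool.Agent.H48.PL.len_sub_le _ _).trans (by linarith))
      have q5 : 0 ≤ f t x v := hnn t ht x v
      have q6 : f t x v ≤ C₁ * n := hsup t ht x v (by linarith)
      rw [abs_of_nonneg (mul_nonneg (by positivity) (mul_nonneg q3 q5))]
      have q7 : (C₁ * n)⁻¹ * (Pool.Agent.H48.LN.cb γ (f t x) v * f t x v) ≤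
          Pool.Agent.H48.LN.cb γ (f t x) v := by
        rw [inv_mul_le_iff₀ hCn, mul_comm (C₁ * n)]
        exact mul_le_mul_of_nonneg_left q6 q3
      refine q7.trans (q4.trans ?_)
      have i1 : Integrable (f t x) := hg.rd.integrable hg.cont.aestronglyMeasurable
      have q8 : ∫ z in {z : Vec d | len z ≤ r}, f t x (v - z) ≤ N₁ := by
        have i2 : Integrable fun z => f t x (v - z) := i1.comp_sub_left v
        calc ∫ z in {z : Vec d | len z ≤ r}, f t x (v - z) ≤ ∫ z, f t x (v - z) :=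
              setIntegral_le_integral i2 (Eventually.of_forall fun z => hnn t ht x (v - z))
          _ = ∫ z, f t x z := integral_sub_left_eq_self (f t x) volume v
          _ ≤ N₁ := (hgood t ht x).massU.trans hNN
      have q9 : ∫ z, f t x z ≤ N₁ := (hgood t ht x).massU.trans hNN
      have q10 : r ^ γ ≤ r ^ (-2 : ℝ) :=
        Real.rpow_le_rpow_of_exponent_ge hr (by linarith) h1.le
      have q11 : n * r ^ ((d : ℝ) + γ) ≤ r ^ (-2 : ℝ) := by
        have e : r ^ ((d : ℝ) + γ) = r ^ ((d : ℝ) + γ + 2) * r ^ (-2 : ℝ) := by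
          rw [← Real.rpow_add hr]
          congr 1
          ring
        rw [e, ← mul_assoc]
        calc n * r ^ ((d : ℝ) + γ + 2) * r ^ (-2 : ℝ) ≤ 1 * r ^ (-2 : ℝ) :=
              mul_le_mul_of_nonneg_right hnr (Real.rpow_nonneg hr.le _)
          _ = _ := one_mul _
      have q12 : r ^ (-2 : ℝ) = (r ^ 2)⁻¹ := by
        rw [Real.rpow_neg hr.le, ← Real.rpow_natCast r 2]
        norm_num
      have q13 : 0 ≤ r ^ γ := Real.rpow_nonneg hr.le γ
      have q14 : C₁ * n * r ^ ((d : ℝ) + γ) +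
          r ^ γ * (∫ z in {z : Vec d | len z ≤ r}, f t x (v - z)) + r ^ γ * (∫ z, f t x z) ≤
          (C₁ + 2 * N₁) * (r ^ 2)⁻¹ := by
        rw [← q12]
        have b1 : C₁ * n * r ^ ((d : ℝ) + γ) ≤ C₁ * r ^ (-2 : ℝ) := by
          rw [mul_assoc]
          exact mul_le_mul_of_nonneg_left q11 (by linarith)
        have b2 : r ^ γ * (∫ z in {z : Vec d | len z ≤ r}, f t x (v - z)) ≤
            r ^ (-2 : ℝ) * N₁ :=
          (mul_le_mul_of_nonneg_left q8 q13).trans (mul_le_mul_of_nonneg_right q10 (by linarith))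
        have b3 : r ^ γ * (∫ z, f t x z) ≤ r ^ (-2 : ℝ) * N₁ :=
          (mul_le_mul_of_nonneg_left q9 q13).trans (mul_le_mul_of_nonneg_right q10 (by linarith))
        calc _ ≤ C₁ * r ^ (-2 : ℝ) + r ^ (-2 : ℝ) * N₁ + r ^ (-2 : ℝ) * N₁ :=
              add_le_add (add_le_add b1 b2) b3
          _ = _ := by ring
      calc _ ≤ K₁ * ((C₁ + 2 * N₁) * (r ^ 2)⁻¹) := mul_le_mul_of_nonneg_left q14 hK₁
        _ = K₁ * (C₁ + 2 * N₁) * (r ^ 2)⁻¹ := by ring
        _ ≤ G * (r ^ 2)⁻¹ := mul_le_mul_of_nonneg_right G2 (by positivity)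
        _ = G / r ^ 2 := (div_eq_mul_inv _ _).symm)
    x x w
    (by
      have hx : len (x - x) = 0 := by rw [sub_self, len_zero]
      rw [hx]
      positivity)
    (by
      have hl := len_nonneg (w - v₀)
      have q1 : (lam * η / G) ^ m₀ / C₀ = e₃ / V ^ m₀ := by
        rw [he₃, hlam]
        have e : c₃ / V * η / G = c₃ * η / G / V := by
          field_simp
        rw [e, div_pow (c₃ * η / G) V m₀]
        field_simp
      rw [q1, div_mul_eq_mul_div, le_div_iff₀ (by positivity)]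
      have q2 : V ^ m₀ ≤ V ^ a := pow_le_pow_right₀ hV1 ha2
      calc len (w - v₀) * V ^ m₀ ≤ len (w - v₀) * V ^ a := mul_le_mul_of_nonneg_left q2 hl
        _ ≤ c * r := hw
        _ ≤ e₃ * r := mul_le_mul_of_nonneg_right c3 hr.le)
  have k1 : |(C₁ * n)⁻¹ * f t₀ x v₀ - (C₁ * n)⁻¹ * f t₀ x w| ≤ η := key
  rw [← mul_sub, abs_mul, abs_of_pos (inv_pos.2 hCn), inv_mul_le_iff₀ hCn] at k1
  refine k1.trans (le_of_eq ?_)
  rw [hη]
  field_simp

end Pool.Agent.H37.LN
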