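import Pool.Agent.H37.LN.Defs

/-!
# Module SupV: a lower bound on a small ball gives a lower bound of a moment

Euclidean ball of radius `ρ` around `v₀` contains the cube `{w | ‖w - v₀‖ ≤ ρ/(d+1)}` (`len z ≤ (d+1) ‖z‖`, from `sq_le : nsq z ≤ d ‖z‖²`), of volume `(2ρ/(d+1))^d` (`Real.volume_Icc_pi` or `volume_closedBall` for `Fin d → ℝ`: `Real.volume_pi_closedBall`). There `1 + nsq w ≥ (1 + nsq v₀)/4` (`nsq v₀ ≤ 2 nsq w + 2`, as `ρ ≤ 1`:
`1 + nsq v₀ ≤ 3 + 2 nsq w ≤ 4 (1 + nsq w)`), so `F x w (1+nsq w)^k ≥ n (1+nsq v₀)^k/4^k`. `mo k F ≥` the integral over the product of the cube and the unit cube of positions (`muD` has mass one). Integrability: `hF.decay`, `integrable_nu` (H25/Kin/Per or Trans), continuity `hF.cont`.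
-/

set_option autoImplicit false

open MeasureTheory Set Filter Topology Pool.Agent.H25.Kin Pool.Agent.H48.PR
open Pool.Agent.H15.AV (Slice)

namespace Pool.Agent.H37.LN

variable {d : ℕ}

private lemma SupV_int (k : ℕ) {F : Vec d → Vec d → ℝ} (hF : Slice F) :
    Integrable (fun q : Vec d × Vec d => F q.2 q.1 * (1 + nsq q.1) ^ k) (nu d) := by
  obtain ⟨C, hC⟩ := hF.decay (2 * k + (d + 1))
  have hc1 : Continuous fun q : Vec d × Vec d => F q.2 q.1 :=
    hF.cont.comp (by fun_prop : Continuous fun q : Vec d × Vec d => (q.2, q.1))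
  have hc2 : Continuous fun q : Vec d × Vec d => (1 + nsq q.1) ^ k := by
    unfold nsq
    fun_prop
  refine integrable_nu (C := ((d : ℝ) + 1) ^ k * C) (hc1.mul hc2).aestronglyMeasurable fun q => ?_
  have h0 : 0 ≤ F q.2 q.1 := hF.nonneg q.2 q.1
  have hn := norm_nonneg q.1
  have hs0 : 0 ≤ nsq q.1 := by
    unfold nsq
    exact Finset.sum_nonneg fun i _ => sq_nonneg _
  have hw : 0 < (1 + ‖q.1‖) ^ (d + 1) := by positivity
  have h2 : 1 + nsq q.1 ≤ ((d : ℝ) + 1) * (1 + ‖q.1‖) ^ 2 := by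
    have h3 := sq_le q.1
    have h4 : (0 : ℝ) ≤ d := Nat.cast_nonneg _
    nlinarith [mul_nonneg h4 hn]
  have h5 : (1 + nsq q.1) ^ k ≤ ((d : ℝ) + 1) ^ k * (1 + ‖q.1‖) ^ (2 * k) := by
    rw [pow_mul, ← mul_pow]
    exact pow_le_pow_left₀ (by linarith) h2 k
  have h6 := hC q.2 q.1
  rw [abs_of_nonneg (mul_nonneg h0 (pow_nonneg (by linarith) k))]
  unfold wt
  rw [← div_eq_mul_inv, le_div_iff₀ hw]
  calc F q.2 q.1 * (1 + nsq q.1) ^ k * (1 + ‖q.1‖) ^ (d + 1)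
      ≤ F q.2 q.1 * (((d : ℝ) + 1) ^ k * (1 + ‖q.1‖) ^ (2 * k)) * (1 + ‖q.1‖) ^ (d + 1) := by
        gcongr
    _ = ((d : ℝ) + 1) ^ k * ((1 + ‖q.1‖) ^ (2 * k + (d + 1)) * F q.2 q.1) := by ring
    _ ≤ ((d : ℝ) + 1) ^ k * C := by gcongr

private lemma SupV_len (z : Vec d) : len z ≤ ((d : ℝ) + 1) * ‖z‖ := by
  have hd0 : (0 : ℝ) ≤ d := Nat.cast_nonneg _
  have hn := norm_nonneg z
  unfold len
  rw [← Real.sqrt_sq (mul_nonneg (by linarith : (0 : ℝ) ≤ (d : ℝ) + 1) hn)]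
  refine Real.sqrt_le_sqrt ((sq_le z).trans ?_)
  have h1 : (d : ℝ) ≤ ((d : ℝ) + 1) ^ 2 := by nlinarith
  rw [mul_pow]
  exact mul_le_mul_of_nonneg_right h1 (by positivity)

private lemma SupV_mu (d : ℕ) : muD d univ = 1 := by
  unfold muD
  rw [Measure.restrict_apply_univ, Real.volume_Icc_pi]
  simp

private lemma SupV_nsq (v w : Vec d) : nsq v ≤ 2 * nsq w + 2 * nsq (w - v) := by
  unfold nsq
  rw [Finset.mul_sum, Finset.mul_sum, ← Finset.sum_add_distrib]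
  refine Finset.sum_le_sum fun i _ => ?_
  rw [Pi.sub_apply]
  nlinarith [sq_nonneg (2 * w i - v i)]

theorem sup_mass (d : ℕ) (k : ℕ) : ∃ c > 0, ∀ F : Vec d → Vec d → ℝ, Slice F → ∀ (n ρ : ℝ) (v₀ : Vec d),
    0 ≤ n → 0 < ρ → ρ ≤ 1 → (∀ x w : Vec d, len (w - v₀) ≤ ρ → n ≤ F x w) →
      c * n * ρ ^ d * (1 + nsq v₀) ^ k ≤ mo k F := by
  refine ⟨(2 / ((d : ℝ) + 1)) ^ d / 4 ^ k, by positivity, fun F hF n ρ v₀ hn hρ hρ1 hb => ?_⟩
  have hd0 : (0 : ℝ) < (d : ℝ) + 1 := by positivity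
  set r : ℝ := ρ / ((d : ℝ) + 1) with hr
  have hr0 : 0 ≤ r := by positivity
  have hint := SupV_int k hF
  set S : Set (Vec d × Vec d) := Metric.closedBall v₀ r ×ˢ univ with hS
  have hSm : MeasurableSet S := measurableSet_closedBall.prod MeasurableSet.univ
  have hv0 : 0 ≤ nsq v₀ := by
    unfold nsq
    exact Finset.sum_nonneg fun i _ => sq_nonneg _
  have hnn : ∀ q : Vec d × Vec d, 0 ≤ F q.2 q.1 * (1 + nsq q.1) ^ k := by
    intro q
    refine mul_nonneg (hF.nonneg _ _) (pow_nonneg ?_ k)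
    have : 0 ≤ nsq q.1 := by
      unfold nsq
      exact Finset.sum_nonneg fun i _ => sq_nonneg _
    linarith
  have hlow : ∀ q ∈ S, n * (1 + nsq v₀) ^ k / 4 ^ k ≤ F q.2 q.1 * (1 + nsq q.1) ^ k := by
    intro q hq
    have hq1 : ‖q.1 - v₀‖ ≤ r := by
      have := hq.1
      rwa [Metric.mem_closedBall, dist_eq_norm] at this
    have hl : len (q.1 - v₀) ≤ ρ := by
      refine (SupV_len _).trans ?_
      calc ((d : ℝ) + 1) * ‖q.1 - v₀‖ ≤ ((d : ℝ) + 1) * r := by gcongr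
        _ = ρ := by rw [hr]; field_simp
    have h1 := hb q.2 q.1 hl
    have h2 : nsq (q.1 - v₀) ≤ 1 := by
      unfold len at hl
      have h3 : Real.sqrt (nsq (q.1 - v₀)) ≤ 1 := hl.trans hρ1
      by_contra hcon
      push Not at hcon
      have h33 : 1 < Real.sqrt (nsq (q.1 - v₀)) := by
        rw [Real.lt_sqrt zero_le_one]
        simpa using hcon
      linarith
    have h4 := SupV_nsq v₀ q.1
    have h5 : (1 + nsq v₀) / 4 ≤ 1 + nsq q.1 := by
      have h6 : 0 ≤ nsq q.1 := by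
        unfold nsq
        exact Finset.sum_nonneg fun i _ => sq_nonneg _
      linarith
    have h7 : (1 + nsq v₀) ^ k / 4 ^ k ≤ (1 + nsq q.1) ^ k := by
      rw [← div_pow]
      exact pow_le_pow_left₀ (by positivity) h5 k
    calc n * (1 + nsq v₀) ^ k / 4 ^ k = n * ((1 + nsq v₀) ^ k / 4 ^ k) := by ring
      _ ≤ F q.2 q.1 * (1 + nsq q.1) ^ k :=
        mul_le_mul h1 h7 (by positivity) (hF.nonneg _ _)
  have hSf : nu d S ≠ ⊤ := by
    rw [hS]
    unfold nu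
    rw [Measure.prod_prod, SupV_mu, mul_one, Real.volume_pi_closedBall _ hr0]
    exact ENNReal.ofReal_ne_top
  have hSv : (nu d).real S = (2 * r) ^ d := by
    rw [Measure.real, hS]
    unfold nu
    rw [Measure.prod_prod, SupV_mu, mul_one, Real.volume_pi_closedBall _ hr0, Fintype.card_fin,
      ENNReal.toReal_ofReal (by positivity)]
  have h1 : ∫ q in S, F q.2 q.1 * (1 + nsq q.1) ^ k ∂(nu d) ≤ mo k F := by
    unfold mo
    exact setIntegral_le_integral hint (Eventually.of_forall hnn)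
  have h2 : ∫ _ in S, n * (1 + nsq v₀) ^ k / 4 ^ k ∂(nu d) ≤
      ∫ q in S, F q.2 q.1 * (1 + nsq q.1) ^ k ∂(nu d) := by
    refine setIntegral_mono_on ?_ hint.integrableOn hSm hlow
    exact integrableOn_const hSf
  rw [setIntegral_const, hSv, smul_eq_mul] at h2
  refine le_trans (le_of_eq ?_) (h2.trans h1)
  rw [hr, div_pow, mul_pow, div_pow]
  ring

end Pool.Agent.H37.LN
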