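import Pool.Agent.H37.LN.SupA
import Pool.Agent.H37.LN.SupV
import Pool.Agent.H37.LN.SupK

/-!
# Module SupM: the sup theorem

`S` does not depend on the decay constant `K₁`. See the master paper, section 2: at the maximum point `(t₀,x₀,v₀)` of `f (1+nsq v)^q (t/(1+t))^d`, `n = f t₀ x₀ v₀`, `V = 1 + nsq v₀ ≤ max K₁ 1`, `r = min (c/V^a) (t₀/(2(1+t₀))) (n^(-1/D))`, `D = d+γ+2`.
-/

set_option autoImplicit false

open MeasureTheory Set Filter Topology Pool.Agent.H25.Kin Pool.Agent.H48.PR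
open Pool.Agent.H15.AV (Good sol_slice)
open Pool.Agent.H48.LN (KMod)

namespace Pool.Agent.H37.LN

variable {d : ℕ} {γ : ℝ}

private lemma sm_V {v₀ v : Vec d} (h : len (v - v₀) ≤ 1) : 1 + nsq v₀ ≤ 4 * (1 + nsq v) := by
  have h1 : nsq v₀ ≤ 2 * nsq v + 2 * nsq (v - v₀) := by
    unfold nsq
    rw [Finset.mul_sum, Finset.mul_sum, ← Finset.sum_add_distrib]
    refine Finset.sum_le_sum fun i _ => ?_
    rw [Pi.sub_apply]
    nlinarith [sq_nonneg (2 * v i - v₀ i)]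
  have h2 : nsq (v - v₀) ≤ 1 := by
    rw [← len_sq]
    have := len_nonneg (v - v₀)
    nlinarith
  have h3 := sq_nonneg' v
  linarith

/-- the three cases of the minimum -/
private lemma sm_num {n V t c Y D θ : ℝ} {a q d : ℕ} (hn : 0 < n) (hV : 1 ≤ V) (ht : 0 < t) (hc : 0 < c)
    (hc1 : c ≤ 1) (hY : 1 ≤ Y) (hD : 0 < D) (hθ : 0 < θ) (hθ1 : θ ≤ 1) (hθD : 1 - d / D = θ) {r : ℝ}
    (hr : r = min (c / V ^ a) (min (t / (2 * (1 + t))) (n ^ (-(1 / D)))))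
    (h : n * r ^ d * V ^ (a * d + q) ≤ Y) :
    n * V ^ q * (t / (1 + t)) ^ d ≤ Y / c ^ d + 2 ^ d * Y + Y ^ (1 / θ) := by
  have hV0 : 0 < V := by linarith
  have hVa : 1 ≤ V ^ a := one_le_pow₀ hV
  have hVad : 1 ≤ V ^ (a * d) := one_le_pow₀ hV
  have hVq : 0 < V ^ q := by positivity
  have hg : 0 ≤ t / (1 + t) := by positivity
  have hg1 : t / (1 + t) ≤ 1 := by
    rw [div_le_one (by linarith)]
    linarith
  have hgd : (t / (1 + t)) ^ d ≤ 1 := pow_le_one₀ hg hg1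
  have hgd0 : 0 ≤ (t / (1 + t)) ^ d := by positivity
  have p1 : 0 ≤ Y / c ^ d := by positivity
  have p2 : 0 ≤ 2 ^ d * Y := by positivity
  have p3 : 0 ≤ Y ^ (1 / θ) := Real.rpow_nonneg (by linarith) _
  rcases min_choice (c / V ^ a) (min (t / (2 * (1 + t))) (n ^ (-(1 / D)))) with hm | hm
  · rw [hm] at hr
    have h2 : n * V ^ q * c ^ d ≤ Y := by
      have e : n * r ^ d * V ^ (a * d + q) = n * V ^ q * c ^ d := by
        rw [hr, div_pow, ← pow_mul, pow_add]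
        field_simp
      rw [← e]
      exact h
    have h3 : n * V ^ q ≤ Y / c ^ d := by
      rw [le_div_iff₀ (by positivity)]
      exact h2
    have h4 : n * V ^ q * (t / (1 + t)) ^ d ≤ n * V ^ q * 1 :=
      mul_le_mul_of_nonneg_left hgd (by positivity)
    linarith
  · rw [hm] at hr
    rcases min_choice (t / (2 * (1 + t))) (n ^ (-(1 / D))) with hm2 | hm2
    · rw [hm2] at hr
      have e : n * r ^ d * V ^ (a * d + q) = n * V ^ q * (t / (1 + t)) ^ d * V ^ (a * d) / 2 ^ d := by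
        have e1 : t / (2 * (1 + t)) = t / (1 + t) / 2 := by
          have : (1 + t) ≠ 0 := by positivity
          field_simp
        rw [hr, e1, div_pow (t / (1 + t)) 2, pow_add]
        ring
      rw [e, div_le_iff₀ (by positivity)] at h
      have h4 : n * V ^ q * (t / (1 + t)) ^ d * 1 ≤ n * V ^ q * (t / (1 + t)) ^ d * V ^ (a * d) :=
        mul_le_mul_of_nonneg_left hVad (by positivity)
      linarith
    · rw [hm2] at hr
      have hnD : 0 < n ^ (-(1 / D)) := Real.rpow_pos_of_pos hn _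
      have e1 : n * r ^ d = n ^ θ := by
        rw [hr, ← Real.rpow_natCast (n ^ (-(1 / D))) d, ← Real.rpow_mul hn.le]
        nth_rewrite 1 [← Real.rpow_one n]
        rw [← Real.rpow_add hn]
        congr 1
        rw [← hθD]
        ring
      rw [e1, pow_add] at h
      have h5 : n ^ θ * V ^ q ≤ Y := by
        have h6 : n ^ θ * (1 * V ^ q) ≤ n ^ θ * (V ^ (a * d) * V ^ q) :=
          mul_le_mul_of_nonneg_left (mul_le_mul_of_nonneg_right hVad hVq.le)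
            (Real.rpow_nonneg hn.le _)
        linarith
      have h7 : (n * V ^ q) ^ θ ≤ Y := by
        rw [Real.mul_rpow hn.le hVq.le]
        refine le_trans (mul_le_mul_of_nonneg_left ?_ (Real.rpow_nonneg hn.le _)) h5
        calc (V ^ q) ^ θ ≤ (V ^ q) ^ (1 : ℝ) :=
              Real.rpow_le_rpow_of_exponent_le (one_le_pow₀ hV) hθ1
          _ = V ^ q := Real.rpow_one _
      have h8 : n * V ^ q ≤ Y ^ (1 / θ) := by
        have h9 := Real.rpow_le_rpow (Real.rpow_nonneg (by positivity) _) h7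
          (by positivity : 0 ≤ 1 / θ)
        rwa [← Real.rpow_mul (by positivity), mul_one_div_cancel hθ.ne', Real.rpow_one] at h9
      have h4 : n * V ^ q * (t / (1 + t)) ^ d ≤ n * V ^ q * 1 :=
        mul_le_mul_of_nonneg_left hgd (by positivity)
      linarith

theorem sup_L (hK : KMod d) (hd : 2 ≤ d) (h1 : -2 < γ) (h2 : γ ≤ 0) {m : ℝ} (hm : 0 < m) (N : ℝ) :
    ∃ k : ℕ, ∀ X : ℝ, ∃ S : ℝ, 1 ≤ S ∧ ∀ (P : ℕ) (K₁ : ℝ), d + 10 < P → ∃ κ₁ > 0,
      ∀ (T : ℝ) (f : ℝ → Vec d → Vec d → ℝ), IsLandauSol γ T f →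
      (∀ t ∈ Ico 0 T, ∀ x, Good m N (f t x)) → (∀ t ∈ Ico 0 T, mo k (f t) ≤ X) →
      (∀ t ∈ Ico 0 T, ∀ x v, f t x v ≤ K₁ * Wp P v) → (∀ t ∈ Ico 0 T, NH κ₁ (f t)) →
      ∀ t ∈ Ioo 0 T, ∀ x v, f t x v ≤ S * (1 + 1 / t) ^ d * Wp (d + 10) v := by
  obtain ⟨C₁, hC₁⟩ : ∃ C₁ : ℝ, C₁ = 4 ^ (d + 10) * 2 ^ d := ⟨_, rfl⟩
  have hC₁1 : 1 ≤ C₁ := by
    rw [hC₁]
    exact one_le_mul_of_one_le_of_one_le (one_le_pow₀ (by norm_num)) (one_le_pow₀ (by norm_num))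
  obtain ⟨c, hc, hc1, a, hkm⟩ := sup_kmod hK hd h1 h2 hm N hC₁1
  obtain ⟨k, hk⟩ : ∃ k : ℕ, k = 2 * (a * d) + (d + 10) := ⟨_, rfl⟩
  obtain ⟨cs, hcs, hmass⟩ := sup_mass d k
  have hdR : (2 : ℝ) ≤ d := by exact_mod_cast hd
  obtain ⟨D, hD⟩ : ∃ D : ℝ, D = (d : ℝ) + γ + 2 := ⟨_, rfl⟩
  have hD0 : 0 < D := by rw [hD]; linarith
  obtain ⟨θ, hθ⟩ : ∃ θ : ℝ, θ = (γ + 2) / D := ⟨_, rfl⟩
  have hθ0 : 0 < θ := by rw [hθ]; exact div_pos (by linarith) hD0
  have hθ1 : θ ≤ 1 := by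
    rw [hθ, div_le_one hD0, hD]
    linarith
  have hθD : 1 - d / D = θ := by
    rw [hθ, eq_div_iff hD0.ne']
    field_simp
    rw [hD]
    ring
  refine ⟨k, fun X => ?_⟩
  obtain ⟨Y, hY⟩ : ∃ Y : ℝ, Y = max 1 (4 * X / (cs * c ^ d)) := ⟨_, rfl⟩
  have hY1 : 1 ≤ Y := by rw [hY]; exact le_max_left _ _
  have hYX : 4 * X ≤ Y * (cs * c ^ d) := by
    have : 4 * X / (cs * c ^ d) ≤ Y := by rw [hY]; exact le_max_right _ _
    rwa [div_le_iff₀ (by positivity)] at this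
  obtain ⟨S', hS'⟩ : ∃ S' : ℝ, S' = Y / c ^ d + 2 ^ d * Y + Y ^ (1 / θ) := ⟨_, rfl⟩
  have hS'0 : 0 ≤ S' := by
    have := Real.rpow_nonneg (by linarith : (0 : ℝ) ≤ Y) (1 / θ)
    rw [hS']
    positivity
  refine ⟨S' + 1, by linarith, fun P K₁ hP => ?_⟩
  obtain ⟨M, hM⟩ : ∃ M : ℝ, M = max K₁ 1 := ⟨_, rfl⟩
  have hM1 : 1 ≤ M := by rw [hM]; exact le_max_right _ _
  have hMK : K₁ ≤ M := by rw [hM]; exact le_max_left _ _
  obtain ⟨κ₁, hκ₁, hκa, hκb⟩ : ∃ κ₁ : ℝ, 0 < κ₁ ∧ κ₁ ≤ c / M ^ 3 ∧ κ₁ ≤ (1 / 4) ^ (d + 11) :=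
    ⟨min (c / M ^ 3) ((1 / 4) ^ (d + 11)), lt_min (by positivity) (by positivity),
      min_le_left _ _, min_le_right _ _⟩
  refine ⟨κ₁, hκ₁, fun T f hf hG hX hP1 hN t ht x v => ?_⟩
  have hfc : IsClassicalSol T (fun t x => landauQ γ (f t x)) f := hf
  obtain ⟨t₀, ht₀, x₀, v₀, hmax⟩ := sup_att hfc ht.1 ht.2 (n := d) (by omega) (d + 10)
  have ht₀T : t₀ ∈ Ioo 0 T := ⟨ht₀.1, ht₀.2.trans_lt ht.2⟩
  have ht00 : 0 < t₀ := ht₀.1
  have hw : ∀ w : Vec d, 0 < 1 + nsq w := fun w => by linarith [sq_nonneg' w]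
  have hw1 : ∀ w : Vec d, 1 ≤ 1 + nsq w := fun w => by linarith [sq_nonneg' w]
  -- it suffices to bound the maximum
  obtain ⟨n, hn⟩ : ∃ n : ℝ, n = f t₀ x₀ v₀ := ⟨_, rfl⟩
  obtain ⟨V, hV⟩ : ∃ V : ℝ, V = 1 + nsq v₀ := ⟨_, rfl⟩
  have hV1 : 1 ≤ V := by rw [hV]; exact hw1 v₀
  have hV0 : 0 < V := by linarith
  obtain ⟨S₀, hS₀⟩ : ∃ S₀ : ℝ, S₀ = n * V ^ (d + 10) * (t₀ / (1 + t₀)) ^ d := ⟨_, rfl⟩
  have hg0 : 0 < t₀ / (1 + t₀) := div_pos ht00 (by linarith)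
  have hn0 : 0 ≤ n := by
    rw [hn]
    exact hfc.nonneg t₀ ⟨ht00.le, ht₀T.2⟩ _ _
  -- the bound by `S₀`
  have hall : ∀ s ∈ Ioc 0 t, ∀ y w : Vec d, f s y w ≤ S₀ * (1 + 1 / s) ^ d * Wp (d + 10) w := by
    intro s hs y w
    have h3 := hmax s hs y w
    rw [← hn, ← hV, ← hS₀] at h3
    have hs0 : 0 < s := hs.1
    have e1 : (s / (1 + s)) ^ d * (1 + 1 / s) ^ d = 1 := by
      rw [← mul_pow]
      have : s / (1 + s) * (1 + 1 / s) = 1 := by
        have : 1 + s ≠ 0 := by positivity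
        field_simp
        ring
      rw [this, one_pow]
    have e2 : (1 + nsq w) ^ (d + 10) * Wp (d + 10) w = 1 := by
      rw [mul_comm]
      exact Wp_mul _ _
    calc f s y w = f s y w * ((1 + nsq w) ^ (d + 10) * Wp (d + 10) w) *
          ((s / (1 + s)) ^ d * (1 + 1 / s) ^ d) := by rw [e1, e2]; ring
      _ = (f s y w * (1 + nsq w) ^ (d + 10) * (s / (1 + s)) ^ d) *
          ((1 + 1 / s) ^ d * Wp (d + 10) w) := by ring
      _ ≤ S₀ * ((1 + 1 / s) ^ d * Wp (d + 10) w) :=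
          mul_le_mul_of_nonneg_right h3 (mul_nonneg (by positivity) (Wp_pos _ _).le)
      _ = _ := by ring
  have hfin : S₀ ≤ S' + 1 → f t x v ≤ (S' + 1) * (1 + 1 / t) ^ d * Wp (d + 10) v := by
    intro hle
    have h3 := hall t ⟨ht.1, le_rfl⟩ x v
    refine h3.trans ?_
    have ht0 := ht.1
    exact mul_le_mul_of_nonneg_right (mul_le_mul_of_nonneg_right hle (by positivity)) (Wp_pos _ _).le
  by_contra hcon
  have hS₀S : S' + 1 < S₀ := by
    by_contra h3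
    exact hcon (hfin (not_lt.1 h3))
  apply absurd hS₀S
  rw [not_lt]
  have hnpos : 0 < n := by
    rcases hn0.eq_or_lt with h3 | h3
    · exfalso
      rw [← h3] at hS₀
      rw [zero_mul, zero_mul] at hS₀
      linarith
    · exact h3
  have hS₀1 : 1 ≤ S₀ := by linarith
  have hg1 : (t₀ / (1 + t₀)) ^ d ≤ 1 :=
    pow_le_one₀ hg0.le (by rw [div_le_one (by linarith)]; linarith)
  have hnV : 1 ≤ n * V ^ (d + 10) := by
    have h3 : n * V ^ (d + 10) * (t₀ / (1 + t₀)) ^ d ≤ n * V ^ (d + 10) * 1 :=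
      mul_le_mul_of_nonneg_left hg1 (by positivity)
    linarith
  -- `V` is bounded
  have hVM : V ≤ M := by
    have h3 := hP1 t₀ ⟨ht00.le, ht₀T.2⟩ x₀ v₀
    rw [← hn] at h3
    have h4 : n * V ^ P ≤ K₁ := by
      have h5 := mul_le_mul_of_nonneg_right h3 (by positivity : 0 ≤ V ^ P)
      rw [mul_assoc, hV, Wp_mul, mul_one, ← hV] at h5
      exact h5
    obtain ⟨j, hj⟩ : ∃ j : ℕ, P = (d + 10) + 1 + j := ⟨P - (d + 11), by omega⟩
    have h5 : n * V ^ P = n * V ^ (d + 10) * V * V ^ j := by rw [hj]; ring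
    have h6 : 1 ≤ V ^ j := one_le_pow₀ hV1
    have h7 : V ≤ n * V ^ (d + 10) * V := by nlinarith
    have h8 : n * V ^ (d + 10) * V * 1 ≤ n * V ^ (d + 10) * V * V ^ j :=
      mul_le_mul_of_nonneg_left h6 (by positivity)
    linarith
  -- the radius
  obtain ⟨r, hr⟩ : ∃ r : ℝ, r = min (c / V ^ a) (min (t₀ / (2 * (1 + t₀))) (n ^ (-(1 / D)))) := ⟨_, rfl⟩
  have hnD : 0 < n ^ (-(1 / D)) := Real.rpow_pos_of_pos hnpos _
  have hr0 : 0 < r := by
    rw [hr]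
    exact lt_min (by positivity) (lt_min (by positivity) hnD)
  have hra : r * V ^ a ≤ c := by
    have h3 : r ≤ c / V ^ a := by rw [hr]; exact min_le_left _ _
    rwa [le_div_iff₀ (by positivity)] at h3
  have hrb : r ≤ t₀ / (2 * (1 + t₀)) := by
    rw [hr]
    exact (min_le_right _ _).trans (min_le_left _ _)
  have hrc : r ≤ n ^ (-(1 / D)) := by
    rw [hr]
    exact (min_le_right _ _).trans (min_le_right _ _)
  have hr12 : r ≤ 1 / 2 := by
    refine hrb.trans ?_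
    rw [div_le_div_iff₀ (by positivity) (by norm_num)]
    linarith
  have hr2 : r ^ 2 ≤ t₀ / 4 := by
    have h3 : r * (2 * (1 + t₀)) ≤ t₀ := by
      rwa [le_div_iff₀ (by positivity)] at hrb
    have h4 : r ≤ t₀ / 2 := by nlinarith
    nlinarith
  have hnr : n * r ^ ((d : ℝ) + γ + 2) ≤ 1 := by
    rw [← hD]
    calc n * r ^ D ≤ n * (n ^ (-(1 / D))) ^ D :=
          mul_le_mul_of_nonneg_left (Real.rpow_le_rpow hr0.le hrc hD0.le) hn0
      _ = n * n ^ (-1 : ℝ) := by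
          rw [← Real.rpow_mul hn0]
          congr 2
          field_simp
      _ = 1 := by
          rw [Real.rpow_neg_one]
          exact mul_inv_cancel₀ hnpos.ne'
  have hκV : κ₁ * V ^ 3 ≤ c := by
    calc κ₁ * V ^ 3 ≤ c / M ^ 3 * M ^ 3 :=
          mul_le_mul hκa (pow_le_pow_left₀ hV0.le hVM 3) (by positivity) (by positivity)
      _ = c := by field_simp
  -- the cylinder
  have hcyl : ∀ s ∈ Icc (t₀ - r ^ 2) t₀, s ∈ Ioc 0 t ∧ t₀ / 2 ≤ s ∧ s ∈ Ico 0 T := by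
    intro s hs
    have h3 : t₀ / 2 ≤ s := by linarith [hs.1]
    exact ⟨⟨by linarith, hs.2.trans ht₀.2⟩, h3, ⟨by linarith, hs.2.trans_lt ht₀T.2⟩⟩
  have hup : ∀ s ∈ Icc (t₀ - r ^ 2) t₀, ∀ y w : Vec d, len (w - v₀) ≤ 2 * r → f s y w ≤ C₁ * n := by
    intro s hs y w hlw
    obtain ⟨h3, h4, -⟩ := hcyl s hs
    have h5 := hall s h3 y w
    have hs0 : 0 < s := h3.1
    have h6 : 1 + 1 / s ≤ 2 * (1 + 1 / t₀) := by
      have h7 : 1 / s ≤ 2 / t₀ := by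
        rw [div_le_div_iff₀ hs0 ht00]
        linarith
      have h8 : 2 * (1 + 1 / t₀) = 2 + 2 / t₀ := by ring
      linarith
    have h7 : (1 + 1 / s) ^ d ≤ 2 ^ d * (1 + 1 / t₀) ^ d := by
      rw [← mul_pow]
      exact pow_le_pow_left₀ (by positivity) h6 d
    have h8 : Wp (d + 10) w ≤ 4 ^ (d + 10) * Wp (d + 10) v₀ := by
      have h9 := sm_V (v₀ := v₀) (v := w) (by linarith)
      have h10 : (1 + nsq v₀) ^ (d + 10) ≤ 4 ^ (d + 10) * (1 + nsq w) ^ (d + 10) := by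
        rw [← mul_pow]
        exact pow_le_pow_left₀ (hw v₀).le h9 _
      have p1 : 0 < (1 + nsq w) ^ (d + 10) := pow_pos (hw w) _
      have p2 : 0 < (1 + nsq v₀) ^ (d + 10) := pow_pos (hw v₀) _
      unfold Wp
      rw [← div_eq_mul_inv, le_div_iff₀ p2, inv_mul_le_iff₀ p1]
      linarith
    have e : S₀ * (1 + 1 / t₀) ^ d * Wp (d + 10) v₀ = n := by
      rw [hS₀, hV]
      have e1 : (t₀ / (1 + t₀)) ^ d * (1 + 1 / t₀) ^ d = 1 := by
        rw [← mul_pow]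
        have : t₀ / (1 + t₀) * (1 + 1 / t₀) = 1 := by
          have : 1 + t₀ ≠ 0 := by positivity
          field_simp
          ring
        rw [this, one_pow]
      have e2 : (1 + nsq v₀) ^ (d + 10) * Wp (d + 10) v₀ = 1 := by
        rw [mul_comm]
        exact Wp_mul _ _
      calc n * (1 + nsq v₀) ^ (d + 10) * (t₀ / (1 + t₀)) ^ d * (1 + 1 / t₀) ^ d * Wp (d + 10) v₀ =
            n * ((1 + nsq v₀) ^ (d + 10) * Wp (d + 10) v₀) *
              ((t₀ / (1 + t₀)) ^ d * (1 + 1 / t₀) ^ d) := by ring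
        _ = n := by rw [e1, e2]; ring
    calc f s y w ≤ S₀ * (1 + 1 / s) ^ d * Wp (d + 10) w := h5
      _ ≤ S₀ * (2 ^ d * (1 + 1 / t₀) ^ d) * (4 ^ (d + 10) * Wp (d + 10) v₀) := by
          have := (Wp_pos (d + 10) w).le
          exact mul_le_mul (mul_le_mul_of_nonneg_left h7 (by linarith)) h8 this (by positivity)
      _ = C₁ * (S₀ * (1 + 1 / t₀) ^ d * Wp (d + 10) v₀) := by rw [hC₁]; ring
      _ = C₁ * n := by rw [e]
  have hmod := hkm T f hf t₀ r n κ₁ v₀ hr0 (by rw [← hV]; exact hra) (by linarith) ht₀T.2 hnpos hnr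
    hκ₁.le (by rw [← hV]; exact hκV) (fun s hs => hG s (hcyl s hs).2.2)
    (fun s hs => hN s (hcyl s hs).2.2) hup
  -- lower bound on a ball
  obtain ⟨ρ, hρ⟩ : ∃ ρ : ℝ, ρ = c * r / V ^ a := ⟨_, rfl⟩
  have hVa : 1 ≤ V ^ a := one_le_pow₀ hV1
  have hρ0 : 0 < ρ := by rw [hρ]; positivity
  have hρ1 : ρ ≤ 1 := by
    rw [hρ, div_le_one (by positivity)]
    nlinarith
  have hlow : ∀ y w : Vec d, len (w - v₀) ≤ ρ → n / 4 ≤ f t₀ y w := by
    intro y w hlw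
    have h3 := hmod x₀ w (by
      rw [← hV]
      rw [hρ, le_div_iff₀ (by positivity)] at hlw
      exact hlw)
    have h4 := hN t₀ ⟨ht00.le, ht₀T.2⟩ x₀ y w
    rw [← hn] at h3
    have h5 := (abs_le.1 h3).2
    have h6 := (abs_le.1 h4).2
    have h7 : κ₁ * Wp (d + 10) w ≤ n / 4 := by
      have h9 := sm_V (v₀ := v₀) (v := w) (by linarith)
      have h10 : (1 + nsq v₀) ^ (d + 10) ≤ 4 ^ (d + 10) * (1 + nsq w) ^ (d + 10) := by
        rw [← mul_pow]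
        exact pow_le_pow_left₀ (hw v₀).le h9 _
      have p1 : 0 < (1 + nsq w) ^ (d + 10) := pow_pos (hw w) _
      unfold Wp
      rw [← div_eq_mul_inv, div_le_iff₀ p1]
      rw [← hV] at h10
      have h11 : 1 ≤ n * (4 ^ (d + 10) * (1 + nsq w) ^ (d + 10)) :=
        hnV.trans (mul_le_mul_of_nonneg_left h10 hn0)
      have h12 : κ₁ * (4 * 4 ^ (d + 10)) ≤ 1 := by
        calc κ₁ * (4 * 4 ^ (d + 10)) ≤ (1 / 4) ^ (d + 11) * (4 * 4 ^ (d + 10)) :=
              mul_le_mul_of_nonneg_right hκb (by positivity)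
          _ = (1 / 4 * 4) ^ (d + 11) := by rw [mul_pow]; ring
          _ = 1 := by norm_num
      have p4 : (0 : ℝ) < 4 ^ (d + 10) := by positivity
      have h13 : κ₁ ≤ 1 / (4 * 4 ^ (d + 10)) := by
        rw [le_div_iff₀ (by positivity)]
        exact h12
      refine h13.trans ?_
      rw [div_le_iff₀ (by positivity)]
      calc (1 : ℝ) ≤ n * (4 ^ (d + 10) * (1 + nsq w) ^ (d + 10)) := h11
        _ = n / 4 * (1 + nsq w) ^ (d + 10) * (4 * 4 ^ (d + 10)) := by ring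
    linarith
  have hms := hmass (f t₀) (sol_slice hfc ⟨ht00.le, ht₀T.2⟩) (n / 4) ρ v₀ (by positivity) hρ0 hρ1 hlow
  have hmX := hms.trans (hX t₀ ⟨ht00.le, ht₀T.2⟩)
  rw [← hV] at hmX
  have hkey : n * r ^ d * V ^ (a * d + (d + 10)) ≤ Y := by
    have e : cs * (n / 4) * ρ ^ d * V ^ k = (cs * c ^ d) / 4 * (n * r ^ d * V ^ (a * d + (d + 10))) := by
      rw [hρ, hk, div_pow, mul_pow, ← pow_mul]
      have e1 : V ^ (2 * (a * d) + (d + 10)) = V ^ (a * d) * V ^ (a * d + (d + 10)) := by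
        rw [← pow_add]
        congr 1
        ring
      rw [e1]
      field_simp
    rw [e] at hmX
    have h3 : (cs * c ^ d) * (n * r ^ d * V ^ (a * d + (d + 10))) ≤ (cs * c ^ d) * Y := by
      linarith
    exact le_of_mul_le_mul_left h3 (by positivity)
  have := sm_num hnpos hV1 ht00 hc hc1 hY1 hD0 hθ0 hθ1 hθD hr hkey
  rw [← hS'] at this
  rw [hS₀]
  linarith

end Pool.Agent.H37.LN
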