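import Pool.Agent.H37.LN.Defs

/-!
# Module WkF: the weak form of the Landau operator with the test function `(1+|v|²)^(i+2)`

`weak_form` (H25/Kin/Sym): `∫ Q φ = - ∑_ij ∫∫ a_ij(v-w) (∂_i φ(v) - ∂_i φ(w)) ∂_j g(v) g(w)`. For fixed `w` the function `H_ij(v) = a_ij(v-w) (∂_i φ(v) - ∂_i φ(w))` is differentiable (away from `w`: `landauA_hasFDerivAt`, H25/Kin/Bound;
at `v = w` the derivative is `0`, as `|H| ≤ 2 |v-w|^(γ+2) L |v-w|` near `w`: copy `field_hasFDerivAt` of the same file, where `φ` has bounded second derivatives; here `∂_i φ` is a polynomial, locally Lipschitz, and all bounds are polynomial in `v`: `PG`).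
Integration by parts in `v` (`ibp`, copy the use in `weak_bound`) and the sum over `i, j`: for `v ≠ w`, `∑_ij ∂_j H_ij (v) = Ph γ i v w`, because `∑_j ∂_j a_ij(z) = -(d-1)|z|^γ z_i`, `∂_i φ = 2(i+2)(1+|v|²)^(i+1) v_i`,
`∂_i ∂_j φ = 2(i+2)(1+|v|²)^(i+1) δ_ij + 4(i+2)(i+1)(1+|v|²)^i v_i v_j`, `∑_ij a_ij(z) ξ_i ξ_j = |z|^γ (|z|²|ξ|² - (z·ξ)²)` (`landauA_form`, H15/AV/LCo) with `ξ = v`, and `|z|²|v|² - (z·v)² = |v|²|w|² - (v·w)²`, `z = v-w`. Fubini (`integrable_flux_kernel`, `ph_int`).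
`ph_int`: `|Ph γ i v w| ≤ C (1+nsq v)^(i+2) (1+nsq w)^(i+2) (1 + nsq (v-w) ^ (γ/2) · nsq(v-w))`-type bound: in the first and third term one has a factor `|z|²` resp. `|z·(A(v)v - A(w)w)| ≤ C |z|² (1+nsq v)^(i+1) (1+nsq w)^(i+1)`, in the second `|v|²|w|²-(v·w)² ≤ |z|²|w|²`;
`|z|^γ |z|² ≤ 1 + nsq z` (`sq_rpow_le`). So `|Ph| ≤ C (1+nsq v)^(i+3) (1+nsq w)^(i+3)`; measurability: composition of continuous functions and `rpow_const`.
-/

set_option autoImplicit false

open MeasureTheory Set Filter Topology Pool.Agent.H25.Kin Pool.Agent.H48.PR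

namespace Pool.Agent.H37.LN

variable {d : ℕ} {γ : ℝ}

private noncomputable def wkF_P (i : ℕ) (a : Fin d) (v : Vec d) : ℝ :=
  2 * ((i : ℝ) + 2) * (1 + nsq v) ^ (i + 1) * v a

private lemma wkF_pdphi (i : ℕ) (a : Fin d) (v : Vec d) :
    pd a (fun v => (1 + nsq v) ^ (i + 2)) v = wkF_P i a v := by
  have h0 : HasFDerivAt (fun v : Vec d => (1 + nsq v) ^ (i + 2)) _ v :=
    ((hasFDerivAt_sq v).const_add 1).pow (i + 2)
  unfold pd wkF_P
  rw [h0.fderiv]
  simp only [Nat.add_succ_sub_one, nsmul_eq_mul,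
    _root_.smul_apply, _root_.sum_apply,
    ContinuousLinearMap.proj_apply, Pi.single_apply, smul_eq_mul, mul_ite, mul_one, mul_zero,
    Finset.sum_ite_eq', Finset.mem_univ, if_true]
  push_cast
  ring

private lemma wkF_Pd (i : ℕ) (a : Fin d) (v : Vec d) : ∃ B : Vec d →L[ℝ] ℝ,
    HasFDerivAt (wkF_P i a) B v ∧ ∀ b, B (Pi.single b 1) =
      2 * ((i : ℝ) + 2) * (1 + nsq v) ^ (i + 1) * (if a = b then 1 else 0) +
        4 * ((i : ℝ) + 2) * ((i : ℝ) + 1) * (1 + nsq v) ^ i * (v a * v b) := by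
  have h1 : HasFDerivAt (fun v : Vec d => 2 * ((i : ℝ) + 2) * (1 + nsq v) ^ (i + 1)) _ v :=
    (((hasFDerivAt_sq v).const_add 1).pow (i + 1)).const_mul (2 * ((i : ℝ) + 2))
  have h2 : HasFDerivAt (fun z : Vec d => z a) (ContinuousLinearMap.proj (R := ℝ) a) v :=
    (ContinuousLinearMap.proj (R := ℝ) (φ := fun _ : Fin d => ℝ) a).hasFDerivAt
  refine ⟨_, h1.mul h2, fun b => ?_⟩
  simp only [add_tsub_cancel_right, nsmul_eq_mul, _root_.add_apply,
    _root_.smul_apply, _root_.sum_apply,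
    ContinuousLinearMap.proj_apply, Pi.single_apply, smul_eq_mul, mul_ite, mul_one, mul_zero,
    Finset.sum_ite_eq', Finset.mem_univ, if_true]
  push_cast
  ring

private lemma wkF_Ad (γ : ℝ) {z : Vec d} (hz : z ≠ 0) (a b : Fin d) : ∃ B : Vec d →L[ℝ] ℝ,
    HasFDerivAt (fun z => landauA γ z a b) B z ∧
    ‖B‖ ≤ (2 * d * |γ| + 2 * d + 2) * (‖z‖ * nsq z ^ (γ / 2)) ∧
    ∀ c, B (Pi.single c 1) =
      ((if a = b then nsq z else 0) - z a * z b) * (γ / 2 * nsq z ^ (γ / 2 - 1) * (2 * z c)) +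
      nsq z ^ (γ / 2) * ((if a = b then 2 * z c else 0) -
        (z a * (if b = c then 1 else 0) + z b * (if a = c then 1 else 0))) := by
  obtain ⟨B, hB, hBn⟩ := landauA_hasFDerivAt γ hz a b
  refine ⟨B, hB, hBn, fun c => ?_⟩
  have hp := sq_pos_of_ne hz
  have h0 := hasFDerivAt_sq z
  have h1 := h0.rpow_const (p := γ / 2) (Or.inl hp.ne')
  have ha : HasFDerivAt (fun z : Vec d => z a) (ContinuousLinearMap.proj (R := ℝ) a) z :=
    (ContinuousLinearMap.proj (R := ℝ) (φ := fun _ : Fin d => ℝ) a).hasFDerivAt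
  have hb : HasFDerivAt (fun z : Vec d => z b) (ContinuousLinearMap.proj (R := ℝ) b) z :=
    (ContinuousLinearMap.proj (R := ℝ) (φ := fun _ : Fin d => ℝ) b).hasFDerivAt
  by_cases hab : a = b
  · have h3 := (h0.sub (ha.mul hb)).mul h1
    have h2 := h3.congr_of_eventuallyEq (f₁ := fun z => landauA γ z a b)
      (Eventually.of_forall fun x => by simp only [landauA, if_pos hab]; rfl)
    rw [hB.unique h2]
    simp only [if_pos hab, _root_.add_apply, _root_.sub_apply,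
      _root_.smul_apply, _root_.sum_apply,
      ContinuousLinearMap.proj_apply, Pi.single_apply, smul_eq_mul, mul_ite, mul_one, mul_zero,
      Finset.sum_ite_eq', Finset.mem_univ, if_true, Pi.sub_apply, Pi.mul_apply]
  · have h3 := ((ha.mul hb).neg).mul h1
    have h2 := h3.congr_of_eventuallyEq (f₁ := fun z => landauA γ z a b)
      (Eventually.of_forall fun x => by simp only [landauA, if_neg hab, zero_sub]; rfl)
    rw [hB.unique h2]
    simp only [if_neg hab, _root_.add_apply, _root_.neg_apply,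
      _root_.smul_apply, _root_.sum_apply,
      ContinuousLinearMap.proj_apply, Pi.single_apply, smul_eq_mul, mul_ite, mul_one, mul_zero,
      Finset.sum_ite_eq', Finset.mem_univ, if_true, Pi.neg_apply, Pi.mul_apply, zero_sub]

private lemma wkF_W (v w : Vec d) : 1 ≤ (1 + ‖v‖) * (1 + ‖w‖) :=
  one_le_mul_of_one_le_of_one_le (one_le_w v) (one_le_w w)

private lemma wkF_pow_lip {x y : ℝ} (hx : 1 ≤ x) (hy : 1 ≤ y) (k : ℕ) :
    |x ^ k - y ^ k| ≤ k * |x - y| * (x * y) ^ k := by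
  induction k with
  | zero => simp
  | succ k ih =>
    have h1 : x ^ (k + 1) - y ^ (k + 1) = x * (x ^ k - y ^ k) + (x - y) * y ^ k := by ring
    have hxy : 1 ≤ x * y := one_le_mul_of_one_le_of_one_le hx hy
    have h2 : |x * (x ^ k - y ^ k)| ≤ x * (k * |x - y| * (x * y) ^ k) := by
      rw [abs_mul, abs_of_nonneg (by linarith : (0 : ℝ) ≤ x)]
      exact mul_le_mul_of_nonneg_left ih (by linarith)
    have h3 : x ≤ x * y := le_mul_of_one_le_right (by linarith) hy
    have h4 : 0 ≤ (k : ℝ) * |x - y| * (x * y) ^ k := by positivity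
    have h5 : y ^ k ≤ (x * y) ^ (k + 1) := by
      calc y ^ k ≤ (x * y) ^ k := pow_le_pow_left₀ (by linarith)
            (le_mul_of_one_le_left (by linarith) hx) k
        _ ≤ (x * y) ^ (k + 1) := pow_le_pow_right₀ hxy (Nat.le_succ k)
    rw [h1]
    refine (abs_add_le _ _).trans ?_
    have h6 : |(x - y) * y ^ k| ≤ |x - y| * (x * y) ^ (k + 1) := by
      rw [abs_mul, abs_of_nonneg (pow_nonneg (by linarith : (0 : ℝ) ≤ y) k)]
      exact mul_le_mul_of_nonneg_left h5 (abs_nonneg _)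
    have h7 : x * (k * |x - y| * (x * y) ^ k) ≤ k * |x - y| * (x * y) ^ (k + 1) := by
      calc x * (k * |x - y| * (x * y) ^ k) ≤ (x * y) * (k * |x - y| * (x * y) ^ k) :=
            mul_le_mul_of_nonneg_right h3 h4
        _ = _ := by ring
    push_cast
    linarith [show ((k : ℝ) + 1) * |x - y| * (x * y) ^ (k + 1) =
      k * |x - y| * (x * y) ^ (k + 1) + |x - y| * (x * y) ^ (k + 1) by ring]

private lemma wkF_nsq_lip (v w : Vec d) :
    |nsq v - nsq w| ≤ d * ((1 + ‖v‖) * (1 + ‖w‖)) * ‖v - w‖ := by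
  have e : nsq v - nsq w = ∑ k, (v - w) k * (v k + w k) := by
    unfold nsq
    rw [← Finset.sum_sub_distrib]
    refine Finset.sum_congr rfl fun k _ => ?_
    simp only [Pi.sub_apply]
    ring
  have hv := norm_nonneg v
  have hw := norm_nonneg w
  rw [e]
  refine (Finset.abs_sum_le_sum_abs _ _).trans ?_
  have h : ∀ k ∈ (Finset.univ : Finset (Fin d)), |(v - w) k * (v k + w k)| ≤
      ((1 + ‖v‖) * (1 + ‖w‖)) * ‖v - w‖ := by
    intro k _
    rw [abs_mul]
    have h1 : |(v - w) k| ≤ ‖v - w‖ := norm_le_pi_norm (v - w) k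
    have h2 : |v k + w k| ≤ (1 + ‖v‖) * (1 + ‖w‖) := by
      have h3 : |v k| ≤ ‖v‖ := norm_le_pi_norm v k
      have h4 : |w k| ≤ ‖w‖ := norm_le_pi_norm w k
      have h5 := abs_add_le (v k) (w k)
      have h6 : 0 ≤ ‖v‖ * ‖w‖ := mul_nonneg hv hw
      linarith [show (1 + ‖v‖) * (1 + ‖w‖) = 1 + ‖v‖ + ‖w‖ + ‖v‖ * ‖w‖ by ring]
    calc |(v - w) k| * |v k + w k| ≤ ‖v - w‖ * ((1 + ‖v‖) * (1 + ‖w‖)) :=
          mul_le_mul h1 h2 (abs_nonneg _) (norm_nonneg _)
      _ = _ := by ring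
  refine (Finset.sum_le_sum h).trans (le_of_eq ?_)
  simp only [Finset.sum_const, Finset.card_univ, Fintype.card_fin, nsmul_eq_mul]
  ring

private lemma wkF_xy (v w : Vec d) : (1 + nsq v) * (1 + nsq w) ≤
    ((d : ℝ) + 1) ^ 2 * ((1 + ‖v‖) * (1 + ‖w‖)) ^ 2 := by
  have h1 := one_add_sq_le v
  have h2 := one_add_sq_le w
  have h3 := sq_nonneg' w
  calc (1 + nsq v) * (1 + nsq w) ≤ ((d + 1) * (1 + ‖v‖) ^ 2) * ((d + 1) * (1 + ‖w‖) ^ 2) :=
        mul_le_mul h1 h2 (by linarith) (by positivity)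
    _ = _ := by ring

/-- the Lipschitz bound of the powers of `1 + nsq` -/
private lemma wkF_pow_lip2 (k : ℕ) (v w : Vec d) :
    |(1 + nsq v) ^ k - (1 + nsq w) ^ k| ≤
      (k * d * ((d : ℝ) + 1) ^ (2 * k)) * ((1 + ‖v‖) * (1 + ‖w‖)) ^ (2 * k + 1) * ‖v - w‖ := by
  have hv := sq_nonneg' v
  have hw := sq_nonneg' w
  have h1 := wkF_pow_lip (x := 1 + nsq v) (y := 1 + nsq w) (by linarith) (by linarith) k
  have h2 := wkF_nsq_lip v w
  have e : (1 + nsq v) - (1 + nsq w) = nsq v - nsq w := by ring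
  rw [e] at h1
  have h3 : ((1 + nsq v) * (1 + nsq w)) ^ k ≤
      (((d : ℝ) + 1) ^ 2 * ((1 + ‖v‖) * (1 + ‖w‖)) ^ 2) ^ k :=
    pow_le_pow_left₀ (mul_nonneg (by linarith) (by linarith)) (wkF_xy v w) k
  have hW := wkF_W v w
  refine h1.trans ?_
  calc (k : ℝ) * |nsq v - nsq w| * ((1 + nsq v) * (1 + nsq w)) ^ k
      ≤ (k * (d * ((1 + ‖v‖) * (1 + ‖w‖)) * ‖v - w‖)) *
          (((d : ℝ) + 1) ^ 2 * ((1 + ‖v‖) * (1 + ‖w‖)) ^ 2) ^ k := by
        refine mul_le_mul (mul_le_mul_of_nonneg_left h2 (Nat.cast_nonneg k)) h3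
          (pow_nonneg (mul_nonneg (by linarith) (by linarith)) k) ?_
        have := norm_nonneg (v - w)
        positivity
    _ = _ := by
        rw [mul_pow, ← pow_mul, ← pow_mul]
        ring

private lemma wkF_P_lip (d i : ℕ) : ∃ C : ℝ, 0 ≤ C ∧ ∀ (a : Fin d) (v w : Vec d),
    |wkF_P i a v - wkF_P i a w| ≤
      C * ((1 + ‖v‖) * (1 + ‖w‖)) ^ (2 * (i + 1) + 2) * ‖v - w‖ := by
  set K : ℝ := ((i + 1 : ℕ) : ℝ) * d * ((d : ℝ) + 1) ^ (2 * (i + 1)) with hK
  have hK0 : 0 ≤ K := by positivity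
  refine ⟨2 * ((i : ℝ) + 2) * (K + ((d : ℝ) + 1) ^ (2 * (i + 1))), by positivity, fun a v w => ?_⟩
  have hW := wkF_W v w
  set W : ℝ := (1 + ‖v‖) * (1 + ‖w‖) with hWdef
  have hvn := norm_nonneg v
  have hwn := norm_nonneg w
  have hzn := norm_nonneg (v - w)
  have h1 : |(1 + nsq v) ^ (i + 1) - (1 + nsq w) ^ (i + 1)| ≤ K * W ^ (2 * (i + 1) + 1) * ‖v - w‖ :=
    wkF_pow_lip2 (i + 1) v w
  have hvW : |v a| ≤ W := by
    have h3 : |v a| ≤ ‖v‖ := norm_le_pi_norm v a
    have h6 : 0 ≤ ‖v‖ * ‖w‖ := mul_nonneg hvn hwn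
    linarith [show W = 1 + ‖v‖ + ‖w‖ + ‖v‖ * ‖w‖ by rw [hWdef]; ring]
  have h2 : |((1 + nsq v) ^ (i + 1) - (1 + nsq w) ^ (i + 1)) * v a| ≤
      K * W ^ (2 * (i + 1) + 2) * ‖v - w‖ := by
    rw [abs_mul]
    calc _ ≤ (K * W ^ (2 * (i + 1) + 1) * ‖v - w‖) * W :=
          mul_le_mul h1 hvW (abs_nonneg _) (by positivity)
      _ = _ := by ring
  have h3 : (1 + nsq w) ^ (i + 1) ≤ ((d : ℝ) + 1) ^ (2 * (i + 1)) * W ^ (2 * (i + 1) + 2) := by
    have hv := sq_nonneg' v
    have hw := sq_nonneg' w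
    have h4 : 1 + nsq w ≤ ((d : ℝ) + 1) ^ 2 * W ^ 2 := by
      refine le_trans ?_ (wkF_xy v w)
      exact le_mul_of_one_le_left (by linarith) (by linarith)
    calc (1 + nsq w) ^ (i + 1) ≤ (((d : ℝ) + 1) ^ 2 * W ^ 2) ^ (i + 1) :=
          pow_le_pow_left₀ (by linarith) h4 _
      _ = ((d : ℝ) + 1) ^ (2 * (i + 1)) * W ^ (2 * (i + 1)) := by
          rw [mul_pow, ← pow_mul, ← pow_mul]
      _ ≤ _ := mul_le_mul_of_nonneg_left (pow_le_pow_right₀ hW (by omega)) (by positivity)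
  have h5 : |(1 + nsq w) ^ (i + 1) * (v - w) a| ≤
      ((d : ℝ) + 1) ^ (2 * (i + 1)) * W ^ (2 * (i + 1) + 2) * ‖v - w‖ := by
    rw [abs_mul, abs_of_nonneg (pow_nonneg (by linarith [sq_nonneg' w]) _)]
    exact mul_le_mul h3 (norm_le_pi_norm (v - w) a) (abs_nonneg _) (by positivity)
  have e : wkF_P i a v - wkF_P i a w = 2 * ((i : ℝ) + 2) *
      (((1 + nsq v) ^ (i + 1) - (1 + nsq w) ^ (i + 1)) * v a + (1 + nsq w) ^ (i + 1) * (v - w) a) := by
    unfold wkF_P
    simp only [Pi.sub_apply]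
    ring
  rw [e, abs_mul, abs_of_nonneg (by positivity : (0 : ℝ) ≤ 2 * ((i : ℝ) + 2))]
  calc 2 * ((i : ℝ) + 2) * |((1 + nsq v) ^ (i + 1) - (1 + nsq w) ^ (i + 1)) * v a +
        (1 + nsq w) ^ (i + 1) * (v - w) a|
      ≤ 2 * ((i : ℝ) + 2) * (K * W ^ (2 * (i + 1) + 2) * ‖v - w‖ +
          ((d : ℝ) + 1) ^ (2 * (i + 1)) * W ^ (2 * (i + 1) + 2) * ‖v - w‖) :=
        mul_le_mul_of_nonneg_left ((abs_add_le _ _).trans (add_le_add h2 h5)) (by positivity)
    _ = _ := by ring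

/-- polynomial Lipschitz bounds give polynomial bounds of the derivative -/
private lemma wkF_fd {f : Vec d → ℝ} {C : ℝ} {N : ℕ} (hC : 0 ≤ C)
    (h : ∀ v w, |f v - f w| ≤ C * ((1 + ‖v‖) * (1 + ‖w‖)) ^ N * ‖v - w‖) (v : Vec d) :
    ‖fderiv ℝ f v‖ ≤ C * (2 * (1 + ‖v‖) * (1 + ‖v‖)) ^ N := by
  have hv := norm_nonneg v
  refine norm_fderiv_le_of_lip' ℝ (by positivity) ?_
  have h1 : ∀ᶠ x in 𝓝 v, ‖x‖ < 1 + ‖v‖ + ‖v‖ := by
    have : Tendsto (fun x : Vec d => ‖x‖) (𝓝 v) (𝓝 ‖v‖) := continuous_norm.tendsto v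
    exact this.eventually_lt_const (by linarith)
  filter_upwards [h1] with x hx
  have hx0 := norm_nonneg x
  refine (h x v).trans ?_
  refine mul_le_mul_of_nonneg_right ?_ (norm_nonneg _)
  refine mul_le_mul_of_nonneg_left ?_ hC
  refine pow_le_pow_left₀ (by positivity) ?_ N
  exact mul_le_mul_of_nonneg_right (by linarith) (by linarith)

/-- the divergence of the field `a_ab(v-w) (∂_a φ(v) - ∂_a φ(w))`, one term -/
private noncomputable def wkF_D (γ : ℝ) (i : ℕ) (a b : Fin d) (v w : Vec d) : ℝ :=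
  landauA γ (v - w) a b * (2 * ((i : ℝ) + 2) * (1 + nsq v) ^ (i + 1) * (if a = b then 1 else 0) +
    4 * ((i : ℝ) + 2) * ((i : ℝ) + 1) * (1 + nsq v) ^ i * (v a * v b)) +
  (wkF_P i a v - wkF_P i a w) *
    (((if a = b then nsq (v - w) else 0) - (v - w) a * (v - w) b) *
      (γ / 2 * nsq (v - w) ^ (γ / 2 - 1) * (2 * (v - w) b)) +
    nsq (v - w) ^ (γ / 2) * ((if a = b then 2 * (v - w) b else 0) -
      ((v - w) a * (if b = b then 1 else 0) + (v - w) b * (if a = b then 1 else 0))))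

private lemma wkF_div (z : Vec d) (a : Fin d) (γ r s : ℝ) :
    ∑ b, (((if a = b then nsq z else 0) - z a * z b) * (γ / 2 * s * (2 * z b)) +
      r * ((if a = b then 2 * z b else 0) -
        (z a * (if b = b then 1 else 0) + z b * (if a = b then 1 else 0)))) =
      -((d : ℝ) - 1) * (r * z a) := by
  have e : ∀ b, (((if a = b then nsq z else 0) - z a * z b) * (γ / 2 * s * (2 * z b)) +
      r * ((if a = b then 2 * z b else 0) -
        (z a * (if b = b then 1 else 0) + z b * (if a = b then 1 else 0)))) =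
      (if a = b then γ * s * nsq z * z b + r * z b else 0) - (γ * s * z a) * z b ^ 2 - r * z a := by
    intro b
    rw [if_pos rfl]
    split_ifs <;> ring
  rw [Finset.sum_congr rfl fun b _ => e b, Finset.sum_sub_distrib, Finset.sum_sub_distrib,
    Finset.sum_ite_eq, if_pos (Finset.mem_univ a), ← Finset.mul_sum, Finset.sum_const,
    Finset.card_univ, Fintype.card_fin, nsmul_eq_mul]
  have : ∑ b, z b ^ 2 = nsq z := rfl
  rw [this]
  ring

private lemma wkF_trace (γ : ℝ) (z : Vec d) :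
    ∑ a, landauA γ z a a = ((d : ℝ) - 1) * nsq z * nsq z ^ (γ / 2) := by
  have e : ∀ a, landauA γ z a a = nsq z * nsq z ^ (γ / 2) - z a ^ 2 * nsq z ^ (γ / 2) := by
    intro a
    unfold landauA
    rw [if_pos rfl]
    ring
  have h : ∑ x, z x ^ 2 * nsq z ^ (γ / 2) = nsq z * nsq z ^ (γ / 2) := by
    rw [← Finset.sum_mul]
    rfl
  rw [Finset.sum_congr rfl fun a _ => e a, Finset.sum_sub_distrib, h,
    Finset.sum_const, Finset.card_univ, Fintype.card_fin, nsmul_eq_mul]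
  ring

private lemma wkF_sum (γ : ℝ) (i : ℕ) (v w : Vec d) :
    ∑ a, ∑ b, wkF_D γ i a b v w = Ph γ i v w := by
  set z : Vec d := v - w with hz
  have e1 : ∀ a, ∑ b, wkF_D γ i a b v w =
      2 * ((i : ℝ) + 2) * (1 + nsq v) ^ (i + 1) * landauA γ z a a +
      4 * ((i : ℝ) + 2) * ((i : ℝ) + 1) * (1 + nsq v) ^ i *
        ∑ b, landauA γ z a b * (v a * v b) +
      (wkF_P i a v - wkF_P i a w) * (-((d : ℝ) - 1) * (nsq z ^ (γ / 2) * z a)) := by
    intro a
    unfold wkF_D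
    rw [Finset.sum_add_distrib, ← Finset.mul_sum, ← hz, wkF_div]
    congr 1
    have e2 : ∀ b, landauA γ z a b *
        (2 * ((i : ℝ) + 2) * (1 + nsq v) ^ (i + 1) * (if a = b then 1 else 0) +
        4 * ((i : ℝ) + 2) * ((i : ℝ) + 1) * (1 + nsq v) ^ i * (v a * v b)) =
        (if a = b then 2 * ((i : ℝ) + 2) * (1 + nsq v) ^ (i + 1) * landauA γ z a b else 0) +
        4 * ((i : ℝ) + 2) * ((i : ℝ) + 1) * (1 + nsq v) ^ i *
          (landauA γ z a b * (v a * v b)) := by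
      intro b
      split_ifs <;> ring
    rw [Finset.sum_congr rfl fun b _ => e2 b, Finset.sum_add_distrib, Finset.sum_ite_eq,
      if_pos (Finset.mem_univ a), ← Finset.mul_sum]
  rw [Finset.sum_congr rfl fun a _ => e1 a, Finset.sum_add_distrib, Finset.sum_add_distrib,
    ← Finset.mul_sum, ← Finset.mul_sum, wkF_trace, Pool.Agent.H15.AV.landauA_form]
  have e3 : ∑ a, (wkF_P i a v - wkF_P i a w) * (-((d : ℝ) - 1) * (nsq z ^ (γ / 2) * z a)) =
      -((d : ℝ) - 1) * nsq z ^ (γ / 2) * (2 * ((i : ℝ) + 2)) *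
        (dot z v * (1 + nsq v) ^ (i + 1) - dot z w * (1 + nsq w) ^ (i + 1)) := by
    unfold dot wkF_P
    rw [Finset.sum_mul, Finset.sum_mul, ← Finset.sum_sub_distrib, Finset.mul_sum]
    refine Finset.sum_congr rfl fun a _ => ?_
    ring
  rw [e3]
  have e4 : ∑ k, z k * v k = dot z v := rfl
  have e5 : dot z v = nsq v - dot v w := by
    unfold dot nsq
    rw [← Finset.sum_sub_distrib]
    refine Finset.sum_congr rfl fun k _ => ?_
    rw [hz]
    simp only [Pi.sub_apply]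
    ring
  have e6 : nsq z = nsq v - 2 * dot v w + nsq w := by
    unfold dot nsq
    rw [Finset.mul_sum, ← Finset.sum_sub_distrib, ← Finset.sum_add_distrib]
    refine Finset.sum_congr rfl fun k _ => ?_
    rw [hz]
    simp only [Pi.sub_apply]
    ring
  have e7 : nsq z * nsq v - dot z v ^ 2 = nsq v * nsq w - dot v w ^ 2 := by
    rw [e5, e6]
    ring
  rw [e4, e7]
  unfold Ph
  rw [← hz]
  ring

private lemma wkF_Ph0 (γ : ℝ) (i : ℕ) (v : Vec d) : Ph γ i v v = 0 := by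
  unfold Ph
  have e1 : nsq (v - v) = 0 := by simp [nsq]
  have e2 : dot (v - v) v = 0 := by simp [dot]
  have e3 : dot v v = nsq v := by
    unfold dot nsq
    exact Finset.sum_congr rfl fun k _ => by ring
  rw [e1, e2, e3]
  ring

private lemma wkF_arith {a p q b n C K s r D t u U W : ℝ} (hp : 0 ≤ p) (hb : 0 ≤ b) (hn : 0 ≤ n)
    (hC : 0 ≤ C) (hK : 0 ≤ K) (hs : 0 ≤ s) (hr : 0 ≤ r) (ht : 0 ≤ t) (hu : 0 ≤ u) (huU : u ≤ U)
    (b2 : a ≤ 2 * (1 + s)) (b1 : p ≤ C * t * U) (b3 : q ≤ C * u * n) (hA : b ≤ K * (n * r))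
    (b4 : n * (n * r) ≤ 1 + s) (b5 : 1 + s ≤ 2 * D * W) :
    a * p + q * b ≤ 2 * D * (2 * (C * t) + C * K) * (W * U) := by
  have hU : 0 ≤ U := hu.trans huU
  have e1 : a * p ≤ 2 * (1 + s) * (C * t * U) := mul_le_mul b2 b1 hp (by positivity)
  have e2 : q * b ≤ C * u * n * (K * (n * r)) := mul_le_mul b3 hA hb (by positivity)
  have e3 : C * u * n * (K * (n * r)) = C * K * u * (n * (n * r)) := by ring
  have e4 : C * K * u * (n * (n * r)) ≤ C * K * U * (1 + s) :=
    mul_le_mul (mul_le_mul_of_nonneg_left huU (by positivity)) b4 (by positivity) (by positivity)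
  have e5 : 2 * (1 + s) * (C * t * U) + C * K * U * (1 + s) =
      (1 + s) * ((2 * (C * t) + C * K) * U) := by ring
  have e6 : (1 + s) * ((2 * (C * t) + C * K) * U) ≤ 2 * D * W * ((2 * (C * t) + C * K) * U) :=
    mul_le_mul_of_nonneg_right b5 (by positivity)
  have e7 : 2 * D * W * ((2 * (C * t) + C * K) * U) = 2 * D * (2 * (C * t) + C * K) * (W * U) := by
    ring
  linarith

private lemma wkF_field (h1 : -2 < γ) (h2 : γ ≤ 0) (i : ℕ) : ∃ C : ℝ, 0 ≤ C ∧
    ∀ (a b : Fin d) (w v : Vec d), ∃ B : Vec d →L[ℝ] ℝ,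
      HasFDerivAt (fun v => landauA γ (v - w) a b * (wkF_P i a v - wkF_P i a w)) B v ∧
      ‖B‖ ≤ C * ((1 + ‖v‖) * (1 + ‖w‖)) ^ (2 * (2 * (i + 1) + 2) + 2) ∧
      (v = w → B = 0) ∧ (v ≠ w → B (Pi.single b 1) = wkF_D γ i a b v w) := by
  obtain ⟨C₁, hC₁, hlip⟩ := wkF_P_lip d i
  set N : ℕ := 2 * (i + 1) + 2 with hN
  set K : ℝ := 2 * d * |γ| + 2 * d + 2 with hK
  have hK0 : 0 ≤ K := by positivity
  refine ⟨2 * ((d : ℝ) + 1) ^ 2 * (2 * (C₁ * 2 ^ N) + C₁ * K), by positivity, fun a b w v => ?_⟩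
  by_cases hv : v = w
  · subst hv
    refine ⟨0, ?_, by rw [norm_zero]; positivity, fun _ => rfl, fun h => absurd rfl h⟩
    have e0 : landauA γ (v - v) a b * (wkF_P i a v - wkF_P i a v) = 0 := by
      rw [sub_self (wkF_P i a v), mul_zero]
    rw [hasFDerivAt_iff_isLittleO]
    have t1 : (fun x => landauA γ (x - v) a b) =o[𝓝 v] fun _ => (1 : ℝ) := by
      rw [Asymptotics.isLittleO_one_iff]
      have t2 := (tendsto_sq_rpow h1 v).const_mul 2
      rw [mul_zero] at t2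
      exact squeeze_zero_norm (fun x => landauA_le γ (x - v) a b) t2
    have t3 : (fun x => wkF_P i a x - wkF_P i a v) =O[𝓝 v] fun x => ‖x - v‖ := by
      obtain ⟨B, hB, -⟩ := wkF_Pd i a v
      exact hB.isBigO_sub.norm_right
    have t4 := t1.mul_isBigO t3
    simp only [one_mul] at t4
    have t5 := t4.of_norm_right
    refine t5.congr_left fun x => ?_
    rw [e0]
    simp
  · have hz : v - w ≠ 0 := sub_ne_zero.2 hv
    obtain ⟨A, hA, hAn, hAe⟩ := wkF_Ad γ hz a b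
    have hA' : HasFDerivAt (fun v => landauA γ (v - w) a b) A v := by
      have h4 := hA.comp v ((hasFDerivAt_id v).sub_const w)
      simpa [Function.comp_def] using h4
    obtain ⟨P', hP', hPe⟩ := wkF_Pd i a v
    have hP := hP'.sub_const (wkF_P i a w)
    refine ⟨_, hA'.mul hP, ?_, fun h => absurd h hv, fun _ => ?_⟩
    · have hW := wkF_W v w
      set W : ℝ := (1 + ‖v‖) * (1 + ‖w‖) with hWdef
      have hvn := norm_nonneg v
      have hwn := norm_nonneg w
      have hzn := norm_nonneg (v - w)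
      have hs := sq_nonneg' (v - w)
      have hr := Real.rpow_nonneg hs (γ / 2)
      have hvW : 1 + ‖v‖ ≤ W := le_mul_of_one_le_right (by linarith) (by linarith)
      have b1 : ‖P'‖ ≤ C₁ * 2 ^ N * W ^ (2 * N) := by
        have h3 := wkF_fd hC₁ (hlip a) v
        rw [hP'.fderiv] at h3
        refine h3.trans ?_
        have h4 : 2 * (1 + ‖v‖) * (1 + ‖v‖) ≤ 2 * W ^ 2 := by
          have := mul_le_mul hvW hvW (by linarith) (by linarith)
          linarith [show 2 * W ^ 2 = 2 * (W * W) by ring]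
        calc C₁ * (2 * (1 + ‖v‖) * (1 + ‖v‖)) ^ N ≤ C₁ * (2 * W ^ 2) ^ N :=
              mul_le_mul_of_nonneg_left (pow_le_pow_left₀ (by positivity) h4 N) hC₁
          _ = _ := by
              rw [mul_pow, ← pow_mul]
              ring
      have b2 : ‖landauA γ (v - w) a b‖ ≤ 2 * (1 + nsq (v - w)) := by
        have := landauA_le' h1 h2 (v - w) a b
        rwa [Real.norm_eq_abs]
      have b3 : ‖wkF_P i a v - wkF_P i a w‖ ≤ C₁ * W ^ N * ‖v - w‖ := hlip a v w
      have b4 : ‖v - w‖ * (‖v - w‖ * nsq (v - w) ^ (γ / 2)) ≤ 1 + nsq (v - w) := by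
        calc ‖v - w‖ * (‖v - w‖ * nsq (v - w) ^ (γ / 2)) = ‖v - w‖ ^ 2 * nsq (v - w) ^ (γ / 2) := by
              ring
          _ ≤ nsq (v - w) * nsq (v - w) ^ (γ / 2) :=
              mul_le_mul_of_nonneg_right (norm_sq_le_sq _) hr
          _ ≤ _ := sq_rpow_le h1 h2 _
      have b5 : 1 + nsq (v - w) ≤ 2 * ((d : ℝ) + 1) ^ 2 * W ^ 2 := by
        have h5 := one_add_sq_sub_le v w
        have h6 := wkF_xy v w
        linarith [show 2 * ((d : ℝ) + 1) ^ 2 * W ^ 2 = 2 * (((d : ℝ) + 1) ^ 2 * W ^ 2) by ring]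
      have b6 : W ^ N ≤ W ^ (2 * N) := pow_le_pow_right₀ hW (by omega)
      refine (norm_add_le _ _).trans ?_
      rw [norm_smul, norm_smul]
      have key := wkF_arith (norm_nonneg P') (norm_nonneg A) hzn hC₁ hK0 hs hr
        (pow_nonneg (zero_le_two : (0 : ℝ) ≤ 2) N) (pow_nonneg (zero_le_one.trans hW) N) b6 b2 b1 b3
        hAn b4 b5
      refine key.trans (le_of_eq ?_)
      rw [pow_add W (2 * N) 2, mul_comm (W ^ (2 * N)) (W ^ 2)]
    · rw [_root_.add_apply, _root_.smul_apply, _root_.smul_apply, smul_eq_mul, smul_eq_mul,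
        hAe b, hPe b]
      unfold wkF_D
      rfl

private lemma wkF_Ph_le (h1 : -2 < γ) (h2 : γ ≤ 0) (i : ℕ) : ∃ C : ℝ, 0 ≤ C ∧
    ∀ v w : Vec d, |Ph γ i v w| ≤ C * ((1 + ‖v‖) * (1 + ‖w‖)) ^ (2 * (2 * (i + 1) + 2) + 2) := by
  obtain ⟨C, hC, hF⟩ := wkF_field (d := d) h1 h2 i
  refine ⟨d * (d * C), by positivity, fun v w => ?_⟩
  have hvn := norm_nonneg v
  have hwn := norm_nonneg w
  by_cases hv : v = w
  · subst hv
    rw [wkF_Ph0, abs_zero]
    positivity
  · rw [← wkF_sum]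
    have h3 : ∀ a b, |wkF_D γ i a b v w| ≤
        C * ((1 + ‖v‖) * (1 + ‖w‖)) ^ (2 * (2 * (i + 1) + 2) + 2) := by
      intro a b
      obtain ⟨B, -, hBn, -, hBe⟩ := hF a b w v
      rw [← hBe hv]
      have h4 := B.le_opNorm (Pi.single b 1)
      rw [norm_single_one, mul_one] at h4
      exact h4.trans hBn
    calc |∑ a, ∑ b, wkF_D γ i a b v w| ≤ ∑ _a : Fin d, ∑ _b : Fin d,
          C * ((1 + ‖v‖) * (1 + ‖w‖)) ^ (2 * (2 * (i + 1) + 2) + 2) := by
          refine (Finset.abs_sum_le_sum_abs _ _).trans (Finset.sum_le_sum fun a _ => ?_)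
          exact (Finset.abs_sum_le_sum_abs _ _).trans (Finset.sum_le_sum fun b _ => h3 a b)
      _ = _ := by
          simp only [Finset.sum_const, Finset.card_univ, Fintype.card_fin, nsmul_eq_mul]
          ring

private lemma wkF_Ph_meas (γ : ℝ) (i : ℕ) :
    Measurable fun p : Vec d × Vec d => Ph γ i p.1 p.2 := by
  have c1 : Continuous fun p : Vec d × Vec d => nsq (p.1 - p.2) :=
    continuous_sq.comp (continuous_fst.sub continuous_snd)
  have c2 : Continuous fun p : Vec d × Vec d => nsq p.1 := continuous_sq.comp continuous_fst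
  have c3 : Continuous fun p : Vec d × Vec d => nsq p.2 := continuous_sq.comp continuous_snd
  have c4 : Continuous fun p : Vec d × Vec d => dot p.1 p.2 := by
    unfold dot
    fun_prop
  have c5 : Continuous fun p : Vec d × Vec d => dot (p.1 - p.2) p.1 := by
    unfold dot
    fun_prop
  have c6 : Continuous fun p : Vec d × Vec d => dot (p.1 - p.2) p.2 := by
    unfold dot
    fun_prop
  have m1 : Measurable fun p : Vec d × Vec d => nsq (p.1 - p.2) ^ (γ / 2) :=
    c1.measurable.pow_const _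
  unfold Ph
  refine (measurable_const.mul m1).mul ?_
  refine Continuous.measurable ?_
  fun_prop

private lemma wkF_prod {g : Vec d → ℝ} (hg : Nice g) {F : Vec d × Vec d → ℝ} {C : ℝ} {N : ℕ}
    (hC : 0 ≤ C) (hF : Measurable F) (hb : ∀ v w, |F (v, w)| ≤ C * ((1 + ‖v‖) * (1 + ‖w‖)) ^ N) :
    Integrable (fun p => F p * (g p.1 * g p.2)) (volume.prod volume) := by
  obtain ⟨D, hD0, hD⟩ := hg.rd.bound (N + (d + 1))
  have mg := hg.cont.measurable
  refine (wt_prod_integrable.const_mul (C * D * D)).mono' ?_ (Eventually.of_forall fun p => ?_)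
  · exact (hF.mul ((mg.comp measurable_fst).mul (mg.comp measurable_snd))).aestronglyMeasurable
  · obtain ⟨v, w⟩ := p
    simp only [norm_mul]
    have hv := w_pos v
    have hw := w_pos w
    calc ‖F (v, w)‖ * (‖g v‖ * ‖g w‖)
        ≤ (C * ((1 + ‖v‖) * (1 + ‖w‖)) ^ N) *
          ((D * ((1 + ‖v‖) ^ (N + (d + 1)))⁻¹) * (D * ((1 + ‖w‖) ^ (N + (d + 1)))⁻¹)) := by
          refine mul_le_mul (hb v w) ?_ (by positivity) (by positivity)
          exact mul_le_mul (hD v) (hD w) (norm_nonneg _) (by positivity)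
      _ = C * D * D * (wt d v * wt d w) := by
          unfold wt
          rw [pow_add, pow_add, mul_pow]
          field_simp
          rw [pow_add]
          ring

theorem ph_int (h1 : -2 < γ) (h2 : γ ≤ 0) {g : Vec d → ℝ} (hg : Nice g) (i : ℕ) :
    Integrable (fun p : Vec d × Vec d => Ph γ i p.1 p.2 * (g p.1 * g p.2)) (volume.prod volume) := by
  obtain ⟨C, hC, hb⟩ := wkF_Ph_le (d := d) h1 h2 i
  exact wkF_prod hg hC (wkF_Ph_meas γ i) hb

theorem wk_form (hd : 1 ≤ d) (h1 : -2 < γ) (h2 : γ < 0) {g : Vec d → ℝ} (hg : Nice g) (i : ℕ) :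
    ∫ v, landauQ γ g v * (1 + nsq v) ^ (i + 2) =
      ∫ p : Vec d × Vec d, Ph γ i p.1 p.2 * (g p.1 * g p.2) ∂(volume.prod volume) := by
  have h2' := h2.le
  obtain ⟨C₁, hC₁, hlip⟩ := wkF_P_lip d i
  obtain ⟨C, hC, hF⟩ := wkF_field (d := d) h1 h2' i
  -- the test function
  have hφ : Differentiable ℝ fun v : Vec d => (1 + nsq v) ^ (i + 2) := fun v =>
    (((hasFDerivAt_sq v).const_add 1).pow (i + 2)).differentiableAt
  have hφp : PG fun v : Vec d => (1 + nsq v) ^ (i + 2) := by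
    refine ⟨2 * (i + 2), ((d : ℝ) + 1) ^ (i + 2), fun v => ?_⟩
    have h3 := one_add_sq_le v
    have h4 := sq_nonneg' v
    rw [Real.norm_eq_abs, abs_of_nonneg (by positivity)]
    calc (1 + nsq v) ^ (i + 2) ≤ (((d : ℝ) + 1) * (1 + ‖v‖) ^ 2) ^ (i + 2) :=
          pow_le_pow_left₀ (by linarith) h3 _
      _ = _ := by rw [mul_pow, ← pow_mul]
  have hφ1 : PG (fderiv ℝ fun v : Vec d => (1 + nsq v) ^ (i + 2)) := by
    have h3 := wkF_fd (C := ((i + 2 : ℕ) : ℝ) * d * ((d : ℝ) + 1) ^ (2 * (i + 2)))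
      (N := 2 * (i + 2) + 1) (by positivity) (wkF_pow_lip2 (d := d) (i + 2))
    refine ⟨2 * (2 * (i + 2) + 1), ((i + 2 : ℕ) : ℝ) * d * ((d : ℝ) + 1) ^ (2 * (i + 2)) *
      2 ^ (2 * (i + 2) + 1), fun v => (h3 v).trans (le_of_eq ?_)⟩
    rw [mul_assoc 2, mul_pow, ← sq, ← pow_mul]
    ring
  rw [weak_form h1 h2' hg hφ hφp hφ1, ← Finset.sum_neg_distrib]
  have epd : ∀ a, pd a (fun v : Vec d => (1 + nsq v) ^ (i + 2)) = wkF_P i a := fun a =>
    funext fun v => wkF_pdphi i a v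
  have hPG : ∀ a, PG (wkF_P (d := d) i a) := by
    intro a
    rw [← epd a]
    obtain ⟨N, D, hD⟩ := hφ1
    exact ⟨N, D, fun v => (pd_le a _ v).trans (hD v)⟩
  have hPm : ∀ a, Measurable (wkF_P (d := d) i a) := by
    intro a
    rw [← epd a]
    exact measurable_fderiv_apply_const ℝ _ _
  simp only [epd]
  have hK := fun a b => integrable_flux_kernel h1 h2' hg a b (hPG a) (hPm a)
  -- the inner integrals
  have inner : ∀ a b (w : Vec d), ∫ v, landauA γ (v - w) a b * (wkF_P i a v - wkF_P i a w) *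
      (pd b g v * g w) = -∫ v, (if v = w then 0 else wkF_D γ i a b v w) * (g v * g w) ∧
      Integrable fun v => (if v = w then 0 else wkF_D γ i a b v w) * (g v * g w) := by
    intro a b w
    set H : Vec d → ℝ := fun v => landauA γ (v - w) a b * (wkF_P i a v - wkF_P i a w) with hH
    have hw := w_pos w
    have hHdiff : Differentiable ℝ H := fun v => by
      obtain ⟨B, hB, -⟩ := hF a b w v
      exact hB.differentiableAt
    have hpd : ∀ v, pd b H v = if v = w then 0 else wkF_D γ i a b v w := by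
      intro v
      obtain ⟨B, hB, -, hB0, hB1⟩ := hF a b w v
      unfold pd
      rw [hB.fderiv]
      by_cases hv : v = w
      · rw [hB0 hv, if_pos hv]
        rfl
      · rw [hB1 hv, if_neg hv]
    have hH1 : PG (fderiv ℝ H) := by
      refine ⟨2 * (2 * (i + 1) + 2) + 2, C * (1 + ‖w‖) ^ (2 * (2 * (i + 1) + 2) + 2), fun v => ?_⟩
      obtain ⟨B, hB, hBn, -⟩ := hF a b w v
      rw [hB.fderiv]
      refine hBn.trans (le_of_eq ?_)
      rw [mul_pow]
      ring
    have hH0 : PG H := by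
      refine ⟨2 * (i + 1) + 2 + 3, 2 * (d + 1) * C₁ * (1 + ‖w‖) ^ (2 * (i + 1) + 2 + 3),
        fun v => ?_⟩
      rw [hH]
      simp only [norm_mul]
      have hv := w_pos v
      have a1 := landauA_PG h1 h2' (v - w) a b
      have a2 := w_sub_le v w
      have a3 := hlip a v w
      have a4 : ‖v - w‖ ≤ (1 + ‖v‖) * (1 + ‖w‖) := by linarith
      have a5 : (1 + ‖v - w‖) ^ 2 ≤ ((1 + ‖v‖) * (1 + ‖w‖)) ^ 2 :=
        pow_le_pow_left₀ (w_pos _).le a2 2
      calc ‖landauA γ (v - w) a b‖ * ‖wkF_P i a v - wkF_P i a w‖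
          ≤ (2 * (d + 1) * ((1 + ‖v‖) * (1 + ‖w‖)) ^ 2) *
            (C₁ * ((1 + ‖v‖) * (1 + ‖w‖)) ^ (2 * (i + 1) + 2) * ((1 + ‖v‖) * (1 + ‖w‖))) := by
            refine mul_le_mul (a1.trans ?_) (a3.trans ?_) (norm_nonneg _) (by positivity)
            · exact mul_le_mul_of_nonneg_left a5 (by positivity)
            · exact mul_le_mul_of_nonneg_left a4 (by positivity)
        _ = 2 * (d + 1) * C₁ * ((1 + ‖v‖) * (1 + ‖w‖)) ^ (2 * (i + 1) + 2 + 3) := by ring
        _ = _ := by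
            rw [mul_pow]
            ring
    have e1 : ∫ v, landauA γ (v - w) a b * (wkF_P i a v - wkF_P i a w) * (pd b g v * g w) =
        g w * ∫ v, pd b g v * H v := by
      rw [← integral_const_mul]
      refine integral_congr_ae (Eventually.of_forall fun v => ?_)
      simp only [hH]
      ring
    constructor
    · rw [e1, ibp hg.diff hg.rd hg.rd1 hHdiff hH0 hH1 b, mul_neg, ← integral_const_mul]
      congr 1
      refine integral_congr_ae (Eventually.of_forall fun v => ?_)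
      simp only [hpd]
      ring
    · have hPG2 : PG (pd b H) := by
        obtain ⟨N, D, hD⟩ := hH1
        exact ⟨N, D, fun v => (pd_le b _ v).trans (hD v)⟩
      have h5 : RD fun v => g v * pd b H v := hg.rd.mul_PG hPG2
      have h6 : Measurable fun v => g v * pd b H v :=
        hg.cont.measurable.mul (measurable_fderiv_apply_const ℝ H _)
      have h7 := (h5.integrable h6.aestronglyMeasurable).mul_const (g w)
      refine h7.congr (Eventually.of_forall fun v => ?_)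
      simp only [hpd]
      ring
  -- Fubini
  have step : ∀ a b, -∫ p : Vec d × Vec d,
      landauA γ (p.1 - p.2) a b * (wkF_P i a p.1 - wkF_P i a p.2) * (pd b g p.1 * g p.2)
        ∂(volume.prod volume) =
      ∫ w, ∫ v, (if v = w then 0 else wkF_D γ i a b v w) * (g v * g w) := by
    intro a b
    rw [integral_prod_symm _ (hK a b), ← integral_neg]
    refine integral_congr_ae (Eventually.of_forall fun w => ?_)
    simp only
    rw [(inner a b w).1, neg_neg]
  have stepI : ∀ a b, Integrable fun w =>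
      ∫ v, (if v = w then 0 else wkF_D γ i a b v w) * (g v * g w) := by
    intro a b
    have h5 := (hK a b).integral_prod_right.neg
    refine h5.congr (Eventually.of_forall fun w => ?_)
    simp only [Pi.neg_apply]
    rw [(inner a b w).1, neg_neg]
  have e2 : ∀ a, -∑ b, ∫ p : Vec d × Vec d,
      landauA γ (p.1 - p.2) a b * (wkF_P i a p.1 - wkF_P i a p.2) * (pd b g p.1 * g p.2)
        ∂(volume.prod volume) =
      ∑ b, ∫ w, ∫ v, (if v = w then 0 else wkF_D γ i a b v w) * (g v * g w) := by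
    intro a
    rw [← Finset.sum_neg_distrib]
    exact Finset.sum_congr rfl fun b _ => step a b
  rw [Finset.sum_congr rfl fun a _ => e2 a, integral_prod_symm _ (ph_int h1 h2' hg i)]
  have e3 : ∀ a, ∑ b, ∫ w, ∫ v, (if v = w then 0 else wkF_D γ i a b v w) * (g v * g w) =
      ∫ w, ∑ b, ∫ v, (if v = w then 0 else wkF_D γ i a b v w) * (g v * g w) := fun a =>
    (integral_finsetSum _ fun b _ => stepI a b).symm
  rw [Finset.sum_congr rfl fun a _ => e3 a,
    ← integral_finsetSum _ fun a _ => integrable_finsetSum _ fun b _ => stepI a b]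
  refine integral_congr_ae (Eventually.of_forall fun w => ?_)
  simp only
  have e4 : ∀ a, ∑ b, ∫ v, (if v = w then 0 else wkF_D γ i a b v w) * (g v * g w) =
      ∫ v, ∑ b, (if v = w then 0 else wkF_D γ i a b v w) * (g v * g w) := fun a =>
    (integral_finsetSum _ fun b _ => (inner a b w).2).symm
  rw [Finset.sum_congr rfl fun a _ => e4 a,
    ← integral_finsetSum _ fun a _ => integrable_finsetSum _ fun b _ => (inner a b w).2]
  refine integral_congr_ae (Eventually.of_forall fun v => ?_)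
  simp only
  have e5 : ∀ a, ∑ b, (if v = w then 0 else wkF_D γ i a b v w) * (g v * g w) =
      (∑ b, if v = w then 0 else wkF_D γ i a b v w) * (g v * g w) := fun a =>
    (Finset.sum_mul _ _ _).symm
  rw [Finset.sum_congr rfl fun a _ => e5 a, ← Finset.sum_mul]
  congr 1
  by_cases hv : v = w
  · subst hv
    simp [wkF_Ph0]
  · simp only [if_neg hv]
    exact wkF_sum γ i v w

end Pool.Agent.H37.LN
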